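import Pool.Agent.BCP8.Stm

/-!
# Project BCP, piece BR (helper79): the lists of the algorithm
-/

set_option autoImplicit false
set_option linter.all false

namespace Pool.Agent.BCP8

open Pool.Agent.Lib.CX Finset

namespace BRP

theorem countP_range (p : ℕ → Bool) (n : ℕ) :
    (List.range n).countP p = ((Finset.range n).filter fun x => p x = true).card := by
  induction n with
  | zero => simp
  | succ n ih =>
    rw [List.range_succ, List.countP_append, ih, Finset.range_add_one, Finset.filter_insert]
    by_cases h : p n = true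
    · rw [if_pos h, Finset.card_insert_of_notMem (by simp)]
      simp [h]
    · rw [if_neg h]
      simp [h]

theorem sum_range' (f : ℕ → ℕ) (n : ℕ) :
    ((List.range n).map f).sum = ∑ x ∈ Finset.range n, f x := by
  induction n with
  | zero => simp
  | succ n ih =>
    rw [List.range_succ, List.map_append, List.sum_append, ih, Finset.sum_range_succ]
    simp

theorem countP_fin {α : Type} (p : α → Bool) (l : List α) :
    l.countP p = ((univ : Finset (Fin l.length)).filter fun j => p (l.get j) = true).card := by
  induction l with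
  | nil => simp
  | cons a l ih =>
    rw [List.countP_cons, ih]
    have h := Fin.card_filter_univ_succ (n := l.length)
      (fun j : Fin (l.length + 1) => p ((a :: l).get j) = true)
    have h' : ((univ : Finset (Fin (a :: l).length)).filter
        fun j => p ((a :: l).get j) = true).card = _ := h
    rw [h']
    by_cases hp : p a = true
    · simp [hp]
    · simp [hp]

variable (E : Env)

theorem adj_iff (u v : ℕ) : E.adj u v = true ↔
    u < E.n ∧ v < E.n ∧ u ≠ v ∧ ((u, v) ∈ E.2.2.1.2 ∨ (v, u) ∈ E.2.2.1.2) := by
  unfold Env.adj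
  simp only [Bool.and_eq_true, Bool.or_eq_true, decide_eq_true_eq, and_assoc]

theorem adj_symm {u v : ℕ} (h : E.adj u v = true) : E.adj v u = true := by
  rw [adj_iff] at h ⊢
  exact ⟨h.2.1, h.1, h.2.2.1.symm, h.2.2.2.symm⟩

/-- outside the modulator -/
def Gd (u : ℕ) : Prop := u < E.n ∧ u ∉ E.S

/-- adjacent or equal -/
def Re (u v : ℕ) : Prop := u = v ∨ E.adj u v = true

theorem Re.symm {u v : ℕ} (h : Re E u v) : Re E v u := by
  rcases h with h | h
  · exact Or.inl h.symm
  · exact Or.inr (adj_symm E h)

theorem p3 (h : E.ok = true) {u v w : ℕ} (hu : Gd E u) (hv : Gd E v) (hw : Gd E w)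
    (h1 : Re E u v) (h2 : Re E v w) : Re E u w := by
  rcases h1 with rfl | h1
  · exact h2
  rcases h2 with rfl | h2
  · exact Or.inr h1
  by_cases huw : u = w
  · exact Or.inl huw
  right
  unfold Env.ok at h
  simp only [Bool.and_eq_true] at h
  have h3 := h.1.1
  rw [Option.isNone_iff_eq_none] at h3
  unfold Env.P3 at h3
  rw [List.find?_eq_none] at h3
  have h4 := h3 (u, v, w) (by
    rw [List.mem_product, List.mem_product]
    exact ⟨List.mem_range.2 hu.1, List.mem_range.2 hv.1, List.mem_range.2 hw.1⟩)
  by_contra h5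
  apply h4
  simp only [Bool.and_eq_true, decide_eq_true_eq, Bool.not_eq_true']
  exact ⟨⟨⟨⟨⟨⟨hu.2, hv.2⟩, hw.2⟩, h1⟩, h2⟩, huw⟩, by simpa using h5⟩

/-- the representatives -/
def rl : List ℕ := (List.range E.n).filter fun v => decide (v ∉ E.S) &&
    (List.range v).all fun u => decide (u ∈ E.S) || !E.adj u v

/-- the class of a representative -/
def clf (v : ℕ) : List ℕ :=
  (List.range E.n).filter fun u => decide (u ∉ E.S) && (decide (u = v) || E.adj u v)

theorem cl_eq : E.cl = (rl E).map (clf E) := rfl

theorem mem_rl {r : ℕ} : r ∈ rl E ↔ Gd E r ∧ ∀ u < r, u ∉ E.S → E.adj u r = false := by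
  unfold rl Gd
  rw [List.mem_filter, List.mem_range]
  simp only [Bool.and_eq_true, decide_eq_true_eq, List.all_eq_true, List.mem_range,
    Bool.or_eq_true, Bool.not_eq_true']
  constructor
  · rintro ⟨h1, h2, h3⟩
    refine ⟨⟨h1, h2⟩, fun u hu hS => ?_⟩
    rcases h3 u hu with h | h
    · exact absurd h hS
    · exact h
  · rintro ⟨⟨h1, h2⟩, h3⟩
    refine ⟨h1, h2, fun u hu => ?_⟩
    by_cases hS : u ∈ E.S
    · exact Or.inl hS
    · exact Or.inr (h3 u hu hS)

theorem rl_nodup : (rl E).Nodup := List.Nodup.filter _ List.nodup_range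

theorem rl_unique {a b : ℕ} (ha : a ∈ rl E) (hb : b ∈ rl E) (h : Re E a b) : a = b := by
  rw [mem_rl] at ha hb
  rcases h with h | h
  · exact h
  rcases lt_trichotomy a b with h1 | h1 | h1
  · have := hb.2 a h1 ha.1.2
    rw [h] at this
    cases this
  · exact h1
  · have := ha.2 b h1 hb.1.2
    rw [adj_symm E h] at this
    cases this

theorem exists_rep (h : E.ok = true) {v : ℕ} (hv : Gd E v) : ∃ r ∈ rl E, Re E r v := by
  classical
  have hex : ∃ u, Gd E u ∧ Re E u v := ⟨v, hv, Or.inl rfl⟩
  refine ⟨Nat.find hex, ?_, (Nat.find_spec hex).2⟩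
  rw [mem_rl]
  refine ⟨(Nat.find_spec hex).1, fun u hu hS => ?_⟩
  by_contra hc
  have hc' : E.adj u (Nat.find hex) = true := by simpa using hc
  have hg : Gd E u := ⟨((adj_iff E _ _).1 hc').1, hS⟩
  exact Nat.find_min hex hu ⟨hg, p3 E h hg (Nat.find_spec hex).1 hv (Or.inr hc')
    (Nat.find_spec hex).2⟩

theorem len : E.cl.length = (rl E).length := by rw [cl_eq, List.length_map]

/-- the representative of the `j`-th clique -/
def rj (j : Fin E.cl.length) : ℕ := (rl E).get (j.cast (len E))

theorem get_cl (j : Fin E.cl.length) : E.cl.get j = clf E (rj E j) := by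
  have : ∀ (l : List (List ℕ)) (hl : l = (rl E).map (clf E)) (j : Fin l.length)
      (h : l.length = (rl E).length), l.get j = clf E ((rl E).get (j.cast h)) := by
    intro l hl j h
    subst hl
    simp
  exact this _ (cl_eq E) j (len E)

theorem rj_mem (j : Fin E.cl.length) : rj E j ∈ rl E := List.get_mem _ _

theorem rj_inj {i j : Fin E.cl.length} (h : rj E i = rj E j) : i = j := by
  have h1 := (List.nodup_iff_injective_get.1 (rl_nodup E)) h
  exact Fin.cast_injective _ h1

theorem exists_rj {r : ℕ} (hr : r ∈ rl E) : ∃ j, rj E j = r := by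
  obtain ⟨i, hi⟩ := List.mem_iff_get.1 hr
  refine ⟨i.cast (len E).symm, ?_⟩
  unfold rj
  rw [← hi]
  rfl

theorem gd (v : Rest E) : Gd E (v.1 : ℕ) := ⟨v.1.2, v.2⟩

/-- membership in codes -/
theorem mem_dec {q A : ℕ} {i : Fin q} : i ∈ dec q A ↔ A.testBit i = true := by
  simp [dec]

theorem le_iff (Z A : ℕ) : E.le Z A = true ↔ dec E.q Z ⊆ dec E.q A := by
  unfold Env.le
  simp only [List.all_eq_true, List.mem_range, Bool.or_eq_true, Bool.not_eq_true']
  constructor
  · intro h i hi
    rw [mem_dec] at hi ⊢
    rcases h i i.2 with h1 | h1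
    · rw [hi] at h1; cases h1
    · exact h1
  · intro h i hi
    by_cases h1 : Z.testBit i = true
    · right
      have h2 : (⟨i, hi⟩ : Fin E.q) ∈ dec E.q Z := mem_dec.2 h1
      exact mem_dec.1 (h h2)
    · left
      simpa using h1

theorem card_fin_range (q : ℕ) (P : ℕ → Prop) [DecidablePred P] :
    ((Finset.range q).filter P).card =
      ((univ : Finset (Fin q)).filter fun i : Fin q => P (i : ℕ)).card := by
  symm
  refine Finset.card_bij (fun i _ => (i : ℕ)) ?_ ?_ ?_
  · intro i hi
    simp only [Finset.mem_filter, Finset.mem_univ, true_and] at hi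
    exact Finset.mem_filter.2 ⟨Finset.mem_range.2 i.2, hi⟩
  · intro i _ j _ h
    exact Fin.ext h
  · intro x hx
    rw [Finset.mem_filter, Finset.mem_range] at hx
    exact ⟨⟨x, hx.1⟩, by simp [hx.2], rfl⟩

theorem cd_eq (Z : ℕ) : E.cd Z = (dec E.q Z).card := by
  unfold Env.cd dec
  rw [countP_range, card_fin_range]

/-- every set has a code -/
theorem exists_code (q : ℕ) (T : Finset (Fin q)) : ∃ Z < 2 ^ q, dec q Z = T := by
  classical
  induction q with
  | zero =>
    refine ⟨0, by simp, ?_⟩
    ext i
    exact i.elim0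
  | succ q ih =>
    obtain ⟨Z, hZ, hd⟩ := ih (univ.filter fun i : Fin q => i.castSucc ∈ T)
    have hlast : Z.testBit q = false := Nat.testBit_lt_two_pow hZ
    by_cases hq : Fin.last q ∈ T
    · refine ⟨2 ^ q + Z, by rw [pow_succ]; omega, ?_⟩
      ext i
      rw [mem_dec]
      refine Fin.lastCases ?_ (fun i => ?_) i
      · rw [Fin.val_last, Nat.testBit_two_pow_add_eq, hlast]
        simp [hq]
      · rw [Fin.val_castSucc, Nat.testBit_two_pow_add_gt i.2]
        have : i ∈ dec q Z ↔ i.castSucc ∈ T := by rw [hd]; simp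
        rw [← this, mem_dec]
    · refine ⟨Z, lt_of_lt_of_le hZ (Nat.pow_le_pow_right (by norm_num) (by omega)), ?_⟩
      ext i
      rw [mem_dec]
      refine Fin.lastCases ?_ (fun i => ?_) i
      · rw [Fin.val_last, hlast]
        simp [hq]
      · rw [Fin.val_castSucc]
        have : i ∈ dec q Z ↔ i.castSucc ∈ T := by rw [hd]; simp
        rw [← this, mem_dec]

end BRP

open BRP in
theorem t_BR : S_BR := by
  intro E hok hpad
  classical
  have hκ : ∀ v : Rest E, ∃ j, Re E (rj E j) v.1 := by
    intro v
    obtain ⟨r, hr, hrv⟩ := exists_rep E hok (gd E v)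
    obtain ⟨j, rfl⟩ := exists_rj E hr
    exact ⟨j, hrv⟩
  choose κ hκ using hκ
  have hgr : ∀ j, Gd E (rj E j) := fun j => ((mem_rl E).1 (rj_mem E j)).1
  have hcr : ∀ (v : Rest E) j, κ v = j ↔ Re E (rj E j) v.1 := by
    intro v j
    constructor
    · rintro rfl
      exact hκ v
    · intro h
      apply rj_inj E
      apply rl_unique E (rj_mem E _) (rj_mem E _)
      exact p3 E hok (hgr _) (gd E v) (hgr _) (hκ v) (Re.symm E h)
  refine ⟨κ, ?_, ?_⟩
  · intro u v huv
    have hne : (u.1 : ℕ) ≠ v.1 := fun h => huv (Subtype.ext (Fin.ext h))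
    constructor
    · intro h
      have h1 := (hcr v (κ u)).1 h.symm
      have h2 := p3 E hok (gd E u) (hgr _) (gd E v) (Re.symm E (hκ u)) h1
      rcases h2 with h2 | h2
      · exact absurd h2 hne
      · exact h2
    · intro h
      exact ((hcr v (κ u)).2 (p3 E hok (hgr _) (gd E u) (gd E v) (hκ u) (Or.inr h))).symm
  · -- the numbers
    have hhit : ∀ (j : Fin E.cl.length) (Z A : ℕ), E.hit (E.cl.get j) Z A =
        (univ.filter fun v : Rest E => κ v = j ∧ ∀ i ∈ dec E.q A,
          E.comp v.1 i = true → i ∈ dec E.q Z).card := by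
      intro j Z A
      rw [get_cl]
      unfold Env.hit clf
      rw [List.countP_filter, countP_range]
      symm
      refine Finset.card_bij (fun v _ => (v.1 : ℕ)) ?_ ?_ ?_
      · intro v hv
        simp only [Finset.mem_filter, Finset.mem_univ, true_and] at hv
        obtain ⟨h1, h2⟩ := hv
        rw [hcr] at h1
        rw [Finset.mem_filter]
        refine ⟨Finset.mem_range.2 v.1.2, ?_⟩
        simp only [Bool.and_eq_true, List.all_eq_true, List.mem_range, Bool.or_eq_true,
          Bool.not_eq_true', decide_eq_true_eq]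
        refine ⟨fun i hi => ?_, v.2, ?_⟩
        · by_cases h3 : E.comp v.1 i = true ∧ A.testBit i = true
          · right
            exact mem_dec.1 (h2 ⟨i, hi⟩ (mem_dec.2 h3.2) h3.1)
          · left
            rw [← Bool.not_eq_true, Bool.and_eq_true]
            exact h3
        · rcases Re.symm E h1 with h3 | h3
          · exact Or.inl h3
          · exact Or.inr h3
      · intro v _ w _ h
        exact Subtype.ext (Fin.ext h)
      · intro x hx
        rw [Finset.mem_filter, Finset.mem_range] at hx
        obtain ⟨hx1, hx2⟩ := hx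
        simp only [Bool.and_eq_true, List.all_eq_true, List.mem_range, Bool.or_eq_true,
          Bool.not_eq_true', decide_eq_true_eq] at hx2
        obtain ⟨h3, h4, h5⟩ := hx2
        refine ⟨⟨⟨x, hx1⟩, h4⟩, ?_, rfl⟩
        rw [Finset.mem_filter]
        refine ⟨Finset.mem_univ _, (hcr _ _).2 (Re.symm E ?_), fun i hi hc => ?_⟩
        · rcases h5 with h5 | h5
          · exact Or.inl h5
          · exact Or.inr h5
        · rw [mem_dec] at hi ⊢
          rcases h3 i i.2 with h6 | h6
          · rw [← Bool.not_eq_true, Bool.and_eq_true] at h6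
            exact absurd ⟨hc, hi⟩ h6
          · exact h6
    have hw : ∀ (j : Fin E.cl.length) (A : ℕ), E.w (E.cl.get j) A =
        wf κ (fun (v : Rest E) (i : Fin E.q) => E.comp v.1 i) j (dec E.q A) := by
      intro j A
      unfold Env.w
      rw [countP_range]
      have hM : ∀ x, (E.subs.any fun Z => E.le Z A && decide (x + 1 + E.cd Z ≤
          E.hit (E.cl.get j) Z A)) = true ↔
          x < wf κ (fun (v : Rest E) (i : Fin E.q) => E.comp v.1 i) j (dec E.q A) := by
        intro x
        unfold wf
        rw [Finset.lt_sup_iff]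
        simp only [List.any_eq_true, Bool.and_eq_true, decide_eq_true_eq]
        constructor
        · rintro ⟨Z, -, h1, h2⟩
          refine ⟨dec E.q Z, Finset.mem_powerset.2 ((le_iff E Z A).1 h1), ?_⟩
          rw [hhit, cd_eq] at h2
          have h3 : (univ.filter fun v : Rest E => κ v = j ∧ ∀ i ∈ dec E.q A,
            E.comp v.1 i = true → i ∈ dec E.q Z).card = (univ.filter fun v : Rest E => κ v = j ∧
            ∀ i ∈ dec E.q A, (fun (v : Rest E) (i : Fin E.q) => E.comp v.1 i) v i = true →
              i ∈ dec E.q Z).card := rfl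
          omega
        · rintro ⟨T, hT, h1⟩
          obtain ⟨Z, hZ, rfl⟩ := exists_code E.q T
          refine ⟨Z, ?_, (le_iff E Z A).2 (Finset.mem_powerset.1 hT), ?_⟩
          · unfold Env.subs
            rw [List.mem_range]
            exact lt_min hZ (lt_of_lt_of_le hZ hpad)
          · rw [hhit, cd_eq]
            omega
      have hle : wf κ (fun (v : Rest E) (i : Fin E.q) => E.comp v.1 i) j (dec E.q A) ≤
          (E.cl.get j).length := by
        unfold wf
        refine Finset.sup_le fun T _ => ?_
        obtain ⟨Z, hZ, rfl⟩ := exists_code E.q T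
        have h1 := hhit j Z A
        have h2 : E.hit (E.cl.get j) Z A ≤ (E.cl.get j).length := List.countP_le_length
        refine le_trans (Nat.sub_le _ _) ?_
        have h5 : (univ.filter fun v : Rest E => κ v = j ∧ ∀ i ∈ dec E.q A,
            E.comp v.1 i = true → i ∈ dec E.q Z).card ≤ (E.cl.get j).length := by
          rw [← h1]; exact h2
        convert h5
        rfl
      have hset : ((Finset.range (E.cl.get j).length).filter fun x =>
          (E.subs.any fun Z => E.le Z A && decide (x + 1 + E.cd Z ≤
            E.hit (E.cl.get j) Z A)) = true) =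
          Finset.range (wf κ (fun (v : Rest E) (i : Fin E.q) => E.comp v.1 i) j
            (dec E.q A)) := by
        ext x
        rw [Finset.mem_filter, Finset.mem_range, Finset.mem_range, hM]
        constructor
        · exact fun h => h.2
        · exact fun h => ⟨lt_of_lt_of_le h hle, h⟩
      rw [hset, Finset.card_range]
    intro m A
    unfold Env.W Wf
    rw [sum_range']
    refine Finset.sum_congr rfl fun x _ => ?_
    congr 1
    rw [countP_fin]
    congr 1
    ext j
    simp only [Finset.mem_filter, Finset.mem_univ, true_and, decide_eq_true_eq]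
    rw [hw]

end Pool.Agent.BCP8
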