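import Pool.Agent.BCP8.Stm

/-!
# Project BCP, piece COR (helper55): correctness of the algorithm
-/

set_option autoImplicit false

namespace Pool.Agent.BCP8

open Pool.Agent.Lib.CX Finset

namespace CORx

theorem adj_iff (E : Env) (u v : Fin E.n) :
    E.adj u v = true ↔ (Gr.G E.2.2.1).Adj u v := by
  unfold Env.adj Gr.G
  rw [SimpleGraph.fromRel_adj]
  simp only [Bool.and_eq_true, Bool.or_eq_true, decide_eq_true_eq]
  constructor
  · rintro ⟨⟨-, h2⟩, h3⟩
    exact ⟨fun h => h2 (congrArg Fin.val h), h3⟩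
  · rintro ⟨h2, h3⟩
    exact ⟨⟨⟨u.2, v.2⟩, fun h => h2 (Fin.ext h)⟩, h3⟩

theorem length_rnd (E : Env) (a : List ℕ) : (E.rnd a).length = a.length := by
  unfold Env.rnd
  cases E.nxt a with
  | none => rfl
  | some i => simp

theorem length_run (E : Env) : E.run.length = E.q := by
  unfold Env.run
  have h : ∀ m, (E.rnd^[m] (List.replicate E.q 0)).length = E.q := by
    intro m
    induction m with
    | zero => simp
    | succ m ih => rw [Function.iterate_succ_apply', length_rnd, ih]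
  exact h _

theorem pow_q_le (pad : List Unit) (k : ℕ) (G : Gr) (B : List ℕ) (t : ℕ)
    (hpad : gg k ≤ pad.length) :
    2 ^ Env.q (pad, k, G, B, t) ≤ Env.pad (pad, k, G, B, t) := by
  have h1 : Env.q (pad, k, G, B, t) ≤ k := by
    unfold Env.q
    exact (min_le_right _ _).trans (min_le_left _ _)
  refine le_trans ?_ hpad
  unfold gg
  exact (Nat.pow_le_pow_left (by omega) _).trans (Nat.pow_le_pow_right (by omega) (by omega))

end CORx

open CORx in
theorem t_COR (h1 : S_LOOP) (h2 : S_GUE) (h3 : S_FEA1) (h4 : S_SRT) (h5 : S_MODL) : S_COR := by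
  intro pad k G B hpad
  obtain ⟨B', hB'⟩ : ∃ B' : List ℕ, B' = B.insertionSort (· ≤ ·) := ⟨_, rfl⟩
  have hs : B'.Pairwise (· ≤ ·) := by
    rw [hB']
    exact List.pairwise_insertionSort _ _
  have hp : B'.Perm B := by
    rw [hB']
    exact List.perm_insertionSort _ _
  have hF : F (pad, k, G, B) = true ↔ ∃ t < pad.length, Env.ok (pad, k, G, B', t) = true ∧
      Env.fin (pad, k, G, B', t) (Env.run (pad, k, G, B', t)) = true := by
    unfold F
    rw [List.any_eq_true]
    simp only [List.mem_range, Bool.and_eq_true]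
    rw [← hB']
  rw [hF]
  constructor
  · rintro ⟨t, -, hok, hfin⟩
    have h6 := h3 (pad, k, G, B', t) hs hok (pow_q_le _ _ _ _ _ hpad) _ ⟨length_run _, hfin⟩
    have hP : Env.P3 (pad, k, G, B', t) (Env.S (pad, k, G, B', t)) = none := by
      unfold Env.ok at hok
      simp only [Bool.and_eq_true, Option.isNone_iff_eq_none] at hok
      exact hok.1.1
    refine ⟨(h5 (pad, k, G, B', t)).2.2.2 hP, ?_⟩
    obtain ⟨f, hf1, hf2, -⟩ := h6
    refine h4 _ _ B' B hp ⟨f, fun u v huv => ?_, hf2⟩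
    exact hf1 u v ((adj_iff (pad, k, G, B', t) u v).mpr huv)
  · rintro ⟨hc, hb⟩
    obtain ⟨t, ht, hok, ha⟩ := h2 pad k G B' hs hpad hc (h4 _ _ B B' hp.symm hb)
    exact ⟨t, ht.trans_le hpad, hok, h1 _ hs hok (pow_q_le _ _ _ _ _ hpad) ha⟩

end Pool.Agent.BCP8
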