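import Pool.Agent.BCP8.Stm

/-!
# Project BCP, piece CUT1
-/

set_option autoImplicit false

namespace Pool.Agent.BCP8

open Finset

namespace CUT1x

variable {V J Q : Type} [Fintype V] [DecidableEq J] [Fintype Q]
  [DecidableEq Q]

theorem wf_le (κ : V → J) (L : V → Q → Bool) (j : J) (A : Finset Q) :
    wf κ L j A ≤ Fintype.card V := by
  unfold wf
  refine Finset.sup_le fun Z _ => ?_
  exact (Nat.sub_le _ _).trans (Finset.card_le_univ _)

/-- one clique -/
theorem one (κ : V → J) (L : V → Q → Bool) (j : J) (A : Finset Q) (U : Finset V) :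
    (U.filter fun v => κ v = j).card ≤ wf κ L j A +
      (A.filter fun i => ∃ v ∈ U, κ v = j ∧ L v i = true).card := by
  classical
  obtain ⟨Z, hZ⟩ : ∃ Z, Z = A.filter fun i => ∃ v ∈ U, κ v = j ∧ L v i = true := ⟨_, rfl⟩
  rw [← hZ]
  have h1 : (univ.filter fun v => κ v = j ∧ ∀ i ∈ A, L v i = true → i ∈ Z).card - Z.card ≤
      wf κ L j A := by
    unfold wf
    refine Finset.le_sup (f := fun Z : Finset Q =>
      (univ.filter fun v => κ v = j ∧ ∀ i ∈ A, L v i = true → i ∈ Z).card - Z.card) ?_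
    rw [hZ, Finset.mem_powerset]
    exact Finset.filter_subset _ _
  have h2 : (U.filter fun v => κ v = j).card ≤
      (univ.filter fun v => κ v = j ∧ ∀ i ∈ A, L v i = true → i ∈ Z).card := by
    refine Finset.card_le_card fun v hv => ?_
    rw [Finset.mem_filter] at hv ⊢
    refine ⟨mem_univ _, hv.2, fun i hi hL => ?_⟩
    rw [hZ, Finset.mem_filter]
    exact ⟨hi, v, hv.1, hv.2, hL⟩
  omega

end CUT1x

open CUT1x

theorem t_CUT1 (h : S_TOP) : S_CUT1 := by
  classical
  intro V J Q C _ _ _ _ _ _ _ κ L N r b hN hW U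
  obtain ⟨A, hA⟩ : ∃ A : Finset Q, A = univ.filter fun i =>
    ((U.filter fun v => L v i).image κ).card ≤ r i := ⟨_, rfl⟩
  obtain ⟨T, hT⟩ : ∃ T : Finset J, T = U.image κ := ⟨_, rfl⟩
  rw [← hT]
  have h1 := (h J (fun j => wf κ L j A) N (fun j => (wf_le κ L j A).trans hN)).1 T
  have h2 := hW A T.card (Finset.card_le_univ _)
  have h3 : U.card ≤ ∑ j ∈ T, (wf κ L j A +
      (A.filter fun i => ∃ v ∈ U, κ v = j ∧ L v i = true).card) := by
    have h4 : U.card = ∑ j ∈ T, (U.filter fun v => κ v = j).card := by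
      rw [hT]
      exact Finset.card_eq_sum_card_image κ U
    rw [h4]
    exact Finset.sum_le_sum fun j _ => one κ L j A U
  have h5 : ∑ j ∈ T, (A.filter fun i => ∃ v ∈ U, κ v = j ∧ L v i = true).card =
      ∑ i ∈ A, ((U.filter fun v => L v i).image κ).card := by
    have h6 : ∀ j ∈ T, (A.filter fun i => ∃ v ∈ U, κ v = j ∧ L v i = true).card =
        ∑ i ∈ A, if (∃ v ∈ U, κ v = j ∧ L v i = true) then 1 else 0 := by
      intro j _
      rw [Finset.card_filter]
    rw [Finset.sum_congr rfl h6, Finset.sum_comm]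
    refine Finset.sum_congr rfl fun i _ => ?_
    rw [← Finset.card_filter]
    congr 1
    ext j
    rw [Finset.mem_filter, Finset.mem_image, hT, Finset.mem_image]
    constructor
    · rintro ⟨-, v, hv, hj, hL⟩
      exact ⟨v, Finset.mem_filter.mpr ⟨hv, hL⟩, hj⟩
    · rintro ⟨v, hv, hj⟩
      rw [Finset.mem_filter] at hv
      exact ⟨⟨v, hv.1, hj⟩, v, hv.1, hj, hv.2⟩
  rw [Finset.sum_add_distrib, h5] at h3
  have h7 : ∑ i, min (r i) ((U.filter fun v => L v i).image κ).card =
      ∑ i ∈ A, ((U.filter fun v => L v i).image κ).card + ∑ i ∈ Aᶜ, r i := by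
    rw [← Finset.sum_add_sum_compl A]
    congr 1
    · refine Finset.sum_congr rfl fun i hi => ?_
      rw [hA, Finset.mem_filter] at hi
      exact min_eq_right hi.2
    · refine Finset.sum_congr rfl fun i hi => ?_
      rw [Finset.mem_compl, hA, Finset.mem_filter] at hi
      push Not at hi
      exact min_eq_left (hi (mem_univ _)).le
  rw [h7]
  unfold Wf at h2
  omega

end Pool.Agent.BCP8
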