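import Pool.Agent.BCP8.Stm

/-!
# Project BCP, piece CUT2 (helper75): from a colouring to unviolated cuts
-/

set_option autoImplicit false

namespace Pool.Agent.BCP8

open Finset

theorem t_CUT2 (h : S_TOP) : S_CUT2 := by
  intro V J Q C _ _ _ _ _ _ _ _ κ L N r b f hN hL hinj hr hb A m hm
  have h1 : ∀ j, wf κ L j A ≤
      (univ.filter fun v => κ v = j ∧ ¬ ∃ i ∈ A, f v = Sum.inl i).card := by
    intro j
    unfold wf
    refine Finset.sup_le fun Z hZ => ?_
    rw [tsub_le_iff_right]
    have h3 : (univ.filter fun v => κ v = j ∧ ∃ i ∈ Z, f v = Sum.inl i).card ≤ Z.card := by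
      refine le_trans (Finset.card_le_card_of_injOn f (t := Z.image (Sum.inl : Q → Q ⊕ C)) ?_ ?_)
        Finset.card_image_le
      · intro v hv
        have hv' := (Finset.mem_filter.1 (Finset.mem_coe.1 hv)).2
        obtain ⟨i, hi, hfi⟩ := hv'.2
        rw [Finset.mem_coe, Finset.mem_image]
        exact ⟨i, hi, hfi.symm⟩
      · intro v hv w hw hvw
        have hv' := (Finset.mem_filter.1 (Finset.mem_coe.1 hv)).2
        have hw' := (Finset.mem_filter.1 (Finset.mem_coe.1 hw)).2
        by_contra hne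
        exact hinj v w hne (hv'.1.trans hw'.1.symm) hvw
    refine le_trans (Finset.card_le_card (t :=
      (univ.filter fun v => κ v = j ∧ ¬ ∃ i ∈ A, f v = Sum.inl i) ∪
      (univ.filter fun v => κ v = j ∧ ∃ i ∈ Z, f v = Sum.inl i)) ?_) ?_
    · intro v hv
      have hv' := (Finset.mem_filter.1 hv).2
      rw [Finset.mem_union]
      by_cases hi : ∃ i ∈ A, f v = Sum.inl i
      · right
        obtain ⟨i, hi, hfi⟩ := hi
        exact Finset.mem_filter.2 ⟨Finset.mem_univ _, hv'.1, i, hv'.2 i hi (hL v i hfi), hfi⟩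
      · left
        exact Finset.mem_filter.2 ⟨Finset.mem_univ _, hv'.1, hi⟩
    · exact (Finset.card_union_le _ _).trans (Nat.add_le_add_left h3 _)
  obtain ⟨T, hT1, hT2⟩ := (h J (fun j => wf κ L j A) N (fun j => (h1 j).trans
    ((Finset.card_le_univ _).trans hN))).2 m hm
  have h5 : Wf κ L N m A = ∑ j ∈ T, wf κ L j A := hT2.symm
  rw [h5]
  have h6 : ∀ c : C, (univ.filter fun v => κ v ∈ T ∧ f v = Sum.inr c).card ≤ min (b c) m := by
    intro c
    refine le_min ((Finset.card_le_card fun v hv => ?_).trans (hb c)) ?_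
    · have hv' := (Finset.mem_filter.1 hv).2
      exact Finset.mem_filter.2 ⟨Finset.mem_univ _, hv'.2⟩
    · rw [← hT1]
      refine Finset.card_le_card_of_injOn κ ?_ ?_
      · intro v hv
        exact (Finset.mem_filter.1 (Finset.mem_coe.1 hv)).2.1
      · intro v hv w hw hvw
        have hv' := (Finset.mem_filter.1 (Finset.mem_coe.1 hv)).2
        have hw' := (Finset.mem_filter.1 (Finset.mem_coe.1 hw)).2
        by_contra hne
        exact hinj v w hne hvw (hv'.2.trans hw'.2.symm)
  have h7 : ∑ j ∈ T, (univ.filter fun v => κ v = j ∧ ¬ ∃ i ∈ A, f v = Sum.inl i).card =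
      (univ.filter fun v => κ v ∈ T ∧ ¬ ∃ i ∈ A, f v = Sum.inl i).card := by
    rw [Finset.card_eq_sum_card_fiberwise (f := κ) (t := T)
      (s := univ.filter fun v => κ v ∈ T ∧ ¬ ∃ i ∈ A, f v = Sum.inl i)
      (fun v hv => (Finset.mem_filter.1 (Finset.mem_coe.1 hv)).2.1)]
    refine Finset.sum_congr rfl fun j hj => ?_
    congr 1
    ext v
    simp only [Finset.mem_filter, Finset.mem_univ, true_and]
    constructor
    · rintro ⟨h8, h9⟩
      exact ⟨⟨by rw [h8]; exact hj, h9⟩, h8⟩
    · rintro ⟨⟨h8, h9⟩, h10⟩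
      exact ⟨h10, h9⟩
  calc ∑ j ∈ T, wf κ L j A
      ≤ ∑ j ∈ T, (univ.filter fun v => κ v = j ∧ ¬ ∃ i ∈ A, f v = Sum.inl i).card :=
        Finset.sum_le_sum fun j _ => h1 j
    _ = (univ.filter fun v => κ v ∈ T ∧ ¬ ∃ i ∈ A, f v = Sum.inl i).card := h7
    _ ≤ ((Aᶜ.biUnion fun i => univ.filter fun v => f v = Sum.inl i) ∪
          (univ.biUnion fun c : C => univ.filter fun v => κ v ∈ T ∧ f v = Sum.inr c)).card := by
        refine Finset.card_le_card fun v hv => ?_
        have hv' := (Finset.mem_filter.1 hv).2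
        rw [Finset.mem_union]
        rcases hfv : f v with i | c
        · left
          rw [Finset.mem_biUnion]
          refine ⟨i, ?_, Finset.mem_filter.2 ⟨Finset.mem_univ _, hfv⟩⟩
          rw [Finset.mem_compl]
          exact fun hi => hv'.2 ⟨i, hi, hfv⟩
        · right
          rw [Finset.mem_biUnion]
          exact ⟨c, Finset.mem_univ _, Finset.mem_filter.2 ⟨Finset.mem_univ _, hv'.1, hfv⟩⟩
    _ ≤ ∑ i ∈ Aᶜ, (univ.filter fun v => f v = Sum.inl i).card +
          ∑ c, (univ.filter fun v => κ v ∈ T ∧ f v = Sum.inr c).card :=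
        (Finset.card_union_le _ _).trans (Nat.add_le_add Finset.card_biUnion_le
          Finset.card_biUnion_le)
    _ ≤ ∑ i ∈ Aᶜ, r i + ∑ c, min (b c) m :=
        Nat.add_le_add (Finset.sum_le_sum fun i _ => hr i) (Finset.sum_le_sum fun c _ => h6 c)

end Pool.Agent.BCP8
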