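import Pool.Agent.BCP8.Stm

/-!
# Project BCP, piece DIG: digits
-/

set_option autoImplicit false

namespace Pool.Agent.BCP8

theorem t_DIG : S_DIG := by
  intro b N d hb
  induction N with
  | zero =>
    intro _
    exact ⟨0, by simp, fun j hj => absurd hj (Nat.not_lt_zero j)⟩
  | succ N ih =>
    intro hd
    obtain ⟨t, ht, h⟩ := ih fun j hj => hd j (hj.trans (Nat.lt_succ_self N))
    have hN := hd N (Nat.lt_succ_self N)
    refine ⟨t + d N * b ^ N, ?_, fun j hj => ?_⟩
    · calc t + d N * b ^ N < b ^ N + d N * b ^ N := Nat.add_lt_add_right ht _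
        _ = (d N + 1) * b ^ N := by ring
        _ ≤ b * b ^ N := Nat.mul_le_mul_right _ hN
        _ = b ^ (N + 1) := by ring
    · rcases Nat.lt_succ_iff_lt_or_eq.1 hj with h1 | rfl
      · obtain ⟨e, rfl⟩ : ∃ e, N = j + 1 + e := ⟨N - (j + 1), by omega⟩
        have h2 : t + d (j + 1 + e) * b ^ (j + 1 + e) = t + b ^ j * (b * (d (j + 1 + e) * b ^ e)) := by
          ring
        rw [h2, Nat.add_mul_div_left _ _ (pow_pos hb j), Nat.add_mul_mod_self_left]
        exact h j h1
      · rw [Nat.add_mul_div_right _ _ (pow_pos hb j), Nat.div_eq_of_lt ht, zero_add,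
          Nat.mod_eq_of_lt hN]

end Pool.Agent.BCP8
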