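import Pool.Agent.Lib.lead.CXNat
import Pool.Agent.Lib.lead.CXGraph

/-!
# Project BCP (helper8), MP_572c27_lc: budgeted colouring is FPT for the cluster vertex deletion number

Definitions: the problem, fixed-parameter tractability, the algorithm.
-/

set_option autoImplicit false

namespace Pool.Agent.BCP8

open Pool.Agent.Lib.CX

/-! ## The problem -/

/-- `G` has a proper colouring with the colours `0, …, c - 1`, `c` the length of `B`, in which colour `i` is
used at most `B i` times. -/
def Budgeted {V : Type} [Fintype V] [DecidableEq V] (G : SimpleGraph V) (B : List ℕ) : Prop :=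
  ∃ f : V → Fin B.length, (∀ u v, G.Adj u v → f u ≠ f v) ∧
    ∀ i, (Finset.univ.filter fun v => f v = i).card ≤ B.get i

/-- the graph induced on the complement of `S` is a disjoint union of cliques: adjacency or equality is
transitive there -/
def IsCluster {V : Type} (G : SimpleGraph V) (S : Finset V) : Prop :=
  ∀ u v w, u ∉ S → v ∉ S → w ∉ S → G.Adj u v → G.Adj v w → u = w ∨ G.Adj u w

/-- the cluster vertex deletion number is at most `k` -/
def CvdLe {V : Type} (G : SimpleGraph V) (k : ℕ) : Prop := ∃ S : Finset V, S.card ≤ k ∧ IsCluster G S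

/-- fixed-parameter tractable: decided by a program in at most `f k * (size x + 1) ^ c` steps -/
def FPT {α : Type} [Enc α] (A : ℕ → α → Prop) : Prop :=
  ∃ (p : Prog) (f : ℕ → ℕ) (c : ℕ), Computable f ∧ ∀ (k : ℕ) (x : α), ∃ (n m : ℕ) (b : Bool),
    n ≤ f k * (size x + 1) ^ c ∧ Exec p (io (enc (k, x))) (io (enc b)) n m ∧ (b = true ↔ A k x)

/-! ## The algorithm -/

/-- padding, parameter, graph, sorted budgets, guess -/
abbrev Env := List Unit × ℕ × Gr × List ℕ × ℕ

namespace Env

abbrev pad (E : Env) : ℕ := E.1.length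
abbrev n (E : Env) : ℕ := E.2.2.1.1.length
abbrev k (E : Env) : ℕ := min E.2.1 E.n
abbrev B (E : Env) : List ℕ := E.2.2.2.1
abbrev t (E : Env) : ℕ := E.2.2.2.2

/-- adjacency -/
def adj (E : Env) (u v : ℕ) : Bool :=
  decide (u < E.n) && decide (v < E.n) && decide (u ≠ v) &&
    (decide ((u, v) ∈ E.2.2.1.2) || decide ((v, u) ∈ E.2.2.1.2))

/-- the digits of the guess, base `k + 3` -/
def dig (E : Env) (j : ℕ) : ℕ := E.t / (E.k + 3) ^ j % (E.k + 3)

/-- an induced path with three vertices outside `T` -/
def P3 (E : Env) (T : List ℕ) : Option (ℕ × ℕ × ℕ) :=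
  (List.range E.n ×ˢ (List.range E.n ×ˢ List.range E.n)).find? fun p =>
    decide (p.1 ∉ T) && decide (p.2.1 ∉ T) && decide (p.2.2 ∉ T) && E.adj p.1 p.2.1 &&
      E.adj p.2.1 p.2.2 && decide (p.1 ≠ p.2.2) && !E.adj p.1 p.2.2

/-- one step of the search of a modulator -/
def grow (E : Env) (p : ℕ × List ℕ) : ℕ × List ℕ :=
  (p.1 + 1, ((E.P3 p.2).map fun x =>
    (if E.dig p.1 = 0 then x.1 else if E.dig p.1 = 1 then x.2.1 else x.2.2) :: p.2).getD p.2)

/-- the modulator (at most `k` vertices) -/
def S (E : Env) : List ℕ := (E.grow^[E.k] (0, [])).2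

/-- the class of a vertex of the modulator -/
def cls (E : Env) (x : ℕ) : ℕ := E.dig (E.k + E.S.idxOf x)

/-- the number of classes -/
def q (E : Env) : ℕ := min (E.dig (3 * E.k)) E.k

/-- the guessed differences of budgets -/
def e (E : Env) (i : ℕ) : ℕ := min (E.dig (2 * E.k + i)) E.k

/-- the guess is consistent -/
def ok (E : Env) : Bool :=
  (E.P3 E.S).isNone && E.S.all (fun x => decide (E.cls x < E.q)) &&
    E.S.all fun x => E.S.all fun y => !(E.adj x y && decide (E.cls x = E.cls y))

/-- number of vertices of the modulator in class `i` -/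
def s (E : Env) (i : ℕ) : ℕ := E.S.countP fun x => decide (E.cls x = i)

/-- vertex `v` can get the colour of class `i` -/
def comp (E : Env) (v i : ℕ) : Bool := E.S.all fun x => !(E.adj v x && decide (E.cls x = i))

/-- the cliques outside the modulator -/
def cl (E : Env) : List (List ℕ) :=
  ((List.range E.n).filter fun v => decide (v ∉ E.S) &&
    (List.range v).all fun u => decide (u ∈ E.S) || !E.adj u v).map fun v =>
      (List.range E.n).filter fun u => decide (u ∉ E.S) && (decide (u = v) || E.adj u v)

/-- codes of the subsets of the set of classes -/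
def subs (E : Env) : List ℕ := List.range (min (2 ^ E.q) E.pad)

/-- inclusion of coded sets -/
def le (E : Env) (Z A : ℕ) : Bool := (List.range E.q).all fun i => !Z.testBit i || A.testBit i

/-- cardinality of a coded set -/
def cd (E : Env) (Z : ℕ) : ℕ := (List.range E.q).countP fun i => Z.testBit i

/-- the number of the vertices of `K` which see from `A` only `Z` -/
def hit (E : Env) (K : List ℕ) (Z A : ℕ) : ℕ :=
  K.countP fun v => (List.range E.q).all fun i => !(E.comp v i && A.testBit i) || Z.testBit i

/-- the deficiency of the clique `K` with respect to the classes in `A` -/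
def w (E : Env) (K : List ℕ) (A : ℕ) : ℕ :=
  (List.range K.length).countP fun x => E.subs.any fun Z =>
    E.le Z A && decide (x + 1 + E.cd Z ≤ E.hit K Z A)

/-- the sum of the `m` largest deficiencies -/
def W (E : Env) (m A : ℕ) : ℕ :=
  ((List.range E.n).map fun x => min m (E.cl.countP fun K => decide (x + 1 ≤ E.w K A))).sum

/-- `∑ min(b, m)` -/
def phi (E : Env) (m : ℕ) : ℕ := (E.B.map fun b => min b m).sum

/-- the budget of class `i` in state `a` -/
def be (E : Env) (a : List ℕ) (i : ℕ) : ℕ := E.B.getD (a.getD i 0) 0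

/-- a violated cut -/
def viol (E : Env) (a : List ℕ) (m A : ℕ) : Bool :=
  decide (E.phi m + ((List.range E.q).map fun i => if A.testBit i then 0 else E.be a i - m).sum <
    E.W m A + ((List.range E.q).map fun i => if A.testBit i then min (E.be a i) m else E.s i).sum)

/-- a violated cut with `A` maximal -/
def viol' (E : Env) (a : List ℕ) (p : ℕ × ℕ) : Bool :=
  E.viol a p.1 p.2 && E.subs.all fun A' => !(E.le p.2 A' && decide (p.2 ≠ A') && E.viol a p.1 A')

/-- the structural conditions -/
def c1 (E : Env) (a : List ℕ) : Option ℕ :=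
  (List.range E.q).find? fun i => decide (E.be a i < E.s i)
def c2 (E : Env) (a : List ℕ) : Option ℕ :=
  (List.range (E.q - 1)).find? fun i => decide (a.getD (i + 1) 0 ≤ a.getD i 0) ||
    decide (E.be a (i + 1) < E.be a i + E.e i)
def c3 (E : Env) (a : List ℕ) : Option ℕ :=
  (List.range (E.q - 1)).find? fun i => decide (E.e i < E.k) &&
    decide (E.be a i + E.e i < E.be a (i + 1))
/-- a violated maximal cut -/
def c4 (E : Env) (a : List ℕ) : Option (ℕ × ℕ) :=
  (List.range (E.cl.length + 1) ×ˢ E.subs).find? (E.viol' a)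

/-- the class whose budget has to be raised -/
def nxt (E : Env) (a : List ℕ) : Option ℕ :=
  if a.any fun x => decide (E.B.length ≤ x) then none
  else if (E.c1 a).isSome then E.c1 a
  else if (E.c2 a).isSome then (E.c2 a).map fun i => i + 1
  else if (E.c3 a).isSome then E.c3 a
  else (E.c4 a).bind fun p => (List.range E.q).reverse.find? fun i => !p.2.testBit i

/-- one round -/
def rnd (E : Env) (a : List ℕ) : List ℕ :=
  ((E.nxt a).map fun i => a.set i (a.getD i 0 + 1)).getD a

/-- the state is a solution -/
def fin (E : Env) (a : List ℕ) : Bool :=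
  a.all (fun x => decide (x < E.B.length)) && (E.c1 a).isNone && (E.c2 a).isNone &&
    (E.c3 a).isNone && (E.c4 a).isNone

/-- the final state -/
def run (E : Env) : List ℕ := E.rnd^[E.q * E.B.length] (List.replicate E.q 0)

end Env

/-- the algorithm -/
def F (I : List Unit × ℕ × Gr × List ℕ) : Bool :=
  (List.range I.1.length).any fun t =>
    Env.ok (I.1, I.2.1, I.2.2.1, I.2.2.2.insertionSort (· ≤ ·), t) &&
      Env.fin (I.1, I.2.1, I.2.2.1, I.2.2.2.insertionSort (· ≤ ·), t)
        (Env.run (I.1, I.2.1, I.2.2.1, I.2.2.2.insertionSort (· ≤ ·), t))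

/-- the padding needed -/
def gg (k : ℕ) : ℕ := (k + 3) ^ (3 * k + 1)

end Pool.Agent.BCP8
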