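import Pool.Agent.BCP8.Stm

/-! Project BCP, piece FEA1 (helper61): from a final state to a colouring. -/

set_option autoImplicit false

namespace Pool.Agent.BCP8

open Pool.Agent.Lib.CX Finset

namespace FEA1

theorem adj_symm (E : Env) {u v : ℕ} (h : E.adj u v = true) : E.adj v u = true := by
  simp only [Env.adj, Bool.and_eq_true, Bool.or_eq_true, decide_eq_true_eq] at h ⊢
  obtain ⟨⟨⟨h1, h2⟩, h3⟩, h4⟩ := h
  exact ⟨⟨⟨h2, h1⟩, fun e => h3 e.symm⟩, h4.symm⟩

theorem adj_ne (E : Env) {u v : ℕ} (h : E.adj u v = true) : u ≠ v := by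
  simp only [Env.adj, Bool.and_eq_true, Bool.or_eq_true, decide_eq_true_eq] at h
  exact h.1.2

theorem ok_cls (E : Env) (h : E.ok = true) : ∀ x ∈ E.S, E.cls x < E.q := by
  simp only [Env.ok, Bool.and_eq_true, List.all_eq_true, decide_eq_true_eq] at h
  exact h.1.2

theorem ok_adj (E : Env) (h : E.ok = true) : ∀ x ∈ E.S, ∀ y ∈ E.S, E.adj x y = true →
    E.cls x ≠ E.cls y := by
  simp only [Env.ok, Bool.and_eq_true, List.all_eq_true, decide_eq_true_eq, Bool.not_eq_true',
    Bool.and_eq_false_iff, decide_eq_false_iff_not] at h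
  intro x hx y hy hxy
  rcases h.2 x hx y hy with h1 | h1
  · rw [h1] at hxy; exact absurd hxy (by simp)
  · exact h1

theorem comp_spec (E : Env) {v i : ℕ} (h : E.comp v i = true) : ∀ x ∈ E.S, E.adj v x = true →
    E.cls x ≠ i := by
  simp only [Env.comp, List.all_eq_true, Bool.not_eq_true',
    Bool.and_eq_false_iff, decide_eq_false_iff_not] at h
  intro x hx hxy
  rcases h x hx with h1 | h1
  · rw [h1] at hxy; exact absurd hxy (by simp)
  · exact h1

theorem fin_lt (E : Env) {a : List ℕ} (h : E.fin a = true) : ∀ x ∈ a, x < E.B.length := by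
  simp only [Env.fin, Bool.and_eq_true, List.all_eq_true, decide_eq_true_eq] at h
  exact h.1.1.1.1

theorem fin_c1 (E : Env) {a : List ℕ} (h : E.fin a = true) : ∀ i < E.q, E.s i ≤ E.be a i := by
  simp only [Env.fin, Bool.and_eq_true, Option.isNone_iff_eq_none, Env.c1, List.find?_eq_none,
    List.mem_range, decide_eq_true_eq, not_lt] at h
  exact h.1.1.1.2

theorem fin_c2 (E : Env) {a : List ℕ} (h : E.fin a = true) : ∀ i < E.q - 1,
    a.getD i 0 < a.getD (i + 1) 0 := by
  simp only [Env.fin, Bool.and_eq_true, Option.isNone_iff_eq_none, Env.c2, List.find?_eq_none,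
    List.mem_range, decide_eq_true_eq, Bool.or_eq_true, not_or, not_le] at h
  exact fun i hi => (h.1.1.2 i hi).1

theorem mono (E : Env) {a : List ℕ} (h : E.fin a = true) : ∀ i j, i < j → j < E.q →
    a.getD i 0 < a.getD j 0 := by
  intro i j hij hj
  induction j with
  | zero => omega
  | succ j ih =>
    rcases Nat.lt_succ_iff_lt_or_eq.1 hij with h1 | h1
    · exact (ih h1 (by omega)).trans (fin_c2 E h j (by omega))
    · subst h1; exact fin_c2 E h i (by omega)

theorem inj (E : Env) {a : List ℕ} (h : E.fin a = true) {i j : ℕ} (hi : i < E.q) (hj : j < E.q)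
    (e : a.getD i 0 = a.getD j 0) : i = j := by
  rcases lt_trichotomy i j with h1 | h1 | h1
  · have := mono E h i j h1 hj; omega
  · exact h1
  · have := mono E h j i h1 hi; omega

theorem le_of_le {q A A' : ℕ} (hA : A < 2 ^ q) (h : ∀ i < q, A.testBit i = true → A'.testBit i = true) :
    A ≤ A' := by
  have : A &&& A' = A := by
    apply Nat.eq_of_testBit_eq
    intro i
    rw [Nat.testBit_and]
    by_cases hi : i < q
    · cases h1 : A.testBit i
      · simp
      · simp [h i hi h1]
    · rw [Nat.testBit_lt_two_pow (hA.trans_le (Nat.pow_le_pow_right (by norm_num) (by omega)))]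
      simp
  rw [← this]
  exact Nat.and_le_right

/-- no cut is violated -/
theorem no_viol (E : Env) {a : List ℕ} (h : E.fin a = true) (hpad : 2 ^ E.q ≤ E.pad) (m A : ℕ)
    (hm : m ≤ E.cl.length) (hA : A < 2 ^ E.q) : E.viol a m A = false := by
  have hsubs : E.subs = List.range (2 ^ E.q) := by
    unfold Env.subs; rw [min_eq_left hpad]
  have h4 : E.c4 a = none := by
    simp only [Env.fin, Bool.and_eq_true, Option.isNone_iff_eq_none] at h
    exact h.2
  by_contra hne
  have hv : E.viol a m A = true := by simpa using hne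
  -- the largest violated one
  obtain ⟨A₁, hA₁, hmax⟩ := Finset.exists_max_image
    ((Finset.range (2 ^ E.q)).filter fun X => E.viol a m X = true) id
    ⟨A, by simp [hA, hv]⟩
  simp only [Finset.mem_filter, Finset.mem_range, id] at hA₁ hmax
  have h5 : ¬ (E.viol' a (m, A₁) = true) := by
    have h6 := List.find?_eq_none.1 h4 (m, A₁) (by
      rw [List.mem_product, List.mem_range, hsubs, List.mem_range]
      exact ⟨by omega, hA₁.1⟩)
    exact h6
  apply h5
  simp only [Env.viol', Bool.and_eq_true, List.all_eq_true, Bool.not_eq_true', hsubs,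
    List.mem_range]
  refine ⟨hA₁.2, fun A' hA' => ?_⟩
  by_contra hc
  simp only [Bool.not_eq_false, Bool.and_eq_true, decide_eq_true_eq] at hc
  obtain ⟨⟨hc1, hc2⟩, hc3⟩ := hc
  have h7 : A₁ ≤ A' := by
    refine le_of_le hA₁.1 fun i hi hb => ?_
    simp only [Env.le, List.all_eq_true, List.mem_range, Bool.or_eq_true, Bool.not_eq_true'] at hc1
    rcases hc1 i hi with h8 | h8
    · rw [h8] at hb; exact absurd hb (by simp)
    · exact h8
  have h9 := hmax A' ⟨hA', hc3⟩
  omega

theorem sum_range_list (n : ℕ) (f : ℕ → ℕ) : ((List.range n).map f).sum = ∑ i : Fin n, f i := by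
  rw [← Finset.sum_range]
  induction n with
  | zero => simp
  | succ n ih => rw [List.range_succ, List.map_append, List.sum_append, ih, Finset.sum_range_succ]; simp

/-- the positions of the colours of the classes -/
def pos (E : Env) {a : List ℕ} (hl : a.length = E.q) (h : E.fin a = true) (i : Fin E.q) :
    {c : Fin E.B.length // (c : ℕ) ∈ a} :=
  ⟨⟨a.getD i 0, by
    rw [List.getD_eq_getElem _ _ (by rw [hl]; exact i.2)]
    exact fin_lt E h _ (List.getElem_mem _)⟩, by
    show a.getD i 0 ∈ a
    rw [List.getD_eq_getElem _ _ (by rw [hl]; exact i.2)]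
    exact List.getElem_mem _⟩

theorem pos_bij (E : Env) {a : List ℕ} (hl : a.length = E.q) (h : E.fin a = true) :
    Function.Bijective (pos E hl h) := by
  constructor
  · intro i j hij
    have h1 : a.getD i 0 = a.getD j 0 := by
      have := congrArg (fun c : {c : Fin E.B.length // (c : ℕ) ∈ a} => (c.1 : ℕ)) hij
      simpa [pos] using this
    exact Fin.ext (inj E h i.2 j.2 h1)
  · rintro ⟨c, hc⟩
    obtain ⟨i, hi, hi2⟩ := List.getElem_of_mem hc
    refine ⟨⟨i, by rw [← hl]; exact hi⟩, ?_⟩
    apply Subtype.ext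
    apply Fin.ext
    show a.getD i 0 = c
    rw [List.getD_eq_getElem _ _ hi, hi2]

theorem be_get (E : Env) {a : List ℕ} (hl : a.length = E.q) (h : E.fin a = true) (i : Fin E.q) :
    E.B.get (pos E hl h i).1 = E.be a i := by
  show E.B.get (pos E hl h i).1 = E.B.getD ((pos E hl h i).1 : ℕ) 0
  rw [List.getD_eq_getElem _ _ (pos E hl h i).1.2]
  rfl

theorem phi_eq (E : Env) {a : List ℕ} (hl : a.length = E.q) (h : E.fin a = true) (m : ℕ) :
    E.phi m = ∑ i : Fin E.q, min (E.be a i) m +
      ∑ c : {c : Fin E.B.length // (c : ℕ) ∉ a}, min (E.B.get c.1) m := by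
  have h1 : E.phi m = ∑ c : Fin E.B.length, min (E.B.get c) m := by
    unfold Env.phi
    rw [← Fin.sum_univ_fun_getElem]
    rfl
  rw [h1, ← Fintype.sum_subtype_add_sum_subtype (fun c : Fin E.B.length => (c : ℕ) ∈ a)]
  congr 1
  refine (Fintype.sum_bijective (pos E hl h) (pos_bij E hl h) _ _ fun i => ?_).symm
  rw [be_get]

theorem cut_hyp (E : Env) {a : List ℕ} (hl : a.length = E.q) (h : E.fin a = true)
    (hpad : 2 ^ E.q ≤ E.pad) {κ : Rest E → Fin E.cl.length}
    (hκ : ∀ m A, E.W m A = Wf κ (fun (v : Rest E) (i : Fin E.q) => E.comp v.1 i) E.n m (dec E.q A))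
    (A : Finset (Fin E.q)) (m : ℕ) (hm : m ≤ Fintype.card (Fin E.cl.length)) :
    Wf κ (fun (v : Rest E) (i : Fin E.q) => E.comp v.1 i) E.n m A ≤
      ∑ i ∈ Aᶜ, (E.be a i - E.s i) +
        ∑ c : {c : Fin E.B.length // (c : ℕ) ∉ a}, min (E.B.get c.1) m := by
  set X := Nat.ofBits (fun i : Fin E.q => decide (i ∈ A)) with hX
  have hXlt : X < 2 ^ E.q := Nat.ofBits_lt_two_pow _
  have hbit : ∀ i : Fin E.q, X.testBit i = decide (i ∈ A) := fun i => by
    rw [hX, Nat.testBit_ofBits_lt _ _ i.2]
  have hdec : dec E.q X = A := by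
    ext i
    simp [dec, hbit]
  rw [Fintype.card_fin] at hm
  have h1 := no_viol E h hpad m X hm hXlt
  simp only [Env.viol, decide_eq_false_iff_not, not_lt] at h1
  rw [sum_range_list, sum_range_list, phi_eq E hl h, hκ, hdec] at h1
  have h2 : ∑ i ∈ Aᶜ, (E.be a i - E.s i) =
      ∑ i : Fin E.q, if i ∈ A then 0 else (E.be a i - E.s i) := by
    rw [Finset.sum_ite]
    simp only [Finset.sum_const_zero, zero_add]
    refine Finset.sum_congr ?_ fun _ _ => rfl
    ext i; simp
  have h3 : ∑ i : Fin E.q, min (E.be a i) m +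
      ∑ i : Fin E.q, (if X.testBit i then 0 else E.be a i - m) =
      ∑ i : Fin E.q, (if X.testBit i then min (E.be a i) m else E.s i) +
      ∑ i : Fin E.q, if i ∈ A then 0 else (E.be a i - E.s i) := by
    rw [← Finset.sum_add_distrib, ← Finset.sum_add_distrib]
    refine Finset.sum_congr rfl fun i _ => ?_
    rw [hbit]
    have h4 := fin_c1 E h i i.2
    by_cases hi : i ∈ A
    · simp [hi]
    · simp only [hi, decide_false, Bool.false_eq_true, if_false]
      omega
  rw [h2]
  omega

/-- the free colours -/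
abbrev Cf (E : Env) (a : List ℕ) : Type := {c : Fin E.B.length // (c : ℕ) ∉ a}

end FEA1

open FEA1 in
theorem t_FEA1 (h1 : S_HALL) (h2 : S_CUT1) (h3 : S_BR) : S_FEA1 := by
  intro E _ hok hpad a hsol
  obtain ⟨hl, hfin⟩ := hsol
  obtain ⟨κ, hκ1, hκ2⟩ := h3 E hok hpad
  let L : Rest E → Fin E.q → Bool := fun v i => E.comp v.1 i
  have hcut := h2 (Rest E) (Fin E.cl.length) (Fin E.q) (Cf E a) κ L E.n (fun i => E.be a i - E.s i)
    (fun c => E.B.get c.1) (by
      have := Fintype.card_subtype_le (fun v : Fin E.n => (v : ℕ) ∉ E.S)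
      rwa [Fintype.card_fin] at this) (fun A m hm => cut_hyp E hl hfin hpad hκ2 A m hm)
  obtain ⟨g, hg1, hg2, hg3⟩ := h1 (Rest E) (Fin E.cl.length) (Fin E.q ⊕ Cf E a) κ
    (fun v c => Sum.elim (L v) (fun _ => true) c)
    (Sum.elim (fun i => E.be a i - E.s i) (fun c => E.B.get c.1)) (by
      intro U
      rw [Fintype.sum_sum_type]
      refine (hcut U).trans (le_of_eq ?_)
      refine congrArg₂ (· + ·) rfl (Finset.sum_congr rfl fun c _ => ?_)
      have he : (U.filter fun v => (Sum.elim (L v) (fun _ => true) (Sum.inr c : Fin E.q ⊕ Cf E a)) = true) = U :=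
        Finset.filter_true_of_mem fun _ _ => rfl
      rw [he]
      rfl)
  -- the colours
  set col : Fin E.q ⊕ Cf E a → Fin E.B.length := Sum.elim (fun i => (pos E hl hfin i).1) (fun c => c.1)
    with hcol
  have hcolinj : Function.Injective col := by
    rintro (i | c) (j | d) hcd
    · have := (pos_bij E hl hfin).1 (Subtype.ext hcd)
      rw [this]
    · have h5 : ((pos E hl hfin i).1 : ℕ) = d.1 := congrArg Fin.val hcd
      exact absurd (h5 ▸ (pos E hl hfin i).2) d.2
    · have h5 : ((pos E hl hfin j).1 : ℕ) = c.1 := (congrArg Fin.val hcd).symm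
      exact absurd (h5 ▸ (pos E hl hfin j).2) c.2
    · exact congrArg Sum.inr (Subtype.ext hcd)
  have hcls := ok_cls E hok
  refine ⟨fun v => if hv : (v : ℕ) ∈ E.S then col (Sum.inl ⟨E.cls v, hcls v hv⟩)
    else col (g ⟨v, hv⟩), ?_, ?_, ?_⟩
  · intro u v huv heq
    have hvu := adj_symm E huv
    by_cases hu : (u : ℕ) ∈ E.S <;> by_cases hv : (v : ℕ) ∈ E.S
    · simp only [hu, hv, dif_pos] at heq
      have := Fin.ext_iff.1 (Sum.inl.inj (hcolinj heq))
      exact ok_adj E hok u hu v hv huv this
    · simp only [hu, hv, dif_pos, dif_neg, not_false_eq_true] at heq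
      have h5 := hcolinj heq
      have h6 := hg1 ⟨v, hv⟩
      rw [← h5] at h6
      exact comp_spec E h6 u hu hvu rfl
    · simp only [hu, hv, dif_pos, dif_neg, not_false_eq_true] at heq
      have h5 := hcolinj heq
      have h6 := hg1 ⟨u, hu⟩
      rw [h5] at h6
      exact comp_spec E h6 v hv huv rfl
    · simp only [hu, hv, dif_neg, not_false_eq_true] at heq
      have h5 := hcolinj heq
      have hne : (⟨u, hu⟩ : Rest E) ≠ ⟨v, hv⟩ := fun e => adj_ne E huv (by
        have := congrArg (fun x : Rest E => (x.1 : ℕ)) e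
        simpa using this)
      exact hg2 _ _ hne ((hκ1 _ _ hne).2 huv) h5
  · intro c
    by_cases hc : (c : ℕ) ∈ a
    · obtain ⟨i, hi⟩ := (pos_bij E hl hfin).2 ⟨c, hc⟩
      have hci : col (Sum.inl i) = c := congrArg Subtype.val hi
      have h7 : (univ.filter fun v : Fin E.n => (if hv : (v : ℕ) ∈ E.S then
          col (Sum.inl ⟨E.cls v, hcls v hv⟩) else col (g ⟨v, hv⟩)) = c) ⊆
          (univ.filter fun v : Fin E.n => (v : ℕ) ∈ E.S ∧ E.cls v = i) ∪
          (univ.filter fun v : Rest E => g v = Sum.inl i).map ⟨Subtype.val, Subtype.val_injective⟩ := by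
        intro v hv
        simp only [mem_filter, mem_univ, true_and] at hv
        rw [mem_union]
        by_cases hvS : (v : ℕ) ∈ E.S
        · left
          rw [dif_pos hvS, ← hci] at hv
          have := Fin.ext_iff.1 (Sum.inl.inj (hcolinj hv))
          simp only [mem_filter, mem_univ, true_and]
          exact ⟨hvS, this⟩
        · right
          rw [dif_neg hvS, ← hci] at hv
          rw [Finset.mem_map]
          exact ⟨⟨v, hvS⟩, by simpa using hcolinj hv, rfl⟩
      refine (card_le_card h7).trans ((card_union_le _ _).trans ?_)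
      rw [card_map]
      have h8 := hg3 (Sum.inl i)
      simp only [Sum.elim_inl] at h8
      have h9 : (univ.filter fun v : Fin E.n => (v : ℕ) ∈ E.S ∧ E.cls v = i).card ≤ E.s i := by
        have h10 : ((univ.filter fun v : Fin E.n => (v : ℕ) ∈ E.S ∧ E.cls v = i).map
            Fin.valEmbedding) ⊆ (E.S.filter fun x => decide (E.cls x = i)).toFinset := by
          intro x hx
          rw [Finset.mem_map] at hx
          obtain ⟨v, hv, rfl⟩ := hx
          simp only [mem_filter, mem_univ, true_and] at hv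
          simp only [List.mem_toFinset, List.mem_filter, decide_eq_true_eq, Fin.valEmbedding_apply]
          exact hv
        have h11 := card_le_card h10
        rw [card_map] at h11
        refine h11.trans ((List.toFinset_card_le _).trans ?_)
        rw [← List.countP_eq_length_filter]
        exact le_rfl
      have h12 := fin_c1 E hfin i i.2
      have h13 : E.B.get c = E.be a i := by rw [← be_get E hl hfin i, hi]
      rw [h13]
      omega
    · have h7 : (univ.filter fun v : Fin E.n => (if hv : (v : ℕ) ∈ E.S then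
          col (Sum.inl ⟨E.cls v, hcls v hv⟩) else col (g ⟨v, hv⟩)) = c) ⊆
          (univ.filter fun v : Rest E => g v = Sum.inr ⟨c, hc⟩).map
            ⟨Subtype.val, Subtype.val_injective⟩ := by
        intro v hv
        simp only [mem_filter, mem_univ, true_and] at hv
        have hcc : col (Sum.inr ⟨c, hc⟩) = c := rfl
        by_cases hvS : (v : ℕ) ∈ E.S
        · rw [dif_pos hvS] at hv
          have h14 := hcolinj (hv.trans hcc.symm)
          exact absurd h14 (by simp)
        · rw [dif_neg hvS] at hv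
          rw [Finset.mem_map]
          exact ⟨⟨v, hvS⟩, by simpa using hcolinj (hv.trans hcc.symm), rfl⟩
      refine (card_le_card h7).trans ?_
      rw [card_map]
      exact hg3 (Sum.inr ⟨c, hc⟩)
  · intro x hx
    show ((if hv : (x : ℕ) ∈ E.S then col (Sum.inl ⟨E.cls x, hcls x hv⟩)
      else col (g ⟨x, hv⟩) : Fin E.B.length) : ℕ) = a.getD (E.cls x) 0
    rw [dif_pos hx]
    rfl

end Pool.Agent.BCP8
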