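import Pool.Agent.BCP8.Stm

/-! # Project BCP, piece FEA2 (helper98) -/

set_option autoImplicit false

namespace Pool.Agent.BCP8

open Pool.Agent.Lib.CX Finset

namespace FEA2

theorem list_range_sum (h : ℕ → ℕ) (q : ℕ) :
    ((List.range q).map h).sum = ∑ i : Fin q, h i := by
  induction q with
  | zero => simp
  | succ q ih =>
    rw [List.range_succ, List.map_append, List.sum_append, ih, Fin.sum_univ_castSucc]
    simp

variable (E : Env) (a : List ℕ)

/-- the free colours -/
abbrev Fr (E : Env) (a : List ℕ) : Type := {c : Fin E.B.length // (c : ℕ) ∉ a}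

theorem idx_lt {a : List ℕ} {x : ℕ} (h : x ∈ a) : a.idxOf x < a.length :=
  List.idxOf_lt_length_of_mem h

open Classical in
/-- the kind of a colour -/
noncomputable def g (E : Env) (a : List ℕ) (ha : a.length = E.q) (c : Fin E.B.length) :
    Fin E.q ⊕ Fr E a :=
  if h : (c : ℕ) ∈ a then Sum.inl ⟨a.idxOf (c : ℕ), ha ▸ idx_lt h⟩ else Sum.inr ⟨c, h⟩

theorem g_inl {E : Env} {a : List ℕ} (ha : a.length = E.q) (c : Fin E.B.length) (i : Fin E.q)
    (h : g E a ha c = Sum.inl i) : (c : ℕ) = a.getD i 0 := by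
  unfold g at h
  split_ifs at h with h1
  have h2 := Sum.inl.inj h
  rw [← h2]
  have h3 : a.idxOf (c : ℕ) < a.length := idx_lt h1
  rw [List.getD_eq_getElem _ _ h3]
  exact (List.getElem_idxOf h3).symm

theorem g_inr {E : Env} {a : List ℕ} (ha : a.length = E.q) (c : Fin E.B.length) (d : Fr E a)
    (h : g E a ha c = Sum.inr d) : c = d.1 := by
  unfold g at h
  split_ifs at h with h1
  have h2 := Sum.inr.inj h
  rw [← h2]

theorem g_inj {E : Env} {a : List ℕ} (ha : a.length = E.q) : Function.Injective (g E a ha) := by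
  intro c d h
  rcases h1 : g E a ha c with i | e
  · have h2 := g_inl ha c i h1
    rw [h] at h1
    have h3 := g_inl ha d i h1
    exact Fin.ext (h2.trans h3.symm)
  · have h2 := g_inr ha c e h1
    rw [h] at h1
    have h3 := g_inr ha d e h1
    exact h2.trans h3.symm

theorem getD_mem {a : List ℕ} {i : ℕ} (h : i < a.length) : a.getD i 0 ∈ a := by
  rw [List.getD_eq_getElem _ _ h]
  exact List.getElem_mem h

theorem g_col {E : Env} {a : List ℕ} (ha : a.length = E.q) (hn : a.Nodup) (i : Fin E.q)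
    (c : Fin E.B.length) (hc : (c : ℕ) = a.getD i 0) : g E a ha c = Sum.inl i := by
  have hi : (i : ℕ) < a.length := by rw [ha]; exact i.2
  have h1 : (c : ℕ) ∈ a := by rw [hc]; exact getD_mem hi
  unfold g
  rw [dif_pos h1]
  congr 1
  apply Fin.ext
  show a.idxOf (c : ℕ) = i
  rw [hc, List.getD_eq_getElem _ _ hi]
  exact List.Nodup.idxOf_getElem hn i hi

theorem g_surj {E : Env} {a : List ℕ} (ha : a.length = E.q) (hn : a.Nodup)
    (hB : ∀ x ∈ a, x < E.B.length) : Function.Surjective (g E a ha) := by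
  rintro (i | d)
  · have hi : (i : ℕ) < a.length := by rw [ha]; exact i.2
    exact ⟨⟨a.getD i 0, hB _ (getD_mem hi)⟩, g_col ha hn i _ rfl⟩
  · refine ⟨d.1, ?_⟩
    unfold g
    rw [dif_neg d.2]

theorem s_card (E : Env) (hS : E.S.Nodup) (hn : ∀ x ∈ E.S, x < E.n) (i : ℕ) :
    E.s i = (univ.filter fun v : Fin E.n => (v : ℕ) ∈ E.S ∧ E.cls v = i).card := by
  unfold Env.s
  rw [List.countP_eq_length_filter, ← List.toFinset_card_of_nodup (hS.filter _)]
  rw [← Finset.card_map Fin.valEmbedding]
  congr 1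
  ext x
  simp only [List.mem_toFinset, List.mem_filter, decide_eq_true_eq, Finset.mem_map,
    Finset.mem_filter, Finset.mem_univ, true_and, Fin.valEmbedding_apply]
  constructor
  · rintro ⟨h1, h2⟩
    exact ⟨⟨x, hn x h1⟩, ⟨h1, h2⟩, rfl⟩
  · rintro ⟨v, ⟨h1, h2⟩, rfl⟩
    exact ⟨h1, h2⟩

end FEA2

open FEA2 in
theorem t_FEA2 (h1 : S_CUT2) (h2 : S_BR) (h3 : S_MODL) : S_FEA2 := by
  classical
  intro E hok hpad a ha hnd hB ⟨f, hf1, hf2, hf3⟩
  obtain ⟨hSn, -, hSlt, -⟩ := h3 E
  obtain ⟨κ, hκ1, hκ2⟩ := h2 E hok hpad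
  -- the colour of a class
  have hcol : ∀ i : Fin E.q, ∃ c : Fin E.B.length, (c : ℕ) = a.getD i 0 := fun i =>
    ⟨⟨a.getD i 0, hB _ (getD_mem (by rw [ha]; exact i.2))⟩, rfl⟩
  choose col hcol using hcol
  have hbe : ∀ i : Fin E.q, E.B.get (col i) = E.be a i := by
    intro i
    unfold Env.be
    rw [← hcol i, List.getD_eq_getElem _ _ (col i).2]
    rfl
  set f' : Rest E → Fin E.q ⊕ Fr E a := fun v => g E a ha (f v.1) with hf'
  -- the key count
  have hcount : ∀ i : Fin E.q,
      (univ.filter fun v : Rest E => f' v = Sum.inl i).card + E.s i ≤ E.be a i := by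
    intro i
    rw [s_card E hSn hSlt i, ← hbe i]
    refine le_trans ?_ (hf2 (col i))
    rw [← Finset.card_map (Function.Embedding.subtype _), ← Finset.card_union_of_disjoint]
    · refine Finset.card_le_card ?_
      intro v hv
      rw [Finset.mem_union, Finset.mem_map] at hv
      rw [Finset.mem_filter]
      refine ⟨Finset.mem_univ _, ?_⟩
      apply Fin.ext
      rw [hcol i]
      rcases hv with ⟨w, hw, rfl⟩ | hv
      · exact g_inl ha _ i (Finset.mem_filter.1 hw).2
      · have hv2 := (Finset.mem_filter.1 hv).2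
        rw [hf3 v hv2.1, hv2.2]
    · rw [Finset.disjoint_left]
      intro v hv hv'
      rw [Finset.mem_map] at hv
      obtain ⟨w, -, rfl⟩ := hv
      exact w.2 (Finset.mem_filter.1 hv').2.1
  have hs : ∀ i : Fin E.q, E.s i ≤ E.be a i := fun i => le_trans (Nat.le_add_left _ _) (hcount i)
  refine ⟨fun i hi => hs ⟨i, hi⟩, ?_⟩
  unfold Env.c4
  rw [List.find?_eq_none]
  rintro ⟨m, A⟩ hmA hv
  have hm : m ≤ E.cl.length := by
    have h4 := (List.mem_product.1 hmA).1
    rw [List.mem_range] at h4
    omega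
  unfold Env.viol' at hv
  rw [Bool.and_eq_true] at hv
  have hv1 := hv.1
  simp only [Env.viol, decide_eq_true_eq] at hv1
  have h4 := h1 (Rest E) (Fin E.cl.length) (Fin E.q) (Fr E a) κ
    (fun (v : Rest E) (i : Fin E.q) => E.comp v.1 i) E.n (fun i => E.be a i - E.s i)
    (fun c => E.B.get c.1) f' (by
      refine (Fintype.card_subtype_le _).trans ?_
      rw [Fintype.card_fin])
    (by
      intro v i hvi
      have h5 : (f v.1 : ℕ) = a.getD i 0 := g_inl ha _ i hvi
      unfold Env.comp
      rw [List.all_eq_true]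
      intro x hx
      rw [Bool.not_eq_true', Bool.and_eq_false_iff]
      by_contra hcon
      rw [not_or, Bool.not_eq_false, Bool.not_eq_false, decide_eq_true_eq] at hcon
      have hxn := hSlt x hx
      refine hf1 v.1 ⟨x, hxn⟩ hcon.1 ?_
      apply Fin.ext
      rw [hf3 ⟨x, hxn⟩ hx, h5]
      show a.getD i 0 = a.getD (E.cls x) 0
      rw [hcon.2])
    (by
      intro v w hvw hκ he
      have h5 := (hκ1 v w hvw).1 hκ
      exact hf1 v.1 w.1 h5 (g_inj ha he))
    (fun i => by
      have := hcount i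
      show _ ≤ E.be a i - E.s i
      omega)
    (by
      intro c
      refine le_trans ?_ (hf2 c.1)
      rw [← Finset.card_map (Function.Embedding.subtype _)]
      refine Finset.card_le_card ?_
      intro v hv
      rw [Finset.mem_map] at hv
      obtain ⟨w, hw, rfl⟩ := hv
      rw [Finset.mem_filter]
      exact ⟨Finset.mem_univ _, g_inr ha _ c (Finset.mem_filter.1 hw).2⟩)
    (dec E.q A) m (by rw [Fintype.card_fin]; exact hm)
  rw [← hκ2 m A] at h4
  -- `phi`
  have hphi : E.phi m = ∑ i : Fin E.q, min (E.be a i) m + ∑ c : Fr E a, min (E.B.get c.1) m := by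
    unfold Env.phi
    rw [← Fin.sum_univ_fun_getElem]
    have h5 := Function.Bijective.sum_comp (e := g E a ha) ⟨g_inj ha, g_surj ha hnd hB⟩
      (fun y => Sum.elim (fun i : Fin E.q => min (E.be a i) m)
        (fun c : Fr E a => min (E.B.get c.1) m) y)
    rw [Fintype.sum_sum_type] at h5
    simp only [Sum.elim_inl, Sum.elim_inr] at h5
    rw [← h5]
    refine Finset.sum_congr rfl fun c _ => ?_
    rcases h6 : g E a ha c with i | d
    · simp only [Sum.elim_inl]
      have h7 : c = col i := Fin.ext ((g_inl ha c i h6).trans (hcol i).symm)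
      rw [← hbe i, ← h7]
      rfl
    · simp only [Sum.elim_inr]
      rw [← g_inr ha c d h6]
      rfl
  have hcompl : ∑ i ∈ (dec E.q A)ᶜ, (E.be a i - E.s i) =
      ∑ i : Fin E.q, if A.testBit i = true then 0 else (E.be a i - E.s i) := by
    unfold dec
    rw [Finset.compl_filter, Finset.sum_filter]
    refine Finset.sum_congr rfl fun i _ => ?_
    by_cases hb : A.testBit i = true
    · rw [if_neg (not_not.2 hb), if_pos hb]
    · rw [if_pos hb, if_neg hb]
  rw [hcompl] at h4
  rw [list_range_sum, list_range_sum, hphi] at hv1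
  have hterm : ∑ i : Fin E.q, (if A.testBit i = true then min (E.be a i) m else E.s i) +
      (∑ i : Fin E.q, if A.testBit i = true then 0 else (E.be a i - E.s i)) ≤
      (∑ i : Fin E.q, if A.testBit i = true then 0 else E.be a i - m) +
        ∑ i : Fin E.q, min (E.be a i) m := by
    rw [← Finset.sum_add_distrib, ← Finset.sum_add_distrib]
    refine Finset.sum_le_sum fun i _ => ?_
    have h8 := hs i
    split_ifs
    · omega
    · omega
  omega

end Pool.Agent.BCP8
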