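import Pool.Agent.BCP8.Stm

/-! Piece FPTP of project BCP (helper8): padding gives fixed-parameter tractability. -/

set_option autoImplicit false

namespace Pool.Agent.BCP8

open Pool.Agent.Lib.CX Finset

namespace FPTP

section
variable {α : Type} [Enc α]

def J (k : ℕ) : ℕ := (k + 3) * (3 * k + 1)

def g (s : ℕ × List Unit × ℕ × α) : ℕ × List Unit × ℕ × α := (s.1 - 1, s.2.1 ++ s.2.1, s.2.2)
def c (s : ℕ × List Unit × ℕ × α) : Bool := decide (0 < s.1)
def ini (p : ℕ × α) : ℕ × List Unit × ℕ × α := (J p.1, [()], p)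

theorem g_PT : PT (g (α := α)) := by unfold g; fun_prop
theorem c_PT : PT (c (α := α)) := by unfold c; fun_prop
theorem ini_PT : PT (ini (α := α)) := by unfold ini J; fun_prop

omit [Enc α] in
theorem iter : ∀ (j i m : ℕ) (r : ℕ × α),
    g^[j] (i, List.replicate m (), r) = (i - j, List.replicate (2 ^ j * m) (), r)
  | 0, i, m, r => by simp
  | j + 1, i, m, r => by
    have h1 : g (i, List.replicate m (), r) = (i - 1, List.replicate (m + m) (), r) := by
      simp [g]
    rw [Function.iterate_succ_apply, h1, iter j (i - 1) (m + m) r]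
    have h2 : i - 1 - j = i - (j + 1) := by omega
    have h3 : 2 ^ j * (m + m) = 2 ^ (j + 1) * m := by ring
    rw [h2, h3]

theorem size_rep (m : ℕ) : size (List.replicate m ()) = 3 * m + 2 := by
  induction m with
  | zero => simp
  | succ m ih =>
    rw [List.replicate_succ, size_cons, ih, size_unit]
    ring

def FF (k : ℕ) : ℕ := 3 * J k + 3 * 2 ^ J k + 3 * k + 9

theorem size_iter (j k : ℕ) (x : α) (hj : j ≤ J k) : size (g^[j] (ini (k, x))) ≤ FF k + size x := by
  have h0 : ini (k, x) = (J k, List.replicate 1 (), (k, x)) := rfl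
  rw [h0, iter]
  simp only [size_pair, size_rep]
  have h1 := size_nat_le (J k - j)
  have h2 := size_nat_le k
  have h3 : 2 ^ j ≤ 2 ^ J k := Nat.pow_le_pow_right (by norm_num) hj
  unfold FF
  omega

theorem gg_le (k : ℕ) : gg k ≤ 2 ^ J k := by
  unfold gg J
  rw [pow_mul]
  exact Nat.pow_le_pow_left (le_of_lt Nat.lt_two_pow_self) _

theorem poly (Q : Polynomial ℕ) : ∃ a c : ℕ, ∀ n, Q.eval n ≤ a * (n + 1) ^ c := by
  induction Q using Polynomial.induction_on' with
  | add p q hp hq =>
    obtain ⟨a, c, h⟩ := hp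
    obtain ⟨b, d, h'⟩ := hq
    refine ⟨a + b, c + d, fun n => ?_⟩
    rw [Polynomial.eval_add, add_mul]
    have h1 : (n + 1) ^ c ≤ (n + 1) ^ (c + d) := Nat.pow_le_pow_right (by omega) (by omega)
    have h2 : (n + 1) ^ d ≤ (n + 1) ^ (c + d) := Nat.pow_le_pow_right (by omega) (by omega)
    exact Nat.add_le_add ((h n).trans (Nat.mul_le_mul_left _ h1)) ((h' n).trans (Nat.mul_le_mul_left _ h2))
  | monomial n a =>
    refine ⟨a, n, fun x => ?_⟩
    rw [Polynomial.eval_monomial]
    exact Nat.mul_le_mul_left _ (Nat.pow_le_pow_left (by omega) _)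

theorem prim_pow {β : Type} [Primcodable β] {u v : β → ℕ} (hu : Primrec u) (hv : Primrec v) :
    Primrec fun b => u b ^ v b := by
  have h : Primrec₂ fun (b : β) (p : ℕ × ℕ) => p.2 * u b :=
    Primrec.nat_mul.comp (Primrec.snd.comp Primrec.snd) (hu.comp Primrec.fst)
  refine (Primrec.nat_rec' hv (Primrec.const 1) h).of_eq fun b => ?_
  induction v b with
  | zero => simp
  | succ n ih => simp only [pow_succ, ← ih]

theorem FF_prim : Primrec FF := by
  have hJ : Primrec J := Primrec.nat_mul.comp (Primrec.nat_add.comp Primrec.id (Primrec.const 3))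
    (Primrec.nat_add.comp (Primrec.nat_mul.comp (Primrec.const 3) Primrec.id) (Primrec.const 1))
  exact Primrec.nat_add.comp (Primrec.nat_add.comp (Primrec.nat_add.comp (Primrec.nat_mul.comp (Primrec.const 3) hJ)
    (Primrec.nat_mul.comp (Primrec.const 3) (prim_pow (Primrec.const 2) hJ)))
    (Primrec.nat_mul.comp (Primrec.const 3) Primrec.id)) (Primrec.const 9)

end

end FPTP

open FPTP in
theorem t_FPTP : S_FPTP := by
  intro α _ H A hH hA
  obtain ⟨p, q, hq⟩ := (c_PT (α := α)).pair ((c_PT (α := α)).cond (g_PT (α := α)) PT.id)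
  obtain ⟨p0, N0, ⟨q0, hN0⟩, h0⟩ := PT_iff.1 (ini_PT (α := α))
  have ho : PT (fun s : ℕ × List Unit × ℕ × α => H s.2) := hH.comp PT.snd'
  obtain ⟨p1, N1, ⟨q1, hN1⟩, h1⟩ := PT_iff.1 ho
  obtain ⟨a, d, had⟩ := poly (q0 + (Polynomial.X + 1) * (q + 13) + 20 * Polynomial.X + q1 + 20)
  refine ⟨.seq p0 (.seq preP (.seq (.loop 0 (bodyP p)) (.seq postP p1))), fun k => a * (FF k + 1) ^ d, d, ?_, ?_⟩
  · exact (Primrec.nat_mul.comp (Primrec.const a)
      (prim_pow (Primrec.nat_add.comp FF_prim (Primrec.const 1)) (Primrec.const d))).to_comp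
  · intro k x
    have hfin : g^[J k] (ini (k, x)) = (0, List.replicate (2 ^ J k * 1) (), (k, x)) := by
      have h0 : ini (k, x) = (J k, List.replicate 1 (), (k, x)) := rfl
      rw [h0, iter, Nat.sub_self]
    obtain ⟨n, hn, e⟩ := loop_exec (p := p) (N := fun s => q.eval (size s)) (B := q.eval (FF k + size x))
      (H := FF k + size x + 1) (by omega)
      (fun s => by obtain ⟨n, m, hn, e⟩ := hq s; exact ⟨n, hn, m, by simpa [io_eq] using e⟩) (J k) (ini (k, x))
      (by
        intro j hj
        have h0 : ini (k, x) = (J k, List.replicate 1 (), (k, x)) := rfl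
        rw [h0, iter]
        simp only [FPTP.c, decide_eq_true_eq]
        omega)
      (by rw [hfin]; rfl)
      (fun j hj => ⟨eval_mono q (size_iter j k x hj), (size_iter j k x hj).trans (by omega)⟩)
    have e' : X _ _ _ n := ⟨n, le_rfl, _, e⟩
    have l1 := size_iter 0 k x (by omega)
    have l2 := size_iter (J k) k x le_rfl
    have hr := (h0 (k, x)).seq ((X.pre _).seq (e'.seq ((X.post _).seq (h1 (g^[J k] (ini (k, x)))))))
    obtain ⟨n', hn', m', E⟩ := hr
    refine ⟨n', m', H (g^[J k] (ini (k, x))).2, ?_, by simpa [io_eq] using E, ?_⟩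
    · refine hn'.trans ?_
      have t0 : N0 (k, x) ≤ q0.eval (FF k + size x) := (hN0 _).trans (eval_mono q0 (by
        rw [size_pair]
        have := size_nat_le k
        unfold FF
        omega))
      have t1 : N1 (g^[J k] (ini (k, x))) ≤ q1.eval (FF k + size x) := (hN1 _).trans (eval_mono q1 l2)
      have t2 : (J k + 1) * (q.eval (FF k + size x) + 13) ≤ (FF k + size x + 1) * (q.eval (FF k + size x) + 13) :=
        Nat.mul_le_mul_right _ (by unfold FF; omega)
      have t3 := had (FF k + size x)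
      have t4 : a * (FF k + size x + 1) ^ d ≤ a * (FF k + 1) ^ d * (size x + 1) ^ d := by
        rw [mul_assoc, ← mul_pow]
        exact Nat.mul_le_mul_left _ (Nat.pow_le_pow_left (by nlinarith) _)
      simp only [Polynomial.eval_add, Polynomial.eval_mul, Polynomial.eval_X, Polynomial.eval_one,
        Polynomial.eval_ofNat] at t3
      simp only [size, Function.iterate_zero, _root_.id] at l1 l2 t0 t1 t2 t3 t4 hn ⊢
      omega
    · rw [hfin]
      exact hA _ k x ((gg_le k).trans (by simp))

end Pool.Agent.BCP8
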