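import Pool.Agent.BCP8.Stm

/-!
# Project BCP, piece GUE (helper55): the right guess
-/

set_option autoImplicit false

namespace Pool.Agent.BCP8

open Pool.Agent.Lib.CX Finset

namespace GUEx

/-- the search of the modulator uses only the digits below `k` -/
theorem S_eq (pad : List Unit) (k : ℕ) (G : Gr) (B : List ℕ) (t t' : ℕ)
    (h : ∀ j < min k G.n, Env.dig (pad, k, G, B, t) j = Env.dig (pad, k, G, B, t') j) :
    Env.S (pad, k, G, B, t) = Env.S (pad, k, G, B, t') := by
  have h1 : ∀ m ≤ min k G.n, (Env.grow (pad, k, G, B, t))^[m] (0, []) =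
      (Env.grow (pad, k, G, B, t'))^[m] (0, []) ∧
        ((Env.grow (pad, k, G, B, t))^[m] (0, [])).1 = m := by
    intro m
    induction m with
    | zero => intro _; exact ⟨rfl, rfl⟩
    | succ m ih =>
      intro hm
      obtain ⟨h2, h3⟩ := ih (by omega)
      rw [Function.iterate_succ_apply', Function.iterate_succ_apply', ← h2]
      generalize (Env.grow (pad, k, G, B, t))^[m] (0, []) = x at h3 ⊢
      constructor
      · unfold Env.grow
        have h4 : Env.dig (pad, k, G, B, t) x.1 = Env.dig (pad, k, G, B, t') x.1 :=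
          h _ (by omega)
        rw [h4]
        rfl
      · show x.1 + 1 = m + 1
        rw [h3]
  exact congrArg Prod.snd (h1 _ le_rfl).1

theorem adj_iff (E : Env) (u v : Fin E.n) :
    E.adj u v = true ↔ (Gr.G E.2.2.1).Adj u v := by
  unfold Env.adj Gr.G
  rw [SimpleGraph.fromRel_adj]
  simp only [Bool.and_eq_true, Bool.or_eq_true, decide_eq_true_eq]
  constructor
  · rintro ⟨⟨-, h2⟩, h3⟩
    exact ⟨fun h => h2 (congrArg Fin.val h), h3⟩
  · rintro ⟨h2, h3⟩
    exact ⟨⟨⟨u.2, v.2⟩, fun h => h2 (Fin.ext h)⟩, h3⟩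

theorem adj_lt (E : Env) (u v : ℕ) (h : E.adj u v = true) : u < E.n ∧ v < E.n := by
  unfold Env.adj at h
  simp only [Bool.and_eq_true, decide_eq_true_eq] at h
  exact h.1.1

end GUEx

open GUEx in
theorem t_GUE (h1 : S_MOD) (h2 : S_MODL) (h3 : S_DIG) (h4 : S_FEA2) : S_GUE := by
  classical
  intro pad k G B hB hpad hcvd hbud
  obtain ⟨d, hd3, hd⟩ := h1 pad k G B hcvd
  obtain ⟨K, hK⟩ : ∃ K, K = min k G.n := ⟨_, rfl⟩
  -- first guess
  obtain ⟨t₀, -, hdt₀⟩ := h3 (K + 3) K d (by omega) (fun j _ => (hd3 j).trans_le (by omega))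
  obtain ⟨S₀, hS₀⟩ : ∃ S₀, S₀ = Env.S (pad, k, G, B, t₀) := ⟨_, rfl⟩
  obtain ⟨f, hf1, hf2⟩ := hbud
  obtain ⟨hnd, hlen, hlt, -⟩ := h2 (pad, k, G, B, t₀)
  rw [← hS₀] at hnd hlen hlt
  replace hlen : S₀.length ≤ K := by rw [hK]; exact hlen
  replace hlt : ∀ x ∈ S₀, x < G.n := hlt
  -- the colours
  obtain ⟨fN, hfN⟩ : ∃ fN : ℕ → ℕ, ∀ x (hx : x < G.n), fN x = (f ⟨x, hx⟩ : ℕ) :=
    ⟨fun x => if h : x < G.n then (f ⟨x, h⟩ : ℕ) else 0, fun x hx => dif_pos hx⟩
  obtain ⟨a, ha⟩ : ∃ a : List ℕ, a = (S₀.map fN).toFinset.sort (· ≤ ·) := ⟨_, rfl⟩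
  have ha_mem : ∀ c, c ∈ a ↔ ∃ x ∈ S₀, fN x = c := by
    intro c
    rw [ha, Finset.mem_sort, List.mem_toFinset, List.mem_map]
  have ha_mem' : ∀ x ∈ S₀, fN x ∈ a := fun x hx => (ha_mem _).mpr ⟨x, hx, rfl⟩
  have ha_sorted : a.Pairwise (· < ·) := by
    rw [ha]
    exact (Finset.sortedLT_sort _).pairwise
  have ha_nd : a.Nodup := ha_sorted.imp fun h => h.ne
  have ha_len : a.length ≤ K := by
    rw [ha, Finset.length_sort]
    refine (List.toFinset_card_le _).trans ?_
    rw [List.length_map]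
    exact hlen
  have ha_lt : ∀ c ∈ a, c < B.length := by
    intro c hc
    obtain ⟨x, hx, rfl⟩ := (ha_mem c).mp hc
    rw [hfN x (hlt x hx)]
    exact (f _).2
  -- the digits
  obtain ⟨D, hD⟩ : ∃ D : ℕ → ℕ, D = fun j =>
      if j < K then d j
      else if j < 2 * K then a.idxOf (fN (S₀.getD (j - K) 0))
      else if j < 3 * K then
        min (B.getD (a.getD (j - 2 * K + 1) 0) 0 - B.getD (a.getD (j - 2 * K) 0) 0) K
      else a.length := ⟨_, rfl⟩
  have hDb : ∀ j < 3 * K + 1, D j < K + 3 := by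
    intro j _
    rw [hD]
    simp only
    split_ifs
    · exact (hd3 j).trans_le (by omega)
    · have : a.idxOf (fN (S₀.getD (j - K) 0)) ≤ a.length := List.idxOf_le_length
      omega
    · have := min_le_right (B.getD (a.getD (j - 2 * K + 1) 0) 0 -
        B.getD (a.getD (j - 2 * K) 0) 0) K
      omega
    · omega
  obtain ⟨t, ht, hdt⟩ := h3 (K + 3) (3 * K + 1) D (by omega) hDb
  obtain ⟨E, hE⟩ : ∃ E : Env, E = (pad, k, G, B, t) := ⟨_, rfl⟩
  have hEk : E.k = K := by rw [hE, hK]
  have hEn : E.n = G.n := by rw [hE]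
  have hEB : E.B = B := by rw [hE]
  have hdig : ∀ j < 3 * K + 1, E.dig j = D j := by
    intro j hj
    unfold Env.dig
    rw [hEk]
    have : E.t = t := by rw [hE]
    rw [this]
    exact hdt j hj
  have hdig1 : ∀ j < K, E.dig j = d j := by
    intro j hj
    rw [hdig j (by omega), hD]
    exact if_pos hj
  have hES : E.S = S₀ := by
    rw [hS₀, hE]
    apply S_eq
    intro j hj
    rw [← hK] at hj
    have h5 := hdig1 j hj
    rw [hE] at h5
    rw [h5]
    have h6 := hdt₀ j hj
    unfold Env.dig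
    show d j = t₀ / (min k G.n + 3) ^ j % (min k G.n + 3)
    rw [← hK]
    exact h6.symm
  have hP3 : E.P3 E.S = none := by
    rw [hE]
    apply hd
    intro j hj
    rw [← hK] at hj
    have h5 := hdig1 j hj
    rw [hE] at h5
    exact h5
  have hq : E.q = a.length := by
    unfold Env.q
    rw [hEk, hdig _ (by omega), hD]
    simp only
    rw [if_neg (by omega), if_neg (by omega), if_neg (by omega)]
    exact min_eq_left ha_len
  have he : ∀ i < K, E.e i = min (B.getD (a.getD (i + 1) 0) 0 - B.getD (a.getD i 0) 0) K := by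
    intro i hi
    unfold Env.e
    rw [hEk, hdig _ (by omega), hD]
    simp only
    rw [if_neg (by omega), if_neg (by omega), if_pos (by omega), Nat.add_sub_cancel_left]
    exact min_eq_left (min_le_right _ _)
  have hcls : ∀ x ∈ S₀, E.cls x = a.idxOf (fN x) := by
    intro x hx
    unfold Env.cls
    have h5 : S₀.idxOf x < S₀.length := List.idxOf_lt_length_iff.mpr hx
    rw [hEk, hES, hdig _ (by omega), hD]
    simp only
    rw [if_neg (by omega), if_pos (by omega), Nat.add_sub_cancel_left,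
      List.getD_eq_getElem _ _ h5, List.getElem_idxOf]
  have hgetcls : ∀ x ∈ S₀, a.getD (E.cls x) 0 = fN x := by
    intro x hx
    rw [hcls x hx]
    have h5 : a.idxOf (fN x) < a.length := List.idxOf_lt_length_iff.mpr (ha_mem' x hx)
    rw [List.getD_eq_getElem _ _ h5, List.getElem_idxOf]
  have hadj : ∀ x y (hx : x < G.n) (hy : y < G.n), E.adj x y = true → f ⟨x, hx⟩ ≠ f ⟨y, hy⟩ := by
    intro x y hx hy hxy
    subst hE
    exact hf1 _ _ ((adj_iff (pad, k, G, B, t) ⟨x, hx⟩ ⟨y, hy⟩).mp hxy)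
  have hok : E.ok = true := by
    unfold Env.ok
    rw [hP3]
    simp only [Option.isNone_none, Bool.true_and, Bool.and_eq_true, List.all_eq_true,
      decide_eq_true_eq, Bool.not_eq_true', Bool.and_eq_false_iff, decide_eq_false_iff_not]
    rw [hES]
    constructor
    · intro x hx
      rw [hcls x hx, hq]
      exact List.idxOf_lt_length_iff.mpr (ha_mem' x hx)
    · intro x hx y hy
      by_cases hxy : E.adj x y = true
      · right
        intro h5
        have h6 := hgetcls x hx
        rw [h5, hgetcls y hy, hfN x (hlt x hx), hfN y (hlt y hy)] at h6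
        exact hadj x y (hlt x hx) (hlt y hy) hxy (Fin.ext h6.symm)
      · left
        exact Bool.eq_false_iff.mpr hxy
  have hgg : ∀ b N, b ≤ k + 3 → N ≤ 3 * k + 1 → b ^ N ≤ gg k := by
    intro b N hb hN
    unfold gg
    exact (Nat.pow_le_pow_left hb N).trans (Nat.pow_le_pow_right (by omega) hN)
  have hKk : K ≤ k := by rw [hK]; exact min_le_left _ _
  have h2q : 2 ^ E.q ≤ E.pad := by
    have h5 : E.pad = pad.length := by rw [hE]
    rw [h5]
    exact (hgg 2 E.q (by omega) (by omega)).trans hpad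
  have hcol : Col E a := by
    subst hE
    refine ⟨f, fun u v huv => hf1 u v ((adj_iff (pad, k, G, B, t) u v).mp huv), hf2, ?_⟩
    intro x hx
    rw [hES] at hx
    rw [hgetcls _ hx, hfN _ x.2]
  obtain ⟨hs, hc4⟩ := h4 E hok h2q a hq.symm ha_nd (by rw [hEB]; exact ha_lt) hcol
  have hmono : ∀ i, i + 1 < a.length → a.getD i 0 < a.getD (i + 1) 0 := by
    intro i hi
    rw [List.getD_eq_getElem _ _ hi, List.getD_eq_getElem _ _ (by omega : i < a.length)]
    exact List.pairwise_iff_getElem.mp ha_sorted i (i + 1) (by omega) hi (by omega)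
  have hbe : ∀ i, i + 1 < a.length → E.be a i ≤ E.be a (i + 1) := by
    intro i hi
    unfold Env.be
    rw [hEB]
    have h5 := hmono i hi
    have h6 : a.getD (i + 1) 0 < B.length := by
      rw [List.getD_eq_getElem _ _ hi]
      exact ha_lt _ (List.getElem_mem hi)
    rw [List.getD_eq_getElem _ _ h6, List.getD_eq_getElem _ _ (h5.trans h6)]
    exact List.pairwise_iff_getElem.mp hB _ _ (h5.trans h6) h6 h5
  have hei : ∀ i, i + 1 < a.length → E.e i = min (E.be a (i + 1) - E.be a i) K := by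
    intro i hi
    rw [he i (by omega)]
    unfold Env.be
    rw [hEB]
  refine ⟨t, ht.trans_le (hgg _ _ (by omega) (by omega)), hE ▸ hok, a, ?_⟩
  rw [← hE]
  refine ⟨hq.symm, ?_⟩
  unfold Env.fin
  simp only [Bool.and_eq_true, List.all_eq_true, decide_eq_true_eq, Option.isNone_iff_eq_none]
  refine ⟨⟨⟨⟨by rw [hEB]; exact ha_lt, ?_⟩, ?_⟩, ?_⟩, hc4⟩
  · unfold Env.c1
    rw [List.find?_eq_none]
    intro i hi
    rw [List.mem_range] at hi
    have := hs i hi
    simp only [decide_eq_true_eq]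
    omega
  · unfold Env.c2
    rw [List.find?_eq_none]
    intro i hi
    rw [List.mem_range, hq] at hi
    have h5 := hmono i (by omega)
    have h6 := hbe i (by omega)
    have h7 := hei i (by omega)
    have h8 := min_le_left (E.be a (i + 1) - E.be a i) K
    simp only [Bool.or_eq_true, decide_eq_true_eq]
    omega
  · unfold Env.c3
    rw [List.find?_eq_none]
    intro i hi
    rw [List.mem_range, hq] at hi
    have h6 := hbe i (by omega)
    have h7 := hei i (by omega)
    simp only [Bool.and_eq_true, decide_eq_true_eq]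
    rw [hEk]
    rintro ⟨h8, h9⟩
    rw [h7] at h8 h9
    have h10 : min (E.be a (i + 1) - E.be a i) K = E.be a (i + 1) - E.be a i := by
      rcases min_choice (E.be a (i + 1) - E.be a i) K with h | h
      · exact h
      · omega
    omega

end Pool.Agent.BCP8
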