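import Pool.Agent.BCP8.Stm

/-!
# Piece IMP of project BCP
-/

set_option autoImplicit false

namespace Pool.Agent.BCP8

open Finset

namespace IMP24

theorem wf_le {V J Q : Type} [Fintype V] [DecidableEq V] [Fintype J] [DecidableEq J] [Fintype Q]
    [DecidableEq Q] (κ : V → J) (L : V → Q → Bool) (j : J) (A : Finset Q) :
    wf κ L j A ≤ Fintype.card V := by
  unfold wf
  refine Finset.sup_le fun Z _ => (Nat.sub_le _ _).trans ?_
  exact card_le_univ _

theorem wf_insert {V J Q : Type} [Fintype V] [DecidableEq V] [Fintype J] [DecidableEq J]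
    [Fintype Q] [DecidableEq Q] (κ : V → J) (L : V → Q → Bool) (j : J) (A : Finset Q) (i : Q)
    (hi : i ∉ A) : wf κ L j A ≤ wf κ L j (insert i A) + 1 := by
  have key : ∀ Z ∈ A.powerset,
      (univ.filter fun v => κ v = j ∧ ∀ i ∈ A, L v i = true → i ∈ Z).card - Z.card ≤
        wf κ L j (insert i A) + 1 := by
    intro Z hZ
    rw [mem_powerset] at hZ
    have hiZ : i ∉ Z := fun h => hi (hZ h)
    have h1 : (univ.filter fun v => κ v = j ∧ ∀ i' ∈ insert i A, L v i' = true → i' ∈ insert i Z).card -
        (insert i Z).card ≤ wf κ L j (insert i A) := by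
      unfold wf
      exact Finset.le_sup (f := fun Z => (univ.filter fun v => κ v = j ∧
        ∀ i' ∈ insert i A, L v i' = true → i' ∈ Z).card - Z.card)
        (mem_powerset.2 (insert_subset_insert i hZ))
    rw [card_insert_of_notMem hiZ] at h1
    have h2 : (univ.filter fun v => κ v = j ∧ ∀ i ∈ A, L v i = true → i ∈ Z).card ≤
        (univ.filter fun v => κ v = j ∧ ∀ i' ∈ insert i A, L v i' = true → i' ∈ insert i Z).card := by
      refine card_le_card fun v hv => ?_
      simp only [mem_filter, mem_univ, true_and] at hv ⊢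
      refine ⟨hv.1, fun i' hi' hL => ?_⟩
      rcases mem_insert.1 hi' with rfl | h
      · exact mem_insert_self _ _
      · exact mem_insert_of_mem (hv.2 i' h hL)
    omega
  conv_lhs => unfold wf
  exact Finset.sup_le key

end IMP24

theorem t_IMP (h : S_TOP) : S_IMP := by
  intro V J Q _ _ _ _ _ _ κ L N hN A i m hi hm
  obtain ⟨T, hT, hsum⟩ := (h J (fun j => wf κ L j A) N
    (fun j => (IMP24.wf_le κ L j A).trans hN)).2 m hm
  have h2 := (h J (fun j => wf κ L j (insert i A)) N
    (fun j => (IMP24.wf_le κ L j (insert i A)).trans hN)).1 T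
  rw [hT] at h2
  have h3 : ∑ j ∈ T, wf κ L j A ≤ ∑ j ∈ T, (wf κ L j (insert i A) + 1) :=
    Finset.sum_le_sum fun j _ => IMP24.wf_insert κ L j A i hi
  rw [Finset.sum_add_distrib, Finset.sum_const, smul_eq_mul, mul_one, hT] at h3
  show ∑ x ∈ range N, min m (univ.filter fun j => x + 1 ≤ wf κ L j A).card ≤
    ∑ x ∈ range N, min m (univ.filter fun j => x + 1 ≤ wf κ L j (insert i A)).card + m
  rw [← hsum]
  exact h3.trans (Nat.add_le_add_right h2 m)

end Pool.Agent.BCP8
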