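import Pool.Agent.BCP8.Stm

set_option autoImplicit false

namespace Pool.Agent.BCP8

open Pool.Agent.Lib.CX Finset

theorem t_LOOP (h : S_NXT) : S_LOOP := by
  rintro E hB hok hpad ⟨a', ha'⟩
  have hlt : ∀ i < E.q, a'.getD i 0 < E.B.length := by
    intro i hi
    have hf := ha'.2
    unfold Env.fin at hf
    simp only [Bool.and_eq_true, List.all_eq_true, decide_eq_true_eq] at hf
    have hi' : i < a'.length := by rw [ha'.1]; exact hi
    rw [List.getD_eq_getElem _ _ hi']
    exact hf.1.1.1.1 _ (List.getElem_mem hi')
  have key : ∀ t : ℕ, ((E.rnd^[t] (List.replicate E.q 0)).length = E.q) ∧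
      (∀ i < E.q, (E.rnd^[t] (List.replicate E.q 0)).getD i 0 ≤ a'.getD i 0) ∧
      (E.fin (E.rnd^[t] (List.replicate E.q 0)) = true ∨
        t ≤ ∑ i ∈ range E.q, (E.rnd^[t] (List.replicate E.q 0)).getD i 0) := by
    intro t
    induction t with
    | zero =>
      refine ⟨by simp, fun i hi => ?_, Or.inr (Nat.zero_le _)⟩
      simp only [Function.iterate_zero, id_eq]
      have : (List.replicate E.q 0).getD i 0 = 0 := by
        rw [List.getD_eq_getElem _ _ (by simpa using hi)]
        simp
      rw [this]
      exact Nat.zero_le _
    | succ t ih =>
      rw [Function.iterate_succ_apply']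
      generalize E.rnd^[t] (List.replicate E.q 0) = a at ih ⊢
      obtain ⟨hl, hle, hor⟩ := ih
      obtain ⟨g1, g2⟩ := h E hB hok hpad a a' hl ha' hle
      rcases hn : E.nxt a with _ | r
      · have hr : E.rnd a = a := by unfold Env.rnd; rw [hn]; rfl
        rw [hr]
        exact ⟨hl, hle, Or.inl (g1 hn)⟩
      · obtain ⟨hrq, hra⟩ := g2 r hn
        have hr : E.rnd a = a.set r (a.getD r 0 + 1) := by unfold Env.rnd; rw [hn]; rfl
        have hrl : r < a.length := by rw [hl]; exact hrq
        have hget : ∀ i < E.q, (a.set r (a.getD r 0 + 1)).getD i 0 =
            if i = r then a.getD r 0 + 1 else a.getD i 0 := by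
          intro i hi
          have hil : i < a.length := by rw [hl]; exact hi
          rw [List.getD_eq_getElem _ _ (by rw [List.length_set]; exact hil), List.getElem_set]
          by_cases hir : r = i
          · rw [if_pos hir, if_pos hir.symm]
          · rw [if_neg hir, if_neg (fun h => hir h.symm), List.getD_eq_getElem _ _ hil]
        have hsum : ∑ i ∈ range E.q, (a.set r (a.getD r 0 + 1)).getD i 0 =
            (∑ i ∈ range E.q, a.getD i 0) + 1 := by
          have hr' : r ∈ range E.q := Finset.mem_range.2 hrq
          rw [← Finset.add_sum_erase _ _ hr', ← Finset.add_sum_erase (range E.q) _ hr',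
            hget r hrq, if_pos rfl]
          have : ∑ i ∈ (range E.q).erase r, (a.set r (a.getD r 0 + 1)).getD i 0 =
              ∑ i ∈ (range E.q).erase r, a.getD i 0 := by
            apply Finset.sum_congr rfl
            intro i hi
            rw [Finset.mem_erase] at hi
            rw [hget i (Finset.mem_range.1 hi.2), if_neg hi.1]
          rw [this]
          omega
        rw [hr]
        refine ⟨by rw [List.length_set]; exact hl, fun i hi => ?_, Or.inr ?_⟩
        · rw [hget i hi]
          by_cases hir : i = r
          · rw [if_pos hir, hir]
            exact hra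
          · rw [if_neg hir]
            exact hle i hi
        · rcases hor with hf | hor
          · exfalso
            unfold Env.fin at hf
            simp only [Bool.and_eq_true, Option.isNone_iff_eq_none, List.all_eq_true,
              decide_eq_true_eq] at hf
            obtain ⟨⟨⟨⟨h0, h1⟩, h2⟩, h3⟩, h4⟩ := hf
            have hany : (a.any fun x => decide (E.B.length ≤ x)) = false := by
              rw [List.any_eq_false]
              intro x hx
              simpa using h0 x hx
            have : E.nxt a = none := by
              unfold Env.nxt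
              simp [hany, h1, h2, h3, h4]
            rw [this] at hn
            exact absurd hn (by simp)
          · rw [hsum]
            omega
  obtain ⟨hl, hle, hor⟩ := key (E.q * E.B.length)
  unfold Env.run
  generalize E.rnd^[E.q * E.B.length] (List.replicate E.q 0) = a at hl hle hor ⊢
  rcases hor with hf | hor
  · exact hf
  · rcases Nat.eq_zero_or_pos E.q with hq | hq
    · have h1 : a = [] := List.eq_nil_of_length_eq_zero (by rw [hl, hq])
      have h2 : a' = [] := List.eq_nil_of_length_eq_zero (by rw [ha'.1, hq])
      rw [h1, ← h2]
      exact ha'.2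
    · exfalso
      have : ∑ i ∈ range E.q, a.getD i 0 < ∑ i ∈ range E.q, E.B.length := by
        apply Finset.sum_lt_sum_of_nonempty
        · exact ⟨0, Finset.mem_range.2 hq⟩
        · intro i hi
          exact lt_of_le_of_lt (hle i (Finset.mem_range.1 hi)) (hlt i (Finset.mem_range.1 hi))
      rw [Finset.sum_const, Finset.card_range, smul_eq_mul] at this
      omega

end Pool.Agent.BCP8
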