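import Pool.Agent.BCP8.Stm

/-!
# Project BCP, piece MOD: the search of the modulator
-/

set_option autoImplicit false

namespace Pool.Agent.BCP8

open Pool.Agent.Lib.CX Finset

namespace ModSearch

/-- the right choice of the vertex of a path -/
def ch (S0 : Finset ℕ) (x : ℕ × ℕ × ℕ) : ℕ := if x.1 ∈ S0 then 0 else if x.2.1 ∈ S0 then 1 else 2

theorem ch_lt (S0 : Finset ℕ) (x : ℕ × ℕ × ℕ) : ch S0 x < 3 := by
  unfold ch
  split_ifs <;> norm_num

/-- the vertex -/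
def pick (c : ℕ) (x : ℕ × ℕ × ℕ) : ℕ := if c = 0 then x.1 else if c = 1 then x.2.1 else x.2.2

/-- the lists of the search with the right choices -/
def LL (P : List ℕ → Option (ℕ × ℕ × ℕ)) (S0 : Finset ℕ) : ℕ → List ℕ
  | 0 => []
  | j + 1 => ((P (LL P S0 j)).map fun x => pick (ch S0 x) x :: LL P S0 j).getD (LL P S0 j)

theorem LL_none {P : List ℕ → Option (ℕ × ℕ × ℕ)} {S0 : Finset ℕ} {j : ℕ}
    (h : P (LL P S0 j) = none) : LL P S0 (j + 1) = LL P S0 j := by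
  change ((P (LL P S0 j)).map fun x => pick (ch S0 x) x :: LL P S0 j).getD (LL P S0 j) = _
  rw [h]; rfl

theorem LL_some {P : List ℕ → Option (ℕ × ℕ × ℕ)} {S0 : Finset ℕ} {j : ℕ} {x : ℕ × ℕ × ℕ}
    (h : P (LL P S0 j) = some x) : LL P S0 (j + 1) = pick (ch S0 x) x :: LL P S0 j := by
  change ((P (LL P S0 j)).map fun x => pick (ch S0 x) x :: LL P S0 j).getD (LL P S0 j) = _
  rw [h]; rfl

theorem pick_mem {S0 : Finset ℕ} {x : ℕ × ℕ × ℕ} (h : x.1 ∈ S0 ∨ x.2.1 ∈ S0 ∨ x.2.2 ∈ S0) :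
    pick (ch S0 x) x ∈ S0 := by
  unfold ch pick
  by_cases h1 : x.1 ∈ S0
  · simp [h1]
  · by_cases h2 : x.2.1 ∈ S0
    · simp [h1, h2]
    · have h3 : x.2.2 ∈ S0 := by tauto
      simpa [h1, h2] using h3

theorem pick_not {x : ℕ × ℕ × ℕ} {T : List ℕ} (h1 : x.1 ∉ T) (h2 : x.2.1 ∉ T)
    (h3 : x.2.2 ∉ T) (c : ℕ) : pick c x ∉ T := by
  unfold pick
  split_ifs <;> assumption

variable {P : List ℕ → Option (ℕ × ℕ × ℕ)} {S0 : Finset ℕ}

theorem inv (hP : ∀ T x, P T = some x → x.1 ∉ T ∧ x.2.1 ∉ T ∧ x.2.2 ∉ T ∧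
      (x.1 ∈ S0 ∨ x.2.1 ∈ S0 ∨ x.2.2 ∈ S0)) (j : ℕ) :
    (∀ y ∈ LL P S0 j, y ∈ S0) ∧ (LL P S0 j).Nodup ∧
      ((LL P S0 j).length = j ∨ P (LL P S0 j) = none) := by
  induction j with
  | zero => exact ⟨by simp [LL], by simp [LL], Or.inl (by simp [LL])⟩
  | succ j ih =>
    obtain ⟨h1, h2, h3⟩ := ih
    rcases hx : P (LL P S0 j) with _ | x
    · rw [LL_none hx]
      exact ⟨h1, h2, Or.inr hx⟩
    · obtain ⟨a1, a2, a3, a4⟩ := hP _ _ hx
      rw [LL_some hx]
      refine ⟨?_, ?_, Or.inl ?_⟩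
      · intro y hy
        rcases List.mem_cons.1 hy with rfl | hy
        · exact pick_mem a4
        · exact h1 y hy
      · exact List.nodup_cons.2 ⟨pick_not a1 a2 a3 _, h2⟩
      · rcases h3 with h3 | h3
        · rw [List.length_cons, h3]
        · rw [hx] at h3; exact absurd h3 (by simp)

theorem final (hP : ∀ T x, P T = some x → x.1 ∉ T ∧ x.2.1 ∉ T ∧ x.2.2 ∉ T ∧
      (x.1 ∈ S0 ∨ x.2.1 ∈ S0 ∨ x.2.2 ∈ S0)) {K : ℕ} (hK : S0.card ≤ K) :
    P (LL P S0 K) = none := by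
  obtain ⟨h1, h2, h3⟩ := inv hP K
  rcases h3 with h3 | h3
  · rcases hx : P (LL P S0 K) with _ | x
    · rfl
    · exfalso
      obtain ⟨a1, a2, a3, a4⟩ := hP _ _ hx
      have hsub : (LL P S0 K).toFinset ⊆ S0 := by
        intro y hy
        exact h1 y (List.mem_toFinset.1 hy)
      have hcard : (LL P S0 K).toFinset.card = K := by
        rw [List.toFinset_card_of_nodup h2, h3]
      have heq : (LL P S0 K).toFinset = S0 := Finset.eq_of_subset_of_card_le hsub (by omega)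
      have hm : ∀ y, y ∈ S0 → y ∈ LL P S0 K := by
        intro y hy
        rw [← heq] at hy
        exact List.mem_toFinset.1 hy
      rcases a4 with h | h | h
      · exact a1 (hm _ h)
      · exact a2 (hm _ h)
      · exact a3 (hm _ h)
  · exact h3

end ModSearch

open ModSearch in
theorem t_MOD : S_MOD := by
  intro pad k G B hC
  obtain ⟨S₀, hcard, hS⟩ := hC
  obtain ⟨S0, hS0⟩ : ∃ S0 : Finset ℕ, S0 = S₀.image (fun v : Fin G.n => (v : ℕ)) := ⟨_, rfl⟩
  obtain ⟨P, hPdef⟩ : ∃ P : List ℕ → Option (ℕ × ℕ × ℕ),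
    P = fun T => Env.P3 (pad, k, G, B, 0) T := ⟨_, rfl⟩
  have hPt : ∀ (t : ℕ) (T : List ℕ), Env.P3 (pad, k, G, B, t) T = P T := by
    intro t T; rw [hPdef]; rfl
  have hP : ∀ T x, P T = some x → x.1 ∉ T ∧ x.2.1 ∉ T ∧ x.2.2 ∉ T ∧
      (x.1 ∈ S0 ∨ x.2.1 ∈ S0 ∨ x.2.2 ∈ S0) := by
    intro T x hx
    rw [hPdef] at hx
    have h := List.find?_some hx
    simp only [Bool.and_eq_true, decide_eq_true_eq, Bool.not_eq_true'] at h
    obtain ⟨⟨⟨⟨⟨⟨h1, h2⟩, h3⟩, h4⟩, h5⟩, h6⟩, h7⟩ := h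
    refine ⟨h1, h2, h3, ?_⟩
    by_contra hcon
    push Not at hcon
    obtain ⟨n1, n2, n3⟩ := hcon
    unfold Env.adj at h4 h5 h7
    simp only [Bool.and_eq_true, Bool.or_eq_true, decide_eq_true_eq] at h4 h5
    obtain ⟨⟨⟨u1, u2⟩, u3⟩, u4⟩ := h4
    obtain ⟨⟨⟨w1, w2⟩, w3⟩, w4⟩ := h5
    have m1 : (⟨x.1, u1⟩ : Fin G.n) ∉ S₀ := fun h => n1 (by
      rw [hS0]; exact Finset.mem_image_of_mem (fun v : Fin G.n => (v : ℕ)) h)
    have m2 : (⟨x.2.1, u2⟩ : Fin G.n) ∉ S₀ := fun h => n2 (by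
      rw [hS0]; exact Finset.mem_image_of_mem (fun v : Fin G.n => (v : ℕ)) h)
    have m3 : (⟨x.2.2, w2⟩ : Fin G.n) ∉ S₀ := fun h => n3 (by
      rw [hS0]; exact Finset.mem_image_of_mem (fun v : Fin G.n => (v : ℕ)) h)
    have e1 : G.G.Adj (⟨x.1, u1⟩ : Fin G.n) ⟨x.2.1, u2⟩ := by
      unfold Gr.G
      rw [SimpleGraph.fromRel_adj]
      exact ⟨fun h => u3 (by simpa using h), u4⟩
    have e2 : G.G.Adj (⟨x.2.1, u2⟩ : Fin G.n) ⟨x.2.2, w2⟩ := by
      unfold Gr.G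
      rw [SimpleGraph.fromRel_adj]
      exact ⟨fun h => w3 (by simpa using h), w4⟩
    rcases hS _ _ _ m1 m2 m3 e1 e2 with h | h
    · exact h6 (by simpa using h)
    · unfold Gr.G at h
      rw [SimpleGraph.fromRel_adj] at h
      have : (decide (x.1 < Env.n (pad, k, G, B, 0)) && decide (x.2.2 < Env.n (pad, k, G, B, 0)) &&
          decide (x.1 ≠ x.2.2) && (decide ((x.1, x.2.2) ∈ G.2) || decide ((x.2.2, x.1) ∈ G.2))) =
          true := by
        simp only [Bool.and_eq_true, Bool.or_eq_true, decide_eq_true_eq]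
        exact ⟨⟨⟨u1, w2⟩, h6⟩, h.2⟩
      rw [this] at h7
      exact absurd h7 (by simp)
  have hK : S0.card ≤ min k G.n := by
    rw [hS0]
    refine (Finset.card_image_le).trans (le_min hcard ?_)
    exact (Finset.card_le_univ S₀).trans (by simp)
  refine ⟨fun j => ((P (LL P S0 j)).map (ch S0)).getD 0, fun j => ?_, fun t ht => ?_⟩
  · change ((P (LL P S0 j)).map (ch S0)).getD 0 < 3
    rcases hx : P (LL P S0 j) with _ | x
    · norm_num
    · exact ch_lt S0 x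
  · have hit : ∀ j ≤ min k G.n, (Env.grow (pad, k, G, B, t))^[j] (0, []) = (j, LL P S0 j) := by
      intro j
      induction j with
      | zero => intro _; rfl
      | succ j ih =>
        intro hj
        rw [Function.iterate_succ_apply', ih (by omega)]
        have hd : Env.dig (pad, k, G, B, t) j = ((P (LL P S0 j)).map (ch S0)).getD 0 :=
          ht j (by omega)
        unfold Env.grow
        simp only [hPt]
        rcases hx : P (LL P S0 j) with _ | x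
        · rw [LL_none hx]; rfl
        · rw [hx] at hd
          rw [LL_some hx, hd]
          rfl
    have hSt : Env.S (pad, k, G, B, t) = LL P S0 (min k G.n) := by
      have h := hit (min k G.n) le_rfl
      unfold Env.S
      change ((Env.grow (pad, k, G, B, t))^[min k G.n] (0, [])).2 = _
      rw [h]
    rw [hPt, hSt]
    exact final hP hK

end Pool.Agent.BCP8
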