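import Pool.Agent.BCP8.Stm

/-!
# Project BCP, piece MODL (helper23)
-/

set_option autoImplicit false

namespace Pool.Agent.BCP8

open Pool.Agent.Lib.CX Finset

namespace MODL

/-- adjacency of the algorithm and of the graph -/
theorem adj_iff (E : Env) (u v : Fin (Gr.n E.2.2.1)) :
    E.adj (u : ℕ) (v : ℕ) = true ↔ (Gr.G E.2.2.1).Adj u v := by
  have hu : (u : ℕ) < E.n := u.2
  have hv : (v : ℕ) < E.n := v.2
  unfold Env.adj Gr.G
  rw [SimpleGraph.fromRel_adj]
  simp only [Bool.and_eq_true, Bool.or_eq_true, decide_eq_true_eq, hu, hv, true_and, ne_eq,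
    Fin.ext_iff]

/-- an induced path of the search -/
theorem P3_some {E : Env} {T : List ℕ} {x : ℕ × ℕ × ℕ} (h : E.P3 T = some x) :
    (x.1 < E.n ∧ x.2.1 < E.n ∧ x.2.2 < E.n) ∧ x.1 ∉ T ∧ x.2.1 ∉ T ∧ x.2.2 ∉ T ∧
      E.adj x.1 x.2.1 = true ∧ E.adj x.2.1 x.2.2 = true ∧ x.1 ≠ x.2.2 ∧
      E.adj x.1 x.2.2 = false := by
  unfold Env.P3 at h
  have h1 := List.find?_some h
  have h2 := List.mem_of_find?_eq_some h
  simp only [Bool.and_eq_true, decide_eq_true_eq, Bool.not_eq_true'] at h1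
  have h3 : x.1 ∈ List.range E.n ∧ x.2 ∈ List.range E.n ×ˢ List.range E.n :=
    List.mem_product.mp h2
  have h4 : x.2.1 ∈ List.range E.n ∧ x.2.2 ∈ List.range E.n := List.mem_product.mp h3.2
  obtain ⟨⟨⟨⟨⟨⟨a1, a2⟩, a3⟩, a4⟩, a5⟩, a6⟩, a7⟩ := h1
  exact ⟨⟨List.mem_range.mp h3.1, List.mem_range.mp h4.1, List.mem_range.mp h4.2⟩,
    a1, a2, a3, a4, a5, a6, a7⟩

/-- the invariant of the search -/
theorem inv (E : Env) (j : ℕ) : (E.grow^[j] (0, [])).1 = j ∧ (E.grow^[j] (0, [])).2.Nodup ∧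
    (E.grow^[j] (0, [])).2.length ≤ j ∧ ∀ x ∈ (E.grow^[j] (0, [])).2, x < E.n := by
  induction j with
  | zero => simp
  | succ j ih =>
    rw [Function.iterate_succ_apply']
    obtain ⟨h0, h1, h2, h3⟩ := ih
    set p := E.grow^[j] (0, []) with hp
    unfold Env.grow
    cases hP : E.P3 p.2 with
    | none =>
      simp only [Option.map_none, Option.getD_none]
      exact ⟨by omega, h1, by omega, h3⟩
    | some x =>
      simp only [Option.map_some, Option.getD_some]
      obtain ⟨⟨b1, b2, b3⟩, c1, c2, c3, -⟩ := P3_some hP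
      have h4 : (if E.dig p.1 = 0 then x.1 else if E.dig p.1 = 1 then x.2.1 else x.2.2) < E.n ∧
          (if E.dig p.1 = 0 then x.1 else if E.dig p.1 = 1 then x.2.1 else x.2.2) ∉ p.2 := by
        split_ifs
        · exact ⟨b1, c1⟩
        · exact ⟨b2, c2⟩
        · exact ⟨b3, c3⟩
      refine ⟨by omega, List.nodup_cons.mpr ⟨h4.2, h1⟩, ?_, fun y hy => ?_⟩
      · rw [List.length_cons]
        omega
      · rcases List.mem_cons.mp hy with rfl | hy
        · exact h4.1
        · exact h3 y hy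

end MODL

theorem t_MODL : S_MODL := by
  intro E
  obtain ⟨-, h1, h2, h3⟩ := MODL.inv E E.k
  refine ⟨h1, h2, h3, fun hN => ?_⟩
  classical
  refine ⟨Finset.univ.filter fun v : Fin (Gr.n E.2.2.1) => (v : ℕ) ∈ E.S, ?_, ?_⟩
  · have h4 : (Finset.univ.filter fun v : Fin (Gr.n E.2.2.1) => (v : ℕ) ∈ E.S).card ≤
        E.S.toFinset.card := by
      apply Finset.card_le_card_of_injOn (fun v : Fin (Gr.n E.2.2.1) => (v : ℕ))
      · intro v hv
        have hv' := (Finset.mem_filter.mp (Finset.mem_coe.mp hv)).2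
        exact Finset.mem_coe.mpr (List.mem_toFinset.mpr hv')
      · intro u _ v _ huv
        exact Fin.ext huv
    have h5 := List.toFinset_card_le E.S
    have h6 : E.S.length ≤ E.k := h2
    have h7 : E.k ≤ E.2.1 := min_le_left _ _
    omega
  · intro u v w hu hv hw huv hvw
    have hu' : (u : ℕ) ∉ E.S := fun h => hu (Finset.mem_filter.mpr ⟨Finset.mem_univ _, h⟩)
    have hv' : (v : ℕ) ∉ E.S := fun h => hv (Finset.mem_filter.mpr ⟨Finset.mem_univ _, h⟩)
    have hw' : (w : ℕ) ∉ E.S := fun h => hw (Finset.mem_filter.mpr ⟨Finset.mem_univ _, h⟩)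
    by_contra hcon
    push Not at hcon
    obtain ⟨hne, hnadj⟩ := hcon
    unfold Env.P3 at hN
    rw [List.find?_eq_none] at hN
    apply hN ((u : ℕ), (v : ℕ), (w : ℕ))
    · exact List.mem_product.mpr ⟨List.mem_range.mpr u.2,
        List.mem_product.mpr ⟨List.mem_range.mpr v.2, List.mem_range.mpr w.2⟩⟩
    · have e1 := (MODL.adj_iff E u v).mpr huv
      have e2 := (MODL.adj_iff E v w).mpr hvw
      have e3 : E.adj (u : ℕ) (w : ℕ) = false := by
        rw [Bool.eq_false_iff]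
        exact fun h => hnadj ((MODL.adj_iff E u w).mp h)
      have e4 : (u : ℕ) ≠ (w : ℕ) := fun h => hne (Fin.ext h)
      simp only [Bool.and_eq_true, decide_eq_true_eq, Bool.not_eq_true']
      exact ⟨⟨⟨⟨⟨⟨hu', hv'⟩, hw'⟩, e1⟩, e2⟩, e4⟩, e3⟩

end Pool.Agent.BCP8
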