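import Pool.Agent.BCP8.Stm

set_option autoImplicit false

namespace Pool.Agent.BCP8

open Pool.Agent.Lib.CX Finset

namespace NXT

theorem sum_list (n : ℕ) (f : ℕ → ℕ) : ((List.range n).map f).sum = ∑ i ∈ range n, f i := by
  induction n with
  | zero => simp
  | succ n ih => rw [List.range_succ, List.map_append, List.sum_append, ih, Finset.sum_range_succ]; simp

theorem le_iff (E : Env) (Z A : ℕ) :
    E.le Z A = true ↔ ∀ i < E.q, Z.testBit i = true → A.testBit i = true := by
  unfold Env.le
  rw [List.all_eq_true]
  constructor
  · intro h i hi hz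
    have := h i (List.mem_range.2 hi)
    rw [hz] at this
    simpa using this
  · intro h i hi
    have := h i (List.mem_range.1 hi)
    rcases hz : Z.testBit i with _ | _
    · simp
    · simp [this hz]

theorem le_of_le (E : Env) (Z A : ℕ) (hZ : Z < 2 ^ E.q) (h : E.le Z A = true) : Z ≤ A := by
  have h1 : Z &&& A = Z := by
    apply Nat.eq_of_testBit_eq
    intro i
    rw [Nat.testBit_and]
    by_cases hi : i < E.q
    · have := (le_iff E Z A).1 h i hi
      rcases hz : Z.testBit i with _ | _
      · simp
      · simp [this hz]
    · have : Z.testBit i = false := by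
        apply Nat.testBit_lt_two_pow
        exact lt_of_lt_of_le hZ (Nat.pow_le_pow_right (by norm_num) (by omega))
      rw [this]
      simp
  rw [← h1]
  exact Nat.and_le_right

theorem mem_subs (E : Env) (hpad : 2 ^ E.q ≤ E.pad) (A : ℕ) : A ∈ E.subs ↔ A < 2 ^ E.q := by
  unfold Env.subs
  rw [List.mem_range, min_eq_left hpad]

theorem viol_iff (E : Env) (a : List ℕ) (m A : ℕ) : E.viol a m A = true ↔
    E.phi m + (∑ i ∈ range E.q, if A.testBit i = true then 0 else E.be a i - m) <
      E.W m A + ∑ i ∈ range E.q, if A.testBit i = true then min (E.be a i) m else E.s i := by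
  unfold Env.viol
  rw [decide_eq_true_eq, sum_list, sum_list]

/-- no violated cut when `c4 = none` -/
theorem no_viol (E : Env) (hpad : 2 ^ E.q ≤ E.pad) (a : List ℕ) (h : E.c4 a = none) (m A : ℕ)
    (hm : m ≤ E.cl.length) (hA : A < 2 ^ E.q) : ¬ E.viol a m A = true := by
  intro hv
  let s : Finset ℕ := (range (2 ^ E.q)).filter fun A => E.viol a m A = true
  have hne : s.Nonempty := ⟨A, by simp only [s, Finset.mem_filter, Finset.mem_range]; exact ⟨hA, hv⟩⟩
  obtain ⟨Z, hZ, hmax⟩ := Finset.exists_max_image s id hne
  simp only [s, Finset.mem_filter, Finset.mem_range, id_eq] at hZ hmax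
  have hnone := h
  unfold Env.c4 at hnone
  rw [List.find?_eq_none] at hnone
  have hmem : (m, Z) ∈ (List.range (E.cl.length + 1) ×ˢ E.subs) := by
    rw [List.mem_product]
    exact ⟨List.mem_range.2 (by omega), (mem_subs E hpad Z).2 hZ.1⟩
  apply hnone _ hmem
  unfold Env.viol'
  rw [Bool.and_eq_true]
  refine ⟨hZ.2, ?_⟩
  rw [List.all_eq_true]
  intro A' hA'
  rw [mem_subs E hpad] at hA'
  by_contra hcon
  simp only [Bool.not_eq_true, Bool.not_eq_false', Bool.and_eq_true, decide_eq_true_eq] at hcon
  obtain ⟨⟨h1, h2⟩, h3⟩ := hcon
  have h4 := le_of_le E Z A' hZ.1 h1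
  have h5 := hmax A' ⟨hA', h3⟩
  omega

end NXT

open NXT

theorem t_NXT (h1 : S_BR) (h2 : S_IMP) (h3 : S_MODL) : S_NXT := by
  intro E hB hok hpad a a' hal ha' hle
  obtain ⟨ha'l, hfin⟩ := ha'
  unfold Env.fin at hfin
  simp only [Bool.and_eq_true, Option.isNone_iff_eq_none, List.all_eq_true,
    decide_eq_true_eq] at hfin
  obtain ⟨⟨⟨⟨f0, f1⟩, f2⟩, f3⟩, f4⟩ := hfin
  have hlt' : ∀ i < E.q, a'.getD i 0 < E.B.length := by
    intro i hi
    have hi' : i < a'.length := by rw [ha'l]; exact hi
    rw [List.getD_eq_getElem _ _ hi']
    exact f0 _ (List.getElem_mem hi')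
  have hlt : ∀ i < E.q, a.getD i 0 < E.B.length := fun i hi => lt_of_le_of_lt (hle i hi) (hlt' i hi)
  have hall : ∀ x ∈ a, x < E.B.length := by
    intro x hx
    obtain ⟨i, hi, rfl⟩ := List.getElem_of_mem hx
    rw [← List.getD_eq_getElem _ 0 hi]
    exact hlt i (by rw [← hal]; exact hi)
  have hany : (a.any fun x => decide (E.B.length ≤ x)) = false := by
    rw [List.any_eq_false]
    intro x hx
    simpa using hall x hx
  -- budgets are monotone
  have bmono : ∀ x y : ℕ, x ≤ y → y < E.B.length → E.B.getD x 0 ≤ E.B.getD y 0 := by
    intro x y hxy hy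
    rcases Nat.eq_or_lt_of_le hxy with h | h
    · rw [h]
    · rw [List.getD_eq_getElem _ _ hy, List.getD_eq_getElem _ _ (lt_trans h hy)]
      exact List.pairwise_iff_getElem.1 hB x y (lt_trans h hy) hy h
  have belt : ∀ i < E.q, E.be a i < E.be a' i → a.getD i 0 < a'.getD i 0 := by
    intro i hi hb
    by_contra hcon
    have : E.be a' i ≤ E.be a i := bmono _ _ (by omega) (hlt i hi)
    omega
  have bele : ∀ i < E.q, E.be a i ≤ E.be a' i := fun i hi => bmono _ _ (hle i hi) (hlt' i hi)
  -- facts for a'
  have p1 : ∀ i < E.q, E.s i ≤ E.be a' i := by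
    intro i hi
    unfold Env.c1 at f1
    rw [List.find?_eq_none] at f1
    have := f1 i (List.mem_range.2 hi)
    rw [decide_eq_true_eq] at this
    omega
  have c2none : ∀ b : List ℕ, E.c2 b = none → ∀ i, i + 1 < E.q →
      b.getD i 0 < b.getD (i + 1) 0 ∧ E.be b i + E.e i ≤ E.be b (i + 1) := by
    intro b hb i hi
    unfold Env.c2 at hb
    rw [List.find?_eq_none] at hb
    have := hb i (List.mem_range.2 (by omega))
    rw [Bool.or_eq_true, decide_eq_true_eq, decide_eq_true_eq] at this
    omega
  have c3none : ∀ b : List ℕ, E.c3 b = none → ∀ i, i + 1 < E.q → E.e i < E.k →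
      E.be b (i + 1) ≤ E.be b i + E.e i := by
    intro b hb i hi hk
    unfold Env.c3 at hb
    rw [List.find?_eq_none] at hb
    have := hb i (List.mem_range.2 (by omega))
    rw [Bool.and_eq_true, decide_eq_true_eq, decide_eq_true_eq] at this
    omega
  have p2 := c2none a' f2
  have p3 := c3none a' f3
  unfold Env.nxt
  rw [hany]
  simp only [Bool.false_eq_true, if_false]
  rcases g1 : E.c1 a with _ | r1
  swap
  · simp only [Option.isSome_some, if_true]
    refine ⟨fun h => absurd h (by simp), fun r hr => ?_⟩
    injection hr with hr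
    subst hr
    unfold Env.c1 at g1
    have hm := List.mem_of_find?_eq_some g1
    have hp := List.find?_some g1
    rw [List.mem_range] at hm
    rw [decide_eq_true_eq] at hp
    exact ⟨hm, belt _ hm (lt_of_lt_of_le hp (p1 _ hm))⟩
  simp only [Option.isSome_none, Bool.false_eq_true, if_false]
  rcases g2 : E.c2 a with _ | r2
  swap
  · simp only [Option.isSome_some, if_true]
    refine ⟨fun h => absurd h (by simp), fun r hr => ?_⟩
    simp only [Option.map_some, Option.some.injEq] at hr
    subst hr
    unfold Env.c2 at g2
    have hm := List.mem_of_find?_eq_some g2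
    have hp := List.find?_some g2
    rw [List.mem_range] at hm
    rw [Bool.or_eq_true, decide_eq_true_eq, decide_eq_true_eq] at hp
    have hq : r2 + 1 < E.q := by omega
    have hh := p2 r2 hq
    refine ⟨hq, ?_⟩
    rcases hp with hp | hp
    · have := hle r2 (by omega)
      omega
    · apply belt _ hq
      have := bele r2 (by omega)
      omega
  simp only [Option.isSome_none, Bool.false_eq_true, if_false]
  rcases g3 : E.c3 a with _ | r3
  swap
  · simp only [Option.isSome_some, if_true]
    refine ⟨fun h => absurd h (by simp), fun r hr => ?_⟩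
    injection hr with hr
    subst hr
    unfold Env.c3 at g3
    have hm := List.mem_of_find?_eq_some g3
    have hp := List.find?_some g3
    rw [List.mem_range] at hm
    rw [Bool.and_eq_true, decide_eq_true_eq, decide_eq_true_eq] at hp
    have hq : r3 + 1 < E.q := by omega
    have hh := p3 r3 hq hp.1
    have hb := bele (r3 + 1) hq
    refine ⟨by omega, belt _ (by omega) (by omega)⟩
  simp only [Option.isSome_none, Bool.false_eq_true, if_false]
  have q2 := c2none a g2
  have q3 := c3none a g3
  have q1 : ∀ i < E.q, E.s i ≤ E.be a i := by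
    intro i hi
    unfold Env.c1 at g1
    rw [List.find?_eq_none] at g1
    have := g1 i (List.mem_range.2 hi)
    rw [decide_eq_true_eq] at this
    omega
  rcases g4 : E.c4 a with _ | ⟨m, A⟩
  · refine ⟨fun _ => ?_, fun r hr => absurd hr (by simp)⟩
    unfold Env.fin
    simp only [Bool.and_eq_true, Option.isNone_iff_eq_none, List.all_eq_true, decide_eq_true_eq]
    exact ⟨⟨⟨⟨hall, g1⟩, g2⟩, g3⟩, g4⟩
  simp only [Option.bind_some]
  have g4' := g4
  unfold Env.c4 at g4'
  have hmem := List.mem_of_find?_eq_some g4'
  have hviol := List.find?_some g4'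
  rw [List.mem_product] at hmem
  obtain ⟨hm, hA⟩ := hmem
  rw [List.mem_range] at hm
  rw [mem_subs E hpad] at hA
  unfold Env.viol' at hviol
  rw [Bool.and_eq_true, List.all_eq_true] at hviol
  obtain ⟨hv, hmx⟩ := hviol
  simp only at hm hA hv hmx
  obtain ⟨κ, -, hκW⟩ := h1 E hok hpad
  -- (i)
  have partI : ∀ i < E.q, ¬ A.testBit i = true → E.be a i < m + E.s i := by
    intro i hi hAi
    by_contra hcon
    have hcon : m + E.s i ≤ E.be a i := by omega
    have hA'lt : A ||| 2 ^ i < 2 ^ E.q :=
      Nat.or_lt_two_pow hA (Nat.pow_lt_pow_right (by norm_num) hi)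
    have htb : ∀ j, (A ||| 2 ^ i).testBit j = true ↔ (A.testBit j = true ∨ i = j) := by
      intro j
      rw [Nat.testBit_or, Nat.testBit_two_pow, Bool.or_eq_true, decide_eq_true_eq]
    have hnv := hmx (A ||| 2 ^ i) ((mem_subs E hpad _).2 hA'lt)
    have hleA : E.le A (A ||| 2 ^ i) = true := by
      rw [le_iff]
      intro j _ hj
      exact (htb j).2 (Or.inl hj)
    have hneA : A ≠ A ||| 2 ^ i := by
      intro h
      apply hAi
      rw [h]
      exact (htb i).2 (Or.inr rfl)
    have hnv' : ¬ E.viol a m (A ||| 2 ^ i) = true := by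
      intro hcc
      rw [hleA, hcc, decide_eq_true hneA] at hnv
      simp at hnv
    rw [viol_iff] at hv hnv'
    have hdec : dec E.q (A ||| 2 ^ i) = insert (⟨i, hi⟩ : Fin E.q) (dec E.q A) := by
      ext j
      unfold dec
      rw [Finset.mem_insert, Finset.mem_filter, Finset.mem_filter, htb]
      constructor
      · rintro ⟨-, h | h⟩
        · exact Or.inr ⟨Finset.mem_univ _, h⟩
        · exact Or.inl (Fin.ext h.symm)
      · rintro (h | h)
        · exact ⟨Finset.mem_univ _, Or.inr (by rw [h])⟩
        · exact ⟨Finset.mem_univ _, Or.inl h.2⟩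
    have hW : E.W m A ≤ E.W m (A ||| 2 ^ i) + m := by
      rw [hκW, hκW, hdec]
      apply h2
      · calc Fintype.card (Rest E) ≤ Fintype.card (Fin E.n) := Fintype.card_subtype_le _
          _ = E.n := Fintype.card_fin _
      · unfold dec
        rw [Finset.mem_filter]
        intro h
        exact hAi h.2
      · rw [Fintype.card_fin]
        omega
    have hi' : i ∈ range E.q := Finset.mem_range.2 hi
    have e1 : (∑ j ∈ range E.q, if A.testBit j = true then 0 else E.be a j - m) =
        (∑ j ∈ range E.q, if (A ||| 2 ^ i).testBit j = true then 0 else E.be a j - m) +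
          (E.be a i - m) := by
      rw [← Finset.add_sum_erase _ _ hi', ← Finset.add_sum_erase (range E.q) (fun j =>
        if (A ||| 2 ^ i).testBit j = true then 0 else E.be a j - m) hi', if_neg hAi,
        if_pos ((htb i).2 (Or.inr rfl))]
      have : (∑ j ∈ (range E.q).erase i, if A.testBit j = true then 0 else E.be a j - m) =
          ∑ j ∈ (range E.q).erase i, if (A ||| 2 ^ i).testBit j = true then 0 else E.be a j - m := by
        apply Finset.sum_congr rfl
        intro j hj
        rw [Finset.mem_erase] at hj
        have : ((A ||| 2 ^ i).testBit j = true) ↔ A.testBit j = true := by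
          rw [htb]
          constructor
          · rintro (h | h)
            · exact h
            · exact absurd h.symm hj.1
          · exact Or.inl
        simp only [this]
      rw [this]
      omega
    have e2 : (∑ j ∈ range E.q, if (A ||| 2 ^ i).testBit j = true then min (E.be a j) m else E.s j)
        + E.s i =
        (∑ j ∈ range E.q, if A.testBit j = true then min (E.be a j) m else E.s j) + m := by
      rw [← Finset.add_sum_erase _ _ hi', ← Finset.add_sum_erase (range E.q) (fun j =>
        if A.testBit j = true then min (E.be a j) m else E.s j) hi', if_neg hAi,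
        if_pos ((htb i).2 (Or.inr rfl))]
      have : (∑ j ∈ (range E.q).erase i, if (A ||| 2 ^ i).testBit j = true then
          min (E.be a j) m else E.s j) =
          ∑ j ∈ (range E.q).erase i, if A.testBit j = true then min (E.be a j) m else E.s j := by
        apply Finset.sum_congr rfl
        intro j hj
        rw [Finset.mem_erase] at hj
        have : ((A ||| 2 ^ i).testBit j = true) ↔ A.testBit j = true := by
          rw [htb]
          constructor
          · rintro (h | h)
            · exact h
            · exact absurd h.symm hj.1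
          · exact Or.inl
        simp only [this]
      rw [this, min_eq_right (by omega : m ≤ E.be a i)]
      omega
    omega
  -- (ii)
  have hnva : ¬ E.viol a' m A = true := no_viol E hpad a' f4 m A (by omega) hA
  have partII : ∃ j < E.q, ¬ A.testBit j = true ∧ E.be a j - m < E.be a' j - m := by
    by_contra hcon
    push Not at hcon
    rw [viol_iff] at hv hnva
    have e1 : (∑ j ∈ range E.q, if A.testBit j = true then 0 else E.be a' j - m) ≤
        ∑ j ∈ range E.q, if A.testBit j = true then 0 else E.be a j - m := by
      apply Finset.sum_le_sum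
      intro j hj
      by_cases hj' : A.testBit j = true
      · rw [if_pos hj', if_pos hj']
      · rw [if_neg hj', if_neg hj']
        exact hcon j (Finset.mem_range.1 hj) hj'
    have e2 : (∑ j ∈ range E.q, if A.testBit j = true then min (E.be a j) m else E.s j) ≤
        ∑ j ∈ range E.q, if A.testBit j = true then min (E.be a' j) m else E.s j := by
      apply Finset.sum_le_sum
      intro j hj
      by_cases hj' : A.testBit j = true
      · rw [if_pos hj', if_pos hj']
        exact min_le_min (bele j (Finset.mem_range.1 hj)) le_rfl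
      · rw [if_neg hj', if_neg hj']
    omega
  obtain ⟨j, hjq, hjA, hjlt⟩ := partII
  rcases g5 : (List.range E.q).reverse.find? (fun i => !A.testBit i) with _ | i0
  · exfalso
    rw [List.find?_eq_none] at g5
    have := g5 j (List.mem_reverse.2 (List.mem_range.2 hjq))
    apply this
    simpa using hjA
  refine ⟨fun h => absurd h (by simp), fun r hr => ?_⟩
  injection hr with hr
  subst hr
  have hm0 := List.mem_of_find?_eq_some g5
  have hp0 := List.find?_some g5
  rw [List.mem_reverse, List.mem_range] at hm0
  have hA0 : ¬ A.testBit i0 = true := by simpa using hp0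
  refine ⟨hm0, ?_⟩
  -- `j ≤ i0`
  have hji : j ≤ i0 := by
    by_contra hcon
    have hcon : i0 < j := by omega
    rw [List.find?_eq_some_iff_append] at g5
    obtain ⟨-, as, bs, hab, hno⟩ := g5
    have hrev : List.range E.q = bs.reverse ++ [i0] ++ as.reverse := by
      have := congrArg List.reverse hab
      rw [List.reverse_reverse, List.reverse_append, List.reverse_cons] at this
      exact this
    have hjmem : j ∈ List.range E.q := List.mem_range.2 hjq
    have hpw : List.Pairwise (· < ·) (List.range E.q) := List.pairwise_lt_range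
    rw [hrev] at hjmem hpw
    rw [List.mem_append] at hjmem
    rcases hjmem with hjm | hjm
    · rw [List.mem_append] at hjm
      rcases hjm with hjm | hjm
      · rw [List.pairwise_append] at hpw
        have := (List.pairwise_append.1 hpw.1).2.2 j hjm i0 (by simp)
        omega
      · rw [List.mem_singleton] at hjm
        omega
    · have := hno j (List.mem_reverse.1 hjm)
      apply hjA
      simpa using this
  by_contra hcon
  have heq : a'.getD i0 0 = a.getD i0 0 := by
    have := hle i0 hm0
    omega
  have hbe : E.be a' i0 = E.be a i0 := by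
    unfold Env.be
    rw [heq]
  have hek : ∀ i, E.e i ≤ E.k := fun i => min_le_right _ _
  have hdown : ∀ d : ℕ, d ≤ i0 → E.be a' (i0 - d) ≤ E.be a' i0 ∧
      (E.be a' (i0 - d) = E.be a (i0 - d) ∨ E.be a' (i0 - d) + E.k ≤ E.be a' i0) := by
    intro d
    induction d with
    | zero => intro _; exact ⟨le_rfl, Or.inl hbe⟩
    | succ d ih =>
      intro hd
      obtain ⟨ih1, ih2⟩ := ih (by omega)
      have hs : i0 - d = (i0 - (d + 1)) + 1 := by omega
      rw [hs] at ih1 ih2
      generalize i0 - (d + 1) = i at ih1 ih2 hs ⊢
      have hiq : i + 1 < E.q := by omega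
      have u1 := (p2 i hiq).2
      have u2 := (q2 i hiq).2
      have u3 := p3 i hiq
      have u4 := q3 i hiq
      have u5 := hek i
      by_cases hk : E.e i < E.k
      · have u3 := u3 hk
        have u4 := u4 hk
        refine ⟨by omega, ?_⟩
        rcases ih2 with h | h
        · left; omega
        · right; omega
      · refine ⟨by omega, ?_⟩
        rcases ih2 with h | h
        · right; omega
        · right; omega
  have hj2 := hdown (i0 - j) (by omega)
  rw [show i0 - (i0 - j) = j by omega] at hj2
  have hI := partI i0 hm0 hA0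
  have hs0 : E.s i0 ≤ E.k := by
    unfold Env.s
    exact le_trans List.countP_le_length (h3 E).2.1
  rcases hj2.2 with h | h
  · omega
  · omega

end Pool.Agent.BCP8
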