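import Pool.Agent.BCP8.Stm

/-!
# Piece PTE of project BCP: the parts of the algorithm are polynomial
-/

set_option autoImplicit false

namespace Pool.Agent.BCP8

open Pool.Agent.Lib.CX Function

namespace PTE

variable {α : Type} [Enc α] {E : α → Env}

theorem find_congr {γ : Type} (p q : γ → Bool) (l : List γ) (h : ∀ x ∈ l, p x = q x) :
    l.find? p = l.find? q := by
  induction l with
  | nil => rfl
  | cons a l ih =>
    rw [List.find?_cons, List.find?_cons, h a (by simp), ih fun x hx => h x (by simp [hx])]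

@[fun_prop] theorem pt_adj {u v : α → ℕ} (hE : PT E) (hu : PT u) (hv : PT v) :
    PT (fun a => (E a).adj (u a) (v a)) := by
  unfold Env.adj
  fun_prop

@[fun_prop] theorem pt_dig {j : α → ℕ} (hE : PT E) (hj : PT j) (hb : PB j) :
    PT (fun a => (E a).dig (j a)) := by
  unfold Env.dig
  fun_prop

@[fun_prop] theorem pt_P3 {T : α → List ℕ} (hE : PT E) (hT : PT T) :
    PT (fun a => (E a).P3 (T a)) := by
  unfold Env.P3
  fun_prop

/-- the step of the search with a bounded digit -/
def grow' (E : Env) (p : ℕ × List ℕ) : ℕ × List ℕ :=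
  (p.1 + 1, ((E.P3 p.2).map fun x =>
    (if E.dig (min p.1 E.k) = 0 then x.1 else if E.dig (min p.1 E.k) = 1 then x.2.1 else x.2.2) :: p.2).getD p.2)

theorem pt_grow' : PT (fun p : Env × (ℕ × List ℕ) => grow' p.1 p.2) := by
  unfold grow'
  fun_prop

theorem P3_lt {E : Env} {T : List ℕ} {x : ℕ × ℕ × ℕ} (h : E.P3 T = some x) :
    x.1 < E.n ∧ x.2.1 < E.n ∧ x.2.2 < E.n := by
  have h1 : x ∈ List.product (List.range E.n) (List.product (List.range E.n) (List.range E.n)) :=
    List.mem_of_find?_eq_some h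
  obtain ⟨x1, x2, x3⟩ := x
  have h2 := List.pair_mem_product.1 h1
  have h3 := List.pair_mem_product.1 h2.2
  exact ⟨List.mem_range.1 h2.1, List.mem_range.1 h3.1, List.mem_range.1 h3.2⟩

theorem grow_it (E : Env) (j : ℕ) (hj : j ≤ E.k) : E.grow^[j] (0, []) = (grow' E)^[j] (0, []) ∧
    ((grow' E)^[j] (0, [])).1 = j ∧ ((grow' E)^[j] (0, [])).2.length ≤ j ∧
    ∀ x ∈ ((grow' E)^[j] (0, [])).2, x < E.n := by
  induction j with
  | zero => simp
  | succ j ih =>
    obtain ⟨h1, h2, h3, h4⟩ := ih (by omega)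
    obtain ⟨p, hp⟩ : ∃ p, p = (grow' E)^[j] (0, []) := ⟨_, rfl⟩
    rw [← hp] at h1 h2 h3 h4
    have hm : min p.1 E.k = p.1 := by rw [h2]; exact min_eq_left (by omega)
    rw [iterate_succ_apply', iterate_succ_apply', h1, ← hp]
    refine ⟨?_, ?_, ?_, ?_⟩
    · unfold Env.grow grow'
      rw [hm]
    · show p.1 + 1 = j + 1
      rw [h2]
    · show (((E.P3 p.2).map fun x =>
        (if E.dig (min p.1 E.k) = 0 then x.1 else if E.dig (min p.1 E.k) = 1 then x.2.1 else x.2.2) :: p.2).getD
          p.2).length ≤ j + 1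
      cases h : E.P3 p.2 with
      | none => simp; omega
      | some x => simp; omega
    · show ∀ x ∈ (((E.P3 p.2).map fun x =>
        (if E.dig (min p.1 E.k) = 0 then x.1 else if E.dig (min p.1 E.k) = 1 then x.2.1 else x.2.2) :: p.2).getD
          p.2), x < E.n
      cases h : E.P3 p.2 with
      | none => simpa using h4
      | some x =>
        obtain ⟨g1, g2, g3⟩ := P3_lt h
        intro y hy
        simp only [Option.map_some, Option.getD_some, List.mem_cons] at hy
        rcases hy with rfl | hy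
        · split_ifs <;> assumption
        · exact h4 y hy

theorem pt_S' : PT (fun E : Env => E.S) := by
  have h := (PT.iterate (α := Env) (F := grow') (i := fun _ => ((0 : ℕ), ([] : List ℕ))) (n := fun E => E.k)
    (B := fun E => (3 * E.n + 2) + (E.n * (3 * E.n + 3) + 2) + 1) pt_grow' (by fun_prop) (by fun_prop)
    (by fun_prop) (by fun_prop) fun E j hj => by
      obtain ⟨-, h2, h3, h4⟩ := grow_it E j hj
      obtain ⟨p, hp⟩ : ∃ p, p = (grow' E)^[j] (0, []) := ⟨_, rfl⟩
      rw [← hp] at h2 h3 h4 ⊢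
      have hk : E.k ≤ E.n := min_le_right _ _
      have e1 : size p = size p.1 + size p.2 + 1 := size_pair p.1 p.2
      have e2 := size_nat_le p.1
      have e3 := size_list_le (l := p.2) (B := 3 * E.n + 2) fun x hx =>
        (size_nat_le x).trans (by have := h4 x hx; omega)
      have e4 : p.2.length * (3 * E.n + 2 + 1) ≤ E.n * (3 * E.n + 3) := Nat.mul_le_mul (by omega) le_rfl
      omega).snd
  refine h.congr fun E => ?_
  unfold Env.S
  rw [(grow_it E _ le_rfl).1]

@[fun_prop] theorem pt_S (hE : PT E) : PT (fun a => (E a).S) := pt_S'.comp hE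

@[fun_prop] theorem pt_cls {x : α → ℕ} (hE : PT E) (hx : PT x) : PT (fun a => (E a).cls (x a)) := by
  unfold Env.cls
  fun_prop

@[fun_prop] theorem pt_q (hE : PT E) : PT (fun a => (E a).q) := by
  unfold Env.q
  fun_prop

@[fun_prop] theorem pb_q (hE : PT E) : PB (fun a => (E a).q) := by
  unfold Env.q
  fun_prop

@[fun_prop] theorem pt_e {i : α → ℕ} (hE : PT E) (hi : PT i) (hb : PB i) : PT (fun a => (E a).e (i a)) := by
  unfold Env.e
  fun_prop

@[fun_prop] theorem pt_ok (hE : PT E) : PT (fun a => (E a).ok) := by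
  unfold Env.ok
  fun_prop

@[fun_prop] theorem pt_s {i : α → ℕ} (hE : PT E) (hi : PT i) : PT (fun a => (E a).s (i a)) := by
  unfold Env.s
  fun_prop

@[fun_prop] theorem pt_comp {v i : α → ℕ} (hE : PT E) (hv : PT v) (hi : PT i) :
    PT (fun a => (E a).comp (v a) (i a)) := by
  unfold Env.comp
  fun_prop

theorem cl_eq (E : Env) : E.cl = ((List.range E.n).filter fun v => decide (v ∉ E.S) &&
    (List.range (min v E.n)).all fun u => decide (u ∈ E.S) || !E.adj u v).map fun v =>
      (List.range E.n).filter fun u => decide (u ∉ E.S) && (decide (u = v) || E.adj u v) := by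
  unfold Env.cl
  congr 1
  refine List.filter_congr fun v hv => ?_
  rw [min_eq_left (List.mem_range.1 hv).le]

@[fun_prop] theorem pt_cl (hE : PT E) : PT (fun a => (E a).cl) := by
  simp only [cl_eq]
  fun_prop

@[fun_prop] theorem pt_subs (hE : PT E) : PT (fun a => (E a).subs) := by
  unfold Env.subs
  fun_prop

@[fun_prop] theorem pt_le {Z A : α → ℕ} (hE : PT E) (hZ : PT Z) (hA : PT A) :
    PT (fun a => (E a).le (Z a) (A a)) := by
  unfold Env.le
  fun_prop

@[fun_prop] theorem pt_cd {Z : α → ℕ} (hE : PT E) (hZ : PT Z) : PT (fun a => (E a).cd (Z a)) := by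
  unfold Env.cd
  fun_prop

@[fun_prop] theorem pt_hit {K : α → List ℕ} {Z A : α → ℕ} (hE : PT E) (hK : PT K) (hZ : PT Z) (hA : PT A) :
    PT (fun a => (E a).hit (K a) (Z a) (A a)) := by
  unfold Env.hit
  fun_prop

@[fun_prop] theorem pt_w {K : α → List ℕ} {A : α → ℕ} (hE : PT E) (hK : PT K) (hA : PT A) :
    PT (fun a => (E a).w (K a) (A a)) := by
  unfold Env.w
  fun_prop

@[fun_prop] theorem pt_W {m A : α → ℕ} (hE : PT E) (hm : PT m) (hA : PT A) :
    PT (fun a => (E a).W (m a) (A a)) := by
  unfold Env.W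
  fun_prop

@[fun_prop] theorem pt_phi {m : α → ℕ} (hE : PT E) (hm : PT m) : PT (fun a => (E a).phi (m a)) := by
  unfold Env.phi
  fun_prop

@[fun_prop] theorem pt_be {x : α → List ℕ} {i : α → ℕ} (hE : PT E) (hx : PT x) (hi : PT i) :
    PT (fun a => (E a).be (x a) (i a)) := by
  unfold Env.be
  fun_prop

@[fun_prop] theorem pt_viol {x : α → List ℕ} {m A : α → ℕ} (hE : PT E) (hx : PT x) (hm : PT m)
    (hA : PT A) : PT (fun a => (E a).viol (x a) (m a) (A a)) := by
  unfold Env.viol
  fun_prop

@[fun_prop] theorem pt_viol' {x : α → List ℕ} {p : α → ℕ × ℕ} (hE : PT E) (hx : PT x) (hp : PT p) :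
    PT (fun a => (E a).viol' (x a) (p a)) := by
  unfold Env.viol'
  fun_prop

@[fun_prop] theorem pt_c1 {x : α → List ℕ} (hE : PT E) (hx : PT x) : PT (fun a => (E a).c1 (x a)) := by
  unfold Env.c1
  fun_prop

theorem c2_eq (E : Env) (a : List ℕ) : E.c2 a = (List.range (E.q - 1)).find? fun i =>
    decide (a.getD (i + 1) 0 ≤ a.getD i 0) || decide (E.be a (i + 1) < E.be a i + E.e (min i E.q)) := by
  unfold Env.c2
  refine find_congr _ _ _ fun i hi => ?_
  rw [min_eq_left (by have := List.mem_range.1 hi; omega)]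

theorem c3_eq (E : Env) (a : List ℕ) : E.c3 a = (List.range (E.q - 1)).find? fun i =>
    decide (E.e (min i E.q) < E.k) && decide (E.be a i + E.e (min i E.q) < E.be a (i + 1)) := by
  unfold Env.c3
  refine find_congr _ _ _ fun i hi => ?_
  rw [min_eq_left (by have := List.mem_range.1 hi; omega)]

@[fun_prop] theorem pt_c2 {x : α → List ℕ} (hE : PT E) (hx : PT x) : PT (fun a => (E a).c2 (x a)) := by
  simp only [c2_eq]
  fun_prop

@[fun_prop] theorem pt_c3 {x : α → List ℕ} (hE : PT E) (hx : PT x) : PT (fun a => (E a).c3 (x a)) := by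
  simp only [c3_eq]
  fun_prop

@[fun_prop] theorem pt_c4 {x : α → List ℕ} (hE : PT E) (hx : PT x) : PT (fun a => (E a).c4 (x a)) := by
  unfold Env.c4
  fun_prop

@[fun_prop] theorem pt_nxt {x : α → List ℕ} (hE : PT E) (hx : PT x) : PT (fun a => (E a).nxt (x a)) := by
  unfold Env.nxt
  fun_prop

@[fun_prop] theorem pt_rnd {x : α → List ℕ} (hE : PT E) (hx : PT x) : PT (fun a => (E a).rnd (x a)) := by
  unfold Env.rnd
  fun_prop

@[fun_prop] theorem pt_fin {x : α → List ℕ} (hE : PT E) (hx : PT x) : PT (fun a => (E a).fin (x a)) := by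
  unfold Env.fin
  fun_prop

theorem nxt_some {E : Env} {a : List ℕ} {i : ℕ} (h : E.nxt a = some i) : ∀ x ∈ a, x < E.B.length := by
  intro x hx
  by_contra hne
  have h1 : (a.any fun x => decide (E.B.length ≤ x)) = true :=
    List.any_eq_true.2 ⟨x, hx, by simpa using hne⟩
  unfold Env.nxt at h
  rw [if_pos h1] at h
  exact absurd h (by simp)

theorem rnd_it (E : Env) (j : ℕ) : (E.rnd^[j] (List.replicate E.q 0)).length = E.q ∧
    ∀ x ∈ E.rnd^[j] (List.replicate E.q 0), x ≤ E.B.length := by
  induction j with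
  | zero => simp
  | succ j ih =>
    obtain ⟨a, ha⟩ : ∃ a, a = E.rnd^[j] (List.replicate E.q 0) := ⟨_, rfl⟩
    rw [← ha] at ih
    rw [iterate_succ_apply', ← ha]
    unfold Env.rnd
    cases h : E.nxt a with
    | none => simpa using ih
    | some i =>
      have h1 := nxt_some h
      refine ⟨by simpa using ih.1, fun x hx => ?_⟩
      simp only [Option.map_some, Option.getD_some] at hx
      rcases List.mem_or_eq_of_mem_set hx with hx | rfl
      · exact ih.2 x hx
      · by_cases hi : i < a.length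
        · have h2 := h1 (a.getD i 0) (by
            rw [List.getD_eq_getElem _ _ hi]
            exact List.getElem_mem hi)
          omega
        · rw [List.set_eq_of_length_le (by omega)] at hx
          exact ih.2 _ hx

theorem pt_run' : PT (fun E : Env => E.run) := by
  unfold Env.run
  refine PT.iterate (F := fun (E : Env) (x : List ℕ) => E.rnd x) (B := fun E => E.n * (3 * E.B.length + 3) + 2)
    (by fun_prop) (by fun_prop) (by fun_prop) (by fun_prop) (by fun_prop) fun E j _ => ?_
  obtain ⟨h1, h2⟩ := rnd_it E j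
  have hq : E.q ≤ E.n := (min_le_right _ _).trans (min_le_right _ _)
  have e3 := size_list_le (l := E.rnd^[j] (List.replicate E.q 0)) (B := 3 * E.B.length + 2) fun x hx =>
    (size_nat_le x).trans (by have := h2 x hx; omega)
  rw [h1] at e3
  have e4 : E.q * (3 * E.B.length + 2 + 1) ≤ E.n * (3 * E.B.length + 3) := Nat.mul_le_mul hq le_rfl
  show size (E.rnd^[j] (List.replicate E.q 0)) ≤ E.n * (3 * E.B.length + 3) + 2
  omega

@[fun_prop] theorem pt_run (hE : PT E) : PT (fun a => (E a).run) := pt_run'.comp hE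

end PTE

theorem t_PTE : S_PTE := ⟨by fun_prop, by fun_prop⟩

end Pool.Agent.BCP8
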