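import Pool.Agent.BCP8.Stm

/-!
# Project BCP, piece SRT: the order of the budgets does not matter
-/

set_option autoImplicit false

namespace Pool.Agent.BCP8

theorem perm_equiv {B B' : List ℕ} (h : B.Perm B') :
    ∃ e : Fin B.length ≃ Fin B'.length, ∀ i, B'.get (e i) = B.get i := by
  induction h with
  | nil => exact ⟨Equiv.refl _, fun i => rfl⟩
  | @cons x l l' _ ih =>
    obtain ⟨e, he⟩ := ih
    refine ⟨(finSuccEquiv _).trans ((Equiv.optionCongr e).trans (finSuccEquiv _).symm), ?_⟩
    intro i
    refine Fin.cases ?_ (fun j => ?_) i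
    · simp
    · have := he j
      simp only [List.get_eq_getElem] at this
      simp [this]
  | swap x y l =>
    refine ⟨Equiv.swap 0 1, ?_⟩
    intro i
    refine Fin.cases ?_ (fun j => ?_) i
    · simp
    · refine Fin.cases ?_ (fun k => ?_) j
      · simp
      · rw [Equiv.swap_apply_of_ne_of_ne]
        · simp
        · exact Fin.succ_ne_zero _
        · intro h
          have := congrArg Fin.val h
          simp at this
  | trans _ _ ih1 ih2 =>
    obtain ⟨e, he⟩ := ih1
    obtain ⟨e', he'⟩ := ih2
    exact ⟨e.trans e', fun i => by rw [Equiv.trans_apply, he', he]⟩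

theorem t_SRT : S_SRT := by
  intro V _ _ G B B' h hb
  obtain ⟨e, he⟩ := perm_equiv h
  obtain ⟨f, h1, h2⟩ := hb
  refine ⟨fun v => e (f v), fun u v huv hc => h1 u v huv (e.injective hc), fun i => ?_⟩
  obtain ⟨j, rfl⟩ := e.surjective i
  rw [he]
  refine le_trans (le_of_eq ?_) (h2 j)
  congr 1
  ext v
  simp

end Pool.Agent.BCP8
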