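import Pool.Agent.BCP8.Stm

/-!
# Piece TOP of project BCP: the sum of the `m` largest values
-/

set_option autoImplicit false

namespace Pool.Agent.BCP8

open Finset

namespace TOP24

theorem val_eq (a N : ℕ) (h : a ≤ N) : a = ∑ x ∈ range N, if x + 1 ≤ a then 1 else 0 := by
  rw [← Finset.sum_filter, Finset.sum_const, smul_eq_mul, mul_one]
  have : (range N).filter (fun x => x + 1 ≤ a) = range a := by
    ext x
    simp only [mem_filter, mem_range]
    omega
  rw [this, card_range]

theorem sum_eq {J : Type} [Fintype J] [DecidableEq J] (w : J → ℕ) (N : ℕ) (h : ∀ j, w j ≤ N)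
    (T : Finset J) : ∑ j ∈ T, w j = ∑ x ∈ range N, (T.filter fun j => x + 1 ≤ w j).card := by
  have h1 : ∑ j ∈ T, w j = ∑ j ∈ T, ∑ x ∈ range N, if x + 1 ≤ w j then 1 else 0 :=
    Finset.sum_congr rfl fun j _ => val_eq (w j) N (h j)
  rw [h1, Finset.sum_comm]
  refine Finset.sum_congr rfl fun x _ => ?_
  rw [← Finset.sum_filter, Finset.sum_const, smul_eq_mul, mul_one]

theorem exists_top {J : Type} [Fintype J] [DecidableEq J] (w : J → ℕ) (m : ℕ)
    (hm : m ≤ Fintype.card J) :
    ∃ T : Finset J, T.card = m ∧ ∀ j ∈ T, ∀ i, i ∉ T → w i ≤ w j := by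
  have hne : (powersetCard m (univ : Finset J)).Nonempty := by
    rw [powersetCard_nonempty, card_univ]
    exact hm
  obtain ⟨T, hT, hmax⟩ := exists_max_image (powersetCard m (univ : Finset J))
    (fun T => ∑ j ∈ T, w j) hne
  rw [mem_powersetCard] at hT
  refine ⟨T, hT.2, fun j hj i hi => ?_⟩
  by_contra hlt
  push Not at hlt
  have hij : i ∉ T.erase j := fun h => hi (mem_of_mem_erase h)
  have hc : (insert i (T.erase j)).card = m := by
    rw [card_insert_of_notMem hij, card_erase_of_mem hj, ← hT.2]
    have : 0 < T.card := card_pos.2 ⟨j, hj⟩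
    omega
  have h1 := hmax (insert i (T.erase j)) (mem_powersetCard.2 ⟨subset_univ _, hc⟩)
  rw [sum_insert hij] at h1
  have h2 := Finset.add_sum_erase T w hj
  omega

end TOP24

theorem t_TOP : S_TOP := by
  intro J _ _ w N h
  constructor
  · intro T
    rw [TOP24.sum_eq w N h T]
    refine Finset.sum_le_sum fun x _ => le_min (card_filter_le _ _) ?_
    exact card_le_card (filter_subset_filter _ (subset_univ T))
  · intro m hm
    obtain ⟨T, hT, htop⟩ := TOP24.exists_top w m hm
    refine ⟨T, hT, ?_⟩
    rw [TOP24.sum_eq w N h T]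
    refine Finset.sum_congr rfl fun x _ => ?_
    by_cases hall : ∀ j ∈ T, x + 1 ≤ w j
    · rw [filter_true_of_mem hall, hT, min_eq_left]
      rw [← hT]
      exact card_le_card fun j hj => mem_filter.2 ⟨mem_univ _, hall j hj⟩
    · push Not at hall
      obtain ⟨j, hj, hjx⟩ := hall
      have he : (T.filter fun j => x + 1 ≤ w j) = univ.filter fun j => x + 1 ≤ w j := by
        ext i
        simp only [mem_filter, mem_univ, true_and, and_iff_right_iff_imp]
        intro hi
        by_contra hiT
        have := htop j hj i hiT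
        omega
      rw [min_eq_right]
      · rw [he]
      · rw [← he, ← hT]
        exact card_filter_le _ _

end Pool.Agent.BCP8
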