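import Pool.Agent.BCP8.HALL
import Pool.Agent.BCP8.TOP
import Pool.Agent.BCP8.CUT1
import Pool.Agent.BCP8.CUT2
import Pool.Agent.BCP8.IMP
import Pool.Agent.BCP8.BR
import Pool.Agent.BCP8.MODL
import Pool.Agent.BCP8.NXT
import Pool.Agent.BCP8.LOOP
import Pool.Agent.BCP8.FEA1
import Pool.Agent.BCP8.FEA2
import Pool.Agent.BCP8.MOD
import Pool.Agent.BCP8.DIG
import Pool.Agent.BCP8.SRT
import Pool.Agent.BCP8.GUE
import Pool.Agent.BCP8.COR
import Pool.Agent.BCP8.PTI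
import Pool.Agent.BCP8.PTE
import Pool.Agent.BCP8.FPTP

/-!
# Project BCP: assembly
-/

set_option autoImplicit false

namespace Pool.Agent.BCP8

open Pool.Agent.Lib.CX

theorem pt_F : PT F := by
  have h1 : PT (fun l : List ℕ => l.insertionSort (· ≤ ·)) := t_PTI
  have h2 : PT Env.ok := t_PTE.1
  have h3 : PT (fun E : Env => E.fin E.run) := t_PTE.2
  have h4 : PT (fun p : (List Unit × ℕ × Gr × List ℕ) × ℕ =>
      ((p.1.1, p.1.2.1, p.1.2.2.1, p.1.2.2.2.insertionSort (· ≤ ·), p.2) : Env)) := by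
    have h5 : PT (fun p : (List Unit × ℕ × Gr × List ℕ) × ℕ =>
        p.1.2.2.2.insertionSort (· ≤ ·)) := h1.comp (g := fun p : (List Unit × ℕ × Gr × List ℕ) × ℕ =>
          p.1.2.2.2) (by fun_prop)
    fun_prop
  have h6 : PT (fun p : (List Unit × ℕ × Gr × List ℕ) × ℕ =>
      Env.ok (p.1.1, p.1.2.1, p.1.2.2.1, p.1.2.2.2.insertionSort (· ≤ ·), p.2)) := h2.comp h4
  have h7 : PT (fun p : (List Unit × ℕ × Gr × List ℕ) × ℕ =>
      Env.fin (p.1.1, p.1.2.1, p.1.2.2.1, p.1.2.2.2.insertionSort (· ≤ ·), p.2)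
        (Env.run (p.1.1, p.1.2.1, p.1.2.2.1, p.1.2.2.2.insertionSort (· ≤ ·), p.2))) := h3.comp h4
  unfold F
  exact PT.any (F := fun (I : List Unit × ℕ × Gr × List ℕ) (t : ℕ) =>
    Env.ok (I.1, I.2.1, I.2.2.1, I.2.2.2.insertionSort (· ≤ ·), t) &&
      Env.fin (I.1, I.2.1, I.2.2.1, I.2.2.2.insertionSort (· ≤ ·), t)
        (Env.run (I.1, I.2.1, I.2.2.1, I.2.2.2.insertionSort (· ≤ ·), t)))
    (PT.and h6 h7) (by fun_prop)

theorem cor : S_COR :=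
  t_COR (t_LOOP (t_NXT t_BR (t_IMP t_TOP) t_MODL))
    (t_GUE t_MOD t_MODL t_DIG (t_FEA2 (t_CUT2 t_TOP) t_BR t_MODL))
    (t_FEA1 t_HALL (t_CUT1 t_TOP) t_BR) t_SRT t_MODL

theorem t_FINAL : S_FINAL :=
  t_FPTP (Gr × List ℕ) F _ pt_F fun pad k x h => cor pad k x.1 x.2 h

end Pool.Agent.BCP8
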