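import Pool.Agent.BCP8.Stm

/-!
# Project BCP, piece HALL
-/

set_option autoImplicit false

namespace Pool.Agent.BCP8

open Finset

namespace HALLx

variable {V J C : Type} [Fintype V] [DecidableEq V] [Fintype J] [DecidableEq J]
  [Fintype C] [DecidableEq C]

/-- the sets of the bipartite graph -/
def tt (κ : V → J) (L : V → C → Bool) (r : C → ℕ) :
    V ⊕ (Σ i : C, Fin (Fintype.card J - r i)) → Finset (J × C)
  | .inl v => (univ.filter fun i => L v i = true).image fun i => (κ v, i)
  | .inr x => univ.image fun j => (j, x.1)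

theorem hall_cond (κ : V → J) (L : V → C → Bool) (r : C → ℕ)
    (h : ∀ U : Finset V, U.card ≤ ∑ i, min (r i) ((U.filter fun v => L v i).image κ).card)
    (s : Finset (V ⊕ (Σ i : C, Fin (Fintype.card J - r i)))) :
    s.card ≤ (s.biUnion (tt κ L r)).card := by
  classical
  obtain ⟨U, hU⟩ : ∃ U : Finset V, U = univ.filter fun v => Sum.inl v ∈ s := ⟨_, rfl⟩
  obtain ⟨I, hI⟩ : ∃ I : Finset C, I = univ.filter fun i => ∃ k, Sum.inr ⟨i, k⟩ ∈ s := ⟨_, rfl⟩
  -- the number of elements
  have h1 : s.card ≤ U.card + ∑ i ∈ I, (Fintype.card J - r i) := by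
    have h2 : s ⊆ U.map Function.Embedding.inl ∪
        (I.sigma fun i => (univ : Finset (Fin (Fintype.card J - r i)))).map
          Function.Embedding.inr := by
      intro x hx
      rw [Finset.mem_union, Finset.mem_map, Finset.mem_map]
      rcases x with v | ⟨i, k⟩
      · left
        exact ⟨v, by rw [hU]; exact Finset.mem_filter.mpr ⟨mem_univ _, hx⟩, rfl⟩
      · right
        refine ⟨⟨i, k⟩, ?_, rfl⟩
        rw [Finset.mem_sigma]
        refine ⟨?_, mem_univ _⟩
        rw [hI]
        exact Finset.mem_filter.mpr ⟨mem_univ _, k, hx⟩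
    refine (Finset.card_le_card h2).trans ((Finset.card_union_le _ _).trans ?_)
    rw [Finset.card_map, Finset.card_map, Finset.card_sigma]
    simp
  -- the union
  have h3 : ∑ i, (if i ∈ I then Fintype.card J else
      ((U.filter fun v => L v i).image κ).card) ≤ (s.biUnion (tt κ L r)).card := by
    have h4 : (s.biUnion (tt κ L r)).card =
        ∑ i, (univ.filter fun j => (j, i) ∈ s.biUnion (tt κ L r)).card := by
      rw [Finset.card_eq_sum_card_fiberwise (f := Prod.snd) (t := univ) (fun _ _ => mem_univ _)]
      refine Finset.sum_congr rfl fun i _ => ?_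
      refine Finset.card_bij (fun x _ => x.1) ?_ ?_ ?_
      · rintro ⟨j, i'⟩ hx
        rw [Finset.mem_filter] at hx ⊢
        obtain ⟨hx1, hx2⟩ := hx
        simp only at hx2
        subst hx2
        exact ⟨mem_univ _, hx1⟩
      · rintro ⟨j, i'⟩ hx ⟨j', i''⟩ hx' hj
        rw [Finset.mem_filter] at hx hx'
        have e1 := hx.2
        have e2 := hx'.2
        simp only at e1 e2 hj
        subst e1 e2 hj
        rfl
      · intro j hj
        rw [Finset.mem_filter] at hj
        exact ⟨(j, i), Finset.mem_filter.mpr ⟨hj.2, rfl⟩, rfl⟩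
    rw [h4]
    refine Finset.sum_le_sum fun i _ => ?_
    split_ifs with hi
    · rw [hI, Finset.mem_filter] at hi
      obtain ⟨-, k, hk⟩ := hi
      have : (univ.filter fun j => (j, i) ∈ s.biUnion (tt κ L r)) = univ := by
        rw [Finset.filter_eq_self]
        intro j _
        rw [Finset.mem_biUnion]
        refine ⟨_, hk, ?_⟩
        unfold tt
        rw [Finset.mem_image]
        exact ⟨j, mem_univ _, rfl⟩
      rw [this, Finset.card_univ]
    · refine Finset.card_le_card fun j hj => ?_
      rw [Finset.mem_image] at hj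
      obtain ⟨v, hv, hj⟩ := hj
      rw [Finset.mem_filter] at hv
      obtain ⟨hv1, hv2⟩ := hv
      rw [hU, Finset.mem_filter] at hv1
      rw [Finset.mem_filter, Finset.mem_biUnion]
      refine ⟨mem_univ _, _, hv1.2, ?_⟩
      unfold tt
      rw [Finset.mem_image]
      refine ⟨i, Finset.mem_filter.mpr ⟨mem_univ _, hv2⟩, ?_⟩
      rw [hj]
  refine le_trans ?_ h3
  refine h1.trans ?_
  have h5 := h U
  have h6 : ∑ i ∈ I, (Fintype.card J - r i) = ∑ i, if i ∈ I then (Fintype.card J - r i) else 0 := by
    rw [← Finset.sum_filter]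
    congr 1
    ext i
    simp
  rw [h6]
  refine (Nat.add_le_add_right h5 _).trans ?_
  rw [← Finset.sum_add_distrib]
  refine Finset.sum_le_sum fun i _ => ?_
  have h7 : ((U.filter fun v => L v i).image κ).card ≤ Fintype.card J := Finset.card_le_univ _
  split_ifs with hi
  · omega
  · omega

end HALLx

open HALLx

theorem t_HALL : S_HALL := by
  classical
  intro V J C _ _ _ _ _ _ κ L r h
  obtain ⟨f, hf, hft⟩ := (Finset.all_card_le_biUnion_card_iff_exists_injective (tt κ L r)).mp
    (hall_cond κ L r h)
  have h1 : ∀ v, f (.inl v) = (κ v, (f (.inl v)).2) ∧ L v (f (.inl v)).2 = true := by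
    intro v
    have h2 := hft (.inl v)
    unfold tt at h2
    rw [Finset.mem_image] at h2
    obtain ⟨i, hi, h3⟩ := h2
    rw [← h3]
    exact ⟨rfl, (Finset.mem_filter.mp hi).2⟩
  have h2 : ∀ x : Σ i : C, Fin (Fintype.card J - r i), (f (.inr x)).2 = x.1 := by
    intro x
    have h2 := hft (.inr x)
    unfold tt at h2
    rw [Finset.mem_image] at h2
    obtain ⟨j, -, h3⟩ := h2
    rw [← h3]
  refine ⟨fun v => (f (.inl v)).2, fun v => (h1 v).2, fun v w hvw hκ hg => hvw ?_, fun i => ?_⟩
  · have h3 : f (.inl v) = f (.inl w) := by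
      rw [(h1 v).1, (h1 w).1, hκ]
      simp only at hg
      rw [hg]
    exact Sum.inl_injective (hf h3)
  · have h3 : Fintype.card ({v : V // (f (.inl v)).2 = i} ⊕ Fin (Fintype.card J - r i)) ≤
        Fintype.card J := by
      refine Fintype.card_le_of_injective (fun x => match x with
        | .inl v => κ v.1
        | .inr k => (f (.inr ⟨i, k⟩)).1) ?_
      rintro (v | k) (w | l) hx
      · simp only at hx
        have h4 : f (.inl v.1) = f (.inl w.1) := by
          rw [(h1 v.1).1, (h1 w.1).1, hx, v.2, w.2]
        exact congrArg Sum.inl (Subtype.ext (Sum.inl_injective (hf h4)))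
      · simp only at hx
        have h4 : f (.inl v.1) = f (.inr ⟨i, l⟩) := by
          rw [(h1 v.1).1]
          refine Prod.ext hx ?_
          rw [h2]
          exact v.2
        exact absurd (hf h4) (by simp)
      · simp only at hx
        have h4 : f (.inl w.1) = f (.inr ⟨i, k⟩) := by
          rw [(h1 w.1).1]
          refine Prod.ext hx.symm ?_
          rw [h2]
          exact w.2
        exact absurd (hf h4) (by simp)
      · simp only at hx
        have h4 : f (.inr ⟨i, k⟩) = f (.inr ⟨i, l⟩) := by
          refine Prod.ext hx ?_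
          rw [h2, h2]
        have h5 := Sum.inr_injective (hf h4)
        simp only [Sigma.mk.injEq, heq_eq_eq, true_and] at h5
        rw [h5]
    rw [Fintype.card_sum, Fintype.card_subtype, Fintype.card_fin] at h3
    show (univ.filter fun v => (f (.inl v)).2 = i).card ≤ r i
    omega

end Pool.Agent.BCP8
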