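import Pool.Agent.BCP8.Stm

/-!
# Project BCP, piece PTI (helper46): insertion sort is polynomial
-/

set_option autoImplicit false

namespace Pool.Agent.BCP8

open Pool.Agent.Lib.CX

theorem oi_eq (x : ℕ) : ∀ l : List ℕ, l.Pairwise (· ≤ ·) →
    l.orderedInsert (· ≤ ·) x =
      l.filter (fun y => decide (y < x)) ++ x :: l.filter (fun y => !decide (y < x))
  | [], _ => rfl
  | y :: l, h => by
    rw [List.pairwise_cons] at h
    rw [List.orderedInsert]
    by_cases hxy : x ≤ y
    · have h1 : (y :: l).filter (fun z => decide (z < x)) = [] := by
        rw [List.filter_eq_nil_iff]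
        intro z hz
        rcases List.mem_cons.1 hz with rfl | hz
        · simpa using hxy
        · have := h.1 z hz
          simp only [decide_eq_true_eq, not_lt]
          omega
      have h2 : (y :: l).filter (fun z => !decide (z < x)) = y :: l := by
        rw [List.filter_eq_self]
        intro z hz
        rcases List.mem_cons.1 hz with rfl | hz
        · simpa using hxy
        · have := h.1 z hz
          simp only [Bool.not_eq_true', decide_eq_false_iff_not, not_lt]
          omega
      rw [if_pos hxy, h1, h2]
      rfl
    · have h3 : y < x := not_le.1 hxy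
      rw [if_neg hxy, oi_eq x l h.2, List.filter_cons_of_pos (by simpa using h3),
        List.filter_cons_of_neg (by simpa using h3)]
      rfl

theorem size_perm_nat {l m : List ℕ} (h : l.Perm m) : size l = size m := by
  induction h with
  | nil => rfl
  | cons x _ ih => rw [size_cons, size_cons, ih]
  | swap x y l =>
    simp only [size_cons]
    omega
  | trans _ _ ih1 ih2 => rw [ih1, ih2]

theorem t_PTI : S_PTI := by
  have h := PT.listRec (f := fun (_ : Unit) (l : List ℕ) => l.insertionSort (· ≤ ·))
    (F := fun _ x _ r => r.filter (fun y => decide (y < x)) ++ x :: r.filter (fun y => !decide (y < x)))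
    (B := fun a => size a) (by simp; fun_prop) (by fun_prop) (fun _ x l => by
      rw [List.insertionSort_cons]
      exact oi_eq x _ (List.pairwise_insertionSort _ l)) PB.size'
    (fun _ l => by
      rw [size_perm_nat (List.perm_insertionSort (· ≤ ·) l), size_pair]
      omega)
  exact h.comp ((PT.const ()).pair PT.id)

end Pool.Agent.BCP8
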