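import Pool.Agent.BCP8.Defs

/-!
# Project BCP (helper8): statements of the pieces

Idea. `S` a modulator, guess the partition of `S` into colour classes `0, …, q - 1`, in the order of the budgets
which they get, and the differences of consecutive budgets (`k` means: at least `k`). The state `a` is the list
of the (sorted) colours of the classes, `be a i` the budget of class `i`. The rest can be coloured iff no cut
`(m, A)` is violated (`viol`). In a violated cut with `A` maximal all classes `i ∉ A` have `be a i < m + s i`,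
so that the budget of the last class not in `A` must be raised in every solution. So the least solution is
found by raising budgets one step at a time.
-/

set_option autoImplicit false

namespace Pool.Agent.BCP8

open Pool.Agent.Lib.CX Finset

/-! ## Abstract combinatorics -/

section
variable {V J Q : Type} [Fintype V] [DecidableEq V] [Fintype J] [DecidableEq J] [Fintype Q]
  [DecidableEq Q]

/-- the deficiency of the clique `j` -/
def wf (κ : V → J) (L : V → Q → Bool) (j : J) (A : Finset Q) : ℕ :=
  A.powerset.sup fun Z => (univ.filter fun v => κ v = j ∧ ∀ i ∈ A, L v i = true → i ∈ Z).card - Z.card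

/-- the sum of the `m` largest deficiencies -/
def Wf (κ : V → J) (L : V → Q → Bool) (N m : ℕ) (A : Finset Q) : ℕ :=
  ∑ x ∈ range N, min m (univ.filter fun j => x + 1 ≤ wf κ L j A).card

end

/-- **HALL** (80 lines). Proof: Hall's theorem (`Finset.all_card_le_biUnion_card_iff_exists_injective`) for the
index type `V ⊕ Σ i : C, Fin (card J - r i)` and the sets `t (inl v) = {(κ v, i) | L v i}`,
`t (inr ⟨i, _⟩) = {(j, i) | j : J}`. Hall's condition for a set with `V`-part `U` and whose other part meets
exactly the colours `I`: the union has at least `∑ i ∈ I, card J + ∑ i ∉ I, N_i(U)` elements,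
`N_i(U) = card ((U.filter (L · i)).image κ)`, and the set has at most `card U + ∑ i ∈ I, (card J - r i)`
elements. The matching gives the pairs `(κ v, f v)`; the colour `i` is used at most
`card J - (card J - r i) ≤ r i` times by `V` (if `r i ≥ card J` use that `κ` is injective on `f ⁻¹ i`). -/
def S_HALL : Prop := ∀ (V J C : Type) [Fintype V] [DecidableEq V] [Fintype J] [DecidableEq J]
  [Fintype C] [DecidableEq C] (κ : V → J) (L : V → C → Bool) (r : C → ℕ),
  (∀ U : Finset V, U.card ≤ ∑ i, min (r i) ((U.filter fun v => L v i).image κ).card) →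
  ∃ f : V → C, (∀ v, L v (f v) = true) ∧ (∀ v w, v ≠ w → κ v = κ w → f v ≠ f w) ∧
    ∀ i, (univ.filter fun v => f v = i).card ≤ r i

/-- **TOP** (60 lines): the sum of the `m` largest values. Proof: `w j = ∑ x ∈ range N, [x + 1 ≤ w j]`; exchange the
sums. For the second part take for `T` the first `m` elements in an order with decreasing `w` (for example by induction on `m`:
add an element with maximal `w` outside `T`; then every `x` has `{j ∈ T | x + 1 ≤ w j}` equal to all of `T` or to all
`j` with `x + 1 ≤ w j`). -/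
def S_TOP : Prop := ∀ (J : Type) [Fintype J] [DecidableEq J] (w : J → ℕ) (N : ℕ), (∀ j, w j ≤ N) →
  (∀ T : Finset J, ∑ j ∈ T, w j ≤ ∑ x ∈ range N, min T.card (univ.filter fun j => x + 1 ≤ w j).card) ∧
  ∀ m ≤ Fintype.card J, ∃ T : Finset J, T.card = m ∧
    ∑ j ∈ T, w j = ∑ x ∈ range N, min m (univ.filter fun j => x + 1 ≤ w j).card

/-- **CUT1** (80 lines; `theorem t_CUT1 (h : S_TOP) : S_CUT1`). Proof. Let `A = {i | N_i(U) ≤ r i}`, `T = U.image κ`,
`m = card T`. For `j ∈ T` with `U_j = {v ∈ U | κ v = j}` and `Z_j = {i ∈ A | ∃ v ∈ U_j, L v i}`: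
`card U_j ≤ wf j A + card Z_j`. Sum over `j`: `card U ≤ ∑ j ∈ T, wf j A + ∑ i ∈ A, N_i(U) ≤ Wf m A + ∑ i ∈ A, N_i(U)`. -/
def S_CUT1 : Prop := ∀ (V J Q C : Type) [Fintype V] [DecidableEq V] [Fintype J] [DecidableEq J]
  [Fintype Q] [DecidableEq Q] [Fintype C] (κ : V → J) (L : V → Q → Bool) (N : ℕ) (r : Q → ℕ)
  (b : C → ℕ), Fintype.card V ≤ N →
  (∀ (A : Finset Q) (m : ℕ), m ≤ Fintype.card J →
    Wf κ L N m A ≤ ∑ i ∈ Aᶜ, r i + ∑ c, min (b c) m) →
  ∀ U : Finset V, U.card ≤
    ∑ i, min (r i) ((U.filter fun v => L v i).image κ).card + ∑ c, min (b c) (U.image κ).card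

/-- **CUT2** (80 lines; `theorem t_CUT2 (h : S_TOP) : S_CUT2`). Proof. `T` from `S_TOP`, `T.card = m`. For `j ∈ T` with
`wf j A ≠ 0` let `Z_j ⊆ A` be a maximizer and `U_j = {v | κ v = j ∧ ∀ i ∈ A, L v i → i ∈ Z_j}`; `U_j = Z_j = ∅`
if `wf j A = 0`. `U` is the union of the `U_j`. The classes: `card U = ∑ j ∈ T, (wf j A + card Z_j)`. By `f`: every
`v ∈ U` has its colour in `A` (at most `∑ j ∈ T, card Z_j` many: in clique `j` only colours of `Z_j`, every colour
once), in `Aᶜ` (at most `∑ i ∈ Aᶜ, r i`) or free (colour `c` at most `b c` times and at most once in each of the `m`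
cliques). -/
def S_CUT2 : Prop := ∀ (V J Q C : Type) [Fintype V] [DecidableEq V] [Fintype J] [DecidableEq J]
  [Fintype Q] [DecidableEq Q] [Fintype C] [DecidableEq C] (κ : V → J) (L : V → Q → Bool) (N : ℕ)
  (r : Q → ℕ) (b : C → ℕ) (f : V → Q ⊕ C), Fintype.card V ≤ N →
  (∀ v i, f v = Sum.inl i → L v i = true) → (∀ v w, v ≠ w → κ v = κ w → f v ≠ f w) →
  (∀ i, (univ.filter fun v => f v = Sum.inl i).card ≤ r i) →
  (∀ c, (univ.filter fun v => f v = Sum.inr c).card ≤ b c) →
  ∀ (A : Finset Q) (m : ℕ), m ≤ Fintype.card J →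
    Wf κ L N m A ≤ ∑ i ∈ Aᶜ, r i + ∑ c, min (b c) m

/-- **IMP** (50 lines; `theorem t_IMP (h : S_TOP) : S_IMP`). Proof. `wf j A ≤ wf j (insert i A) + 1` (for `Z ⊆ A` take
`insert i Z`). So with `T` from `S_TOP` for `A`: `Wf m A = ∑ j ∈ T, wf j A ≤ ∑ j ∈ T, (wf j (insert i A) + 1) ≤
Wf m (insert i A) + m`. -/
def S_IMP : Prop := ∀ (V J Q : Type) [Fintype V] [DecidableEq V] [Fintype J] [DecidableEq J]
  [Fintype Q] [DecidableEq Q] (κ : V → J) (L : V → Q → Bool) (N : ℕ), Fintype.card V ≤ N →
  ∀ (A : Finset Q) (i : Q) (m : ℕ), i ∉ A → m ≤ Fintype.card J →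
    Wf κ L N m A ≤ Wf κ L N m (insert i A) + m

/-! ## Bridge to the algorithm -/

/-- the vertices outside the modulator -/
abbrev Rest (E : Env) : Type := {v : Fin E.n // (v : ℕ) ∉ E.S}

/-- a coded set -/
def dec (q A : ℕ) : Finset (Fin q) := univ.filter fun i => A.testBit i = true

/-- **BR** (150 lines): the lists of the algorithm. Proof. `ok` implies that adjacency or equality is an equivalence relation
outside `E.S` (`P3 = none`), `E.cl` is the list of its classes (each represented by its least element); `κ v` is the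
index of the class of `v`. `E.w (E.cl[j]) A = wf κ L j (dec A)`: `E.w` counts the `x` below `K.length` such that some
`Z ⊆ A` has `x + 1 ≤ hit - card Z`, these are the `x` below the maximum (which is at most `K.length`); the codes
`Z < 2 ^ q` give all subsets. -/
def S_BR : Prop := ∀ E : Env, E.ok = true → 2 ^ E.q ≤ E.pad →
  ∃ κ : Rest E → Fin E.cl.length, (∀ u v : Rest E, u ≠ v → (κ u = κ v ↔ E.adj u.1 v.1 = true)) ∧
    ∀ m A, E.W m A = Wf κ (fun (v : Rest E) (i : Fin E.q) => E.comp v.1 i) E.n m (dec E.q A)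

/-- **MODL** (40 lines): simple facts. Proof: `grow` adds vertices below `n` which are not in the list, the number of rounds is `k`,
for the last part: `P3 = none` says that there is no induced path outside. -/
def S_MODL : Prop := ∀ E : Env, E.S.Nodup ∧ E.S.length ≤ E.k ∧ (∀ x ∈ E.S, x < E.n) ∧
  (E.P3 E.S = none → CvdLe (Gr.G E.2.2.1) E.2.1)

/-- state of a solution -/
def Sol (E : Env) (a : List ℕ) : Prop := a.length = E.q ∧ E.fin a = true

/-- **NXT** (150 lines; `theorem t_NXT (h1 : S_BR) (h2 : S_IMP) (h3 : S_MODL) : S_NXT`): the next class to be raised.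
Proof. `β = be a`, `β' = be a'` (`β ≤ β'` as the budgets are sorted). `c1`: `β r < s r ≤ β' r`. `c2`: `a' (i+1) > a' i ≥ a i ≥ a (i+1)`,
or `β' (i+1) ≥ β' i + e i ≥ β i + e i > β (i+1)`. `c3`: `β' i = β' (i+1) - e i ≥ β (i+1) - e i > β i`. `c4 = (m, A)` violated with
`A` maximal: (i) for `i ∉ A`: `β i < m + s i`: otherwise by `S_IMP` also `A ∪ {i}` is violated (the left side of `viol` (`<`) changes by
`- (β i - m)`, the right side by at least `- m + m - s i`). (ii) some `i ∉ A` has `β' i - m > β i - m`: `(m, A)` is not violated for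
`a'` (otherwise a violated `A' ⊇ A` of maximal size gives `c4 a' ≠ none`), and the terms `min (β i) m` only
grow. So there is `i ∉ A`; let `i₀ < q` be the largest one, `nxt = some i₀`. If `a' i₀ = a i₀` then for all `i ≤ i₀` `β' i = β i` or
`β' i + k ≤ β' i₀` (downwards induction, by `c2, c3` for `a` and `a'`: if `e i < k` the difference is exactly `e i`, if `e i = k` it is at least
`k`); in the second case `β' i < m` by (i), as `s i₀ ≤ k` (`E.S.length ≤ k`), so no `i ∉ A` has `β' i - m > β i - m`, a contradiction. If all four are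
`none` then `fin a`; `a' i < c` gives `a i < c`. -/
def S_NXT : Prop := ∀ E : Env, E.B.Pairwise (· ≤ ·) → E.ok = true → 2 ^ E.q ≤ E.pad →
  ∀ a a' : List ℕ, a.length = E.q → Sol E a' → (∀ i < E.q, a.getD i 0 ≤ a'.getD i 0) →
  (E.nxt a = none → E.fin a = true) ∧ ∀ r, E.nxt a = some r → r < E.q ∧ a.getD r 0 < a'.getD r 0

/-- **LOOP** (60 lines; `theorem t_LOOP (h : S_NXT) : S_LOOP`). Proof. The states stay below `a'`; each round raises
one entry by one or the state is final (and stays); the sum of the entries of `a'` is at most `q * c`. -/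
def S_LOOP : Prop := ∀ E : Env, E.B.Pairwise (· ≤ ·) → E.ok = true → 2 ^ E.q ≤ E.pad →
  (∃ a', Sol E a') → E.fin E.run = true

/-- the colouring of the whole graph belonging to a state -/
def Col (E : Env) (a : List ℕ) : Prop := ∃ f : Fin E.n → Fin E.B.length,
  (∀ u v : Fin E.n, E.adj u v = true → f u ≠ f v) ∧
  (∀ i, (univ.filter fun v => f v = i).card ≤ E.B.get i) ∧
  ∀ x : Fin E.n, (x : ℕ) ∈ E.S → (f x : ℕ) = a.getD (E.cls x) 0

/-- **FEA1** (120 lines; `theorem t_FEA1 (h1 : S_HALL) (h2 : S_CUT1) (h3 : S_BR) : S_FEA1`): from a final state to a colouring.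
Proof. `fin a`: the entries are increasing (`c2`), `s i ≤ be a i` (`c1`), and no cut is violated (`c4 = none`: a violated cut
`(m, A)` can be enlarged to one with `A` maximal). Free colours: `C = {c : Fin c // c ∉ a}`. Put `r i = be a i - s i`, `b c = B c`.
`¬ viol` is the hypothesis of `S_CUT1`: `∑ c free, min (b c) m = phi m - ∑ i, min (be a i) m`. Then `S_HALL` for the colours
`Q ⊕ C` (free colours are allowed for all vertices) and the classes of the modulator. -/
def S_FEA1 : Prop := ∀ E : Env, E.B.Pairwise (· ≤ ·) → E.ok = true → 2 ^ E.q ≤ E.pad →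
  ∀ a, Sol E a → Col E a

/-- **FEA2** (120 lines; `theorem t_FEA2 (h1 : S_CUT2) (h2 : S_BR) : S_FEA2`): from a colouring to unviolated cuts. Proof. The
restriction of the colouring to `Rest E` satisfies the hypotheses of `S_CUT2` with `r i = be a i - s i`
(the class `i` of the modulator has `s i` vertices of colour `a i`); see `S_FEA1`. -/
def S_FEA2 : Prop := ∀ E : Env, E.ok = true → 2 ^ E.q ≤ E.pad → ∀ a : List ℕ, a.length = E.q →
  a.Nodup → (∀ x ∈ a, x < E.B.length) → Col E a → (∀ i < E.q, E.s i ≤ E.be a i) ∧ E.c4 a = none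

/-- **MOD** (80 lines): the search of the modulator. Proof: if `S₀` is a modulator then every induced path has a vertex in
`S₀`; choose the digits so that the chosen vertices are in `S₀`; after `j` rounds the list has `j` different elements of `S₀` or there
is no induced path outside it. The digits `j < k` are `0, 1, 2`. -/
def S_MOD : Prop := ∀ (pad : List Unit) (k : ℕ) (G : Gr) (B : List ℕ), CvdLe G.G k →
  ∃ d : ℕ → ℕ, (∀ j, d j < 3) ∧ ∀ t : ℕ, (∀ j < min k G.n, Env.dig (pad, k, G, B, t) j = d j) →
    Env.P3 (pad, k, G, B, t) (Env.S (pad, k, G, B, t)) = none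

/-- **DIG** (40 lines): digits. Proof: `t = ∑ d j * b ^ j` (`Nat.ofDigits`). -/
def S_DIG : Prop := ∀ (b N : ℕ) (d : ℕ → ℕ), 0 < b → (∀ j < N, d j < b) →
  ∃ t < b ^ N, ∀ j < N, t / b ^ j % b = d j

/-- **SRT** (40 lines): the order of the budgets does not matter. Proof: `B.insertionSort` is a permutation of `B`; a bijection of the
positions (`List.Perm` gives an equivalence `Fin B.length ≃ Fin B'.length` which respects the entries). -/
def S_SRT : Prop := ∀ (V : Type) [Fintype V] [DecidableEq V] (G : SimpleGraph V) (B B' : List ℕ),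
  B.Perm B' → Budgeted G B → Budgeted G B'

/-- **GUE** (150 lines; `theorem t_GUE (h1 : S_MOD) (h2 : S_MODL) (h3 : S_DIG) (h4 : S_FEA2) : S_GUE`): the right guess.
Proof. `b = K + 3`, `K = min k n`. Digits `j < K` from `S_MOD`: `S` and `P3 = none`. Let `f` be the colouring; the colours used on
`S` are `a_0 < … < a_(q-1)`, `q ≤ K`; the digit `K + j` is the index `i` with `f x = a_i` for the `j`-th vertex `x` of `S`; the
digit `2 K + i` is `min (B (a_(i+1)) - B (a_i)) K` for `i + 1 < q`, and `0` for other `i < K`; the digit `3 K` is `q`. Then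
`ok`, and `Sol E a` by `S_FEA2` (`c2`, `c3` by the choice of the digits). -/
def S_GUE : Prop := ∀ (pad : List Unit) (k : ℕ) (G : Gr) (B : List ℕ), B.Pairwise (· ≤ ·) →
  gg k ≤ pad.length → CvdLe G.G k → Budgeted G.G B →
  ∃ t < gg k, Env.ok (pad, k, G, B, t) = true ∧ ∃ a, Sol (pad, k, G, B, t) a

/-- **COR** (60 lines; `theorem t_COR (h1 : S_LOOP) (h2 : S_GUE) (h3 : S_FEA1) (h4 : S_SRT) (h5 : S_MODL) : S_COR`). Proof:
put together; `2 ^ q ≤ gg k` as `q ≤ k`; the final state of `run` has length `q`. -/
def S_COR : Prop := ∀ (pad : List Unit) (k : ℕ) (G : Gr) (B : List ℕ), gg k ≤ pad.length →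
  (F (pad, k, G, B) = true ↔ CvdLe G.G k ∧ Budgeted G.G B)

/-- **PTI** (40 lines): `PT` of `List.insertionSort`. Proof: `PT.foldl` for the reversed list, insertion of `x` into a sorted list
`l` is `l.filter (· < x) ++ x :: l.filter (fun y => !(y < x))` on sorted lists (or any function with the same result);
see `Pool/Agent/Lib/lead/CXList.lean`. -/
def S_PTI : Prop := PT (fun l : List ℕ => l.insertionSort (· ≤ ·))

/-- **PTE** (150 lines, mostly `fun_prop`; `theorem t_PTE : S_PTE`): the parts of the algorithm are polynomial (add lemmas for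
`E.adj`, `E.dig`, `E.P3`, …, `E.w`, `E.W`, `E.viol`, `E.nxt`, `E.rnd`, `E.fin`, each by `unfold` and `fun_prop`, with the hypotheses as
`PT (fun a => E a)`; bounds `PB` for `E.k ≤ n`, `E.q`; `PT.iterate` for `E.S` and `E.run`: the states are lists of length at most `k`
of numbers `≤ n`, lists of length `q` with entries `≤ c`). -/
def S_PTE : Prop := PT Env.ok ∧ PT (fun E : Env => E.fin E.run)

/-- **FPTP** (120 lines; `theorem t_FPTP : S_FPTP`): padding. Proof: a program which computes `(k, x) ↦ (pad, k, x)` with a pad of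
length `≥ gg k` (for example `2 ^ j` for a suitable `j`; or any computable bound) in at most `f k * (size x + 1) ^ c` steps; use the lemmas on `R`
and `loop_exec` of `Pool/Agent/Lib/lead/CXPT.lean` with the polynomial-time step function
`(i, pad, k, x) ↦ (i - 1, pad ++ pad, k, x)`. -/
def S_FPTP : Prop := ∀ (α : Type) [Enc α] (H : List Unit × ℕ × α → Bool) (A : ℕ → α → Prop),
  PT H → (∀ pad k x, gg k ≤ pad.length → (H (pad, k, x) = true ↔ A k x)) → FPT A

/-- the final theorem -/
def S_FINAL : Prop := FPT fun (k : ℕ) (x : Gr × List ℕ) => CvdLe x.1.G k ∧ Budgeted x.1.G x.2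

end Pool.Agent.BCP8
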